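import Pool.Agent.Y645.MX.Rlc
import Pool.Agent.TH971.SP.A2

/-!
Values of algebraic elements in the Gauss valuation rings (helper file for Zilber-Pink for random
pull-backs to fibre powers of the universal elliptic curve).
-/

set_option autoImplicit false
set_option linter.unusedSectionVars false

open MvPolynomial

namespace Pool.Agent.Y645.MX

open Pool.Agent.W282.ZP Pool.Agent.TH971.SP

/-- The value of a polynomial in the generators. -/
theorem gauss_val {κ : Type*} {τ : κ → ℂ} {p : ℕ} (hp : p.Prime) (f : MvPolynomial κ ℤ)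
    (hf : f ≠ 0) : ∃ k : ℕ, ∀ V : ValuationSubring ℂ, Good τ p V →
      V.valuation (aeval τ f) = V.valuation (p : ℂ) ^ k := by
  have hval : ∀ (N : ℕ) (f : MvPolynomial κ ℤ) (m : κ →₀ ℕ), (f.coeff m).natAbs ≤ N →
      f.coeff m ≠ 0 → ∃ k : ℕ, ∀ V : ValuationSubring ℂ, Good τ p V →
        V.valuation (aeval τ f) = V.valuation (p : ℂ) ^ k := by
    intro N
    induction N with
    | zero =>
      intro f m h1 h2
      exact absurd (Int.natAbs_eq_zero.1 (Nat.le_zero.1 h1)) h2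
    | succ N ih =>
      intro f m h1 h2
      by_cases hd : C (p : ℤ) ∣ f
      · obtain ⟨f', rfl⟩ := hd
        have h3 : (C (p : ℤ) * f').coeff m = p * f'.coeff m := by rw [coeff_C_mul]
        rw [h3] at h1 h2
        have h4 : f'.coeff m ≠ 0 := right_ne_zero_of_mul h2
        have h5 : (f'.coeff m).natAbs ≤ N := by
          rw [Int.natAbs_mul, Int.natAbs_natCast] at h1
          have h6 := Int.natAbs_pos.2 h4
          have h7 : 2 * (f'.coeff m).natAbs ≤ p * (f'.coeff m).natAbs :=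
            Nat.mul_le_mul_right _ hp.two_le
          omega
        obtain ⟨k, hk⟩ := ih f' m h5 h4
        refine ⟨k + 1, fun V hV => ?_⟩
        rw [map_mul, aeval_C, map_mul, hk V hV, pow_succ']
        simp
      · exact ⟨0, fun V hV => by rw [pow_zero]; exact hV.gauss f hd⟩
  obtain ⟨m, hm⟩ : ∃ m, f.coeff m ≠ 0 := by
    by_contra h
    push Not at h
    exact hf (MvPolynomial.ext _ _ fun m => by rw [h m, coeff_zero])
  exact hval _ f m le_rfl hm

/-- The value of an algebraic element. -/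
theorem alg_val {κ : Type*} {τ : κ → ℂ} {p : ℕ} (hp : p.Prime) {x : ℂ} (hx : x ≠ 0)
    (h : IsAlgebraic (Algebra.adjoin ℤ (Set.range τ)) x) :
    ∃ N C : ℕ, 0 < N ∧ ∀ V : ValuationSubring ℂ, Good τ p V →
      (∃ i j : ℕ, V.valuation x ^ N * V.valuation (p : ℂ) ^ i = V.valuation (p : ℂ) ^ j) ∧
      V.valuation x * V.valuation (p : ℂ) ^ C ≤ 1 := by
  classical
  obtain ⟨g, hg, hgx⟩ := h
  have hk : ∀ i, ∃ k : ℕ, g.coeff i ≠ 0 → ∀ V : ValuationSubring ℂ, Good τ p V →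
      V.valuation ((g.coeff i : Algebra.adjoin ℤ (Set.range τ)) : ℂ) =
        V.valuation (p : ℂ) ^ k := by
    intro i
    by_cases h0 : g.coeff i = 0
    · exact ⟨0, fun h => absurd h0 h⟩
    · have h2 : ((g.coeff i : Algebra.adjoin ℤ (Set.range τ)) : ℂ) ∈
          (aeval τ : MvPolynomial κ ℤ →ₐ[ℤ] ℂ).range := by
        rw [← Algebra.adjoin_range_eq_range_aeval]
        exact (g.coeff i).2
      obtain ⟨f, hf⟩ := h2
      have hf0 : f ≠ 0 := by
        rintro rfl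
        apply h0
        apply Subtype.ext
        rw [← hf]
        simp
      obtain ⟨k, hk⟩ := gauss_val (τ := τ) hp f hf0
      refine ⟨k, fun _ V hV => ?_⟩
      rw [← hk V hV]
      congr 1
      exact hf.symm
  choose k hk using hk
  refine ⟨g.natDegree.factorial, ∑ i ∈ g.support, k i, Nat.factorial_pos _, fun V hV => ?_⟩
  set v := V.valuation with hv
  have hpC : (p : ℂ) ≠ 0 := by exact_mod_cast hp.ne_zero
  have hpv0 : v (p : ℂ) ≠ 0 := (map_ne_zero v).2 hpC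
  have hp1 : v (p : ℂ) < 1 := hV.lt
  have hxv : v x ≠ 0 := (map_ne_zero v).2 hx
  let t : ℕ → ℂ := fun i => ((g.coeff i : Algebra.adjoin ℤ (Set.range τ)) : ℂ) * x ^ i
  have hvt : ∀ i ∈ g.support, v (t i) = v (p : ℂ) ^ k i * v x ^ i := by
    intro i hi
    change v (_ * _) = _
    rw [map_mul, hk i (Polynomial.mem_support_iff.1 hi) V hV, map_pow]
  have hsum : ∑ i ∈ g.support, t i = 0 := by
    rw [Polynomial.aeval_def, Polynomial.eval₂_eq_sum, Polynomial.sum] at hgx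
    exact hgx
  have hne : g.support.Nonempty := Polynomial.support_nonempty.2 hg
  obtain ⟨i, hi, himax⟩ := Finset.exists_max_image g.support (fun i => v (t i)) hne
  have hti : v (t i) ≠ 0 := by
    rw [hvt i hi]
    exact mul_ne_zero (pow_ne_zero _ hpv0) (pow_ne_zero _ hxv)
  obtain ⟨j, hj, hji, hval⟩ : ∃ j ∈ g.support, j ≠ i ∧ v (t j) = v (t i) := by
    by_contra hcon
    push Not at hcon
    have h1 : v (∑ i ∈ g.support, t i) = v (t i) := by
      refine Valuation.map_sum_eq_of_lt v hi (fun j hj => ?_)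
      rw [Finset.mem_sdiff, Finset.mem_singleton] at hj
      exact lt_of_le_of_ne (himax j hj.1) (hcon j hj.1 hj.2)
    rw [hsum, map_zero] at h1
    exact hti h1.symm
  rw [hvt i hi, hvt j hj] at hval
  have key : ∀ a b : ℕ, a ∈ g.support → b ∈ g.support → a < b →
      v (p : ℂ) ^ k a * v x ^ a = v (p : ℂ) ^ k b * v x ^ b →
      (∃ i j : ℕ, v x ^ g.natDegree.factorial * v (p : ℂ) ^ i = v (p : ℂ) ^ j) ∧
      v x * v (p : ℂ) ^ (∑ i ∈ g.support, k i) ≤ 1 := by
    intro a b ha hb hab h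
    obtain ⟨D, hD, rfl⟩ : ∃ D, 0 < D ∧ b = a + D := ⟨b - a, by omega, by omega⟩
    have h1 : v x ^ D * v (p : ℂ) ^ k (a + D) = v (p : ℂ) ^ k a := by
      rw [pow_add, mul_left_comm, mul_comm (v (p : ℂ) ^ k a)] at h
      have h2 := mul_left_cancel₀ (pow_ne_zero a hxv) h
      rw [h2, mul_comm]
    have hDn : D ≤ g.natDegree := by
      have := Polynomial.le_natDegree_of_mem_supp _ hb
      omega
    obtain ⟨w, hw⟩ := Nat.dvd_factorial hD hDn
    refine ⟨⟨k (a + D) * w, k a * w, ?_⟩, ?_⟩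
    · rw [hw, pow_mul, pow_mul, pow_mul, ← mul_pow, h1]
    · have h3 : v x ^ D * v (p : ℂ) ^ k (a + D) ≤ 1 := by
        rw [h1]
        exact pow_le_one₀ zero_le hp1.le
      have h4 := mul_pow_le V hp1.le hD h3
      refine le_trans ?_ h4
      have h5 : k (a + D) ≤ ∑ i ∈ g.support, k i :=
        Finset.single_le_sum (f := k) (fun _ _ => Nat.zero_le _) hb
      exact mul_le_mul' le_rfl (pow_le_pow_right_of_le_one' hp1.le h5)
  rcases lt_or_gt_of_ne hji with h1 | h1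
  · exact key j i hj hi h1 hval
  · exact key i j hi hj h1 hval.symm

theorem Good.sub {κ μ : Type*} {τ : κ → ℂ} {y : μ → ℂ} {p : ℕ} {V : ValuationSubring ℂ}
    (g : κ → μ) (hg : Function.Injective g) (hy : ∀ i, y (g i) = τ i) (h : Good y p V) :
    Good τ p V :=
  ⟨h.hp, fun i => by rw [← hy]; exact h.mem _, gauss_comp g hg hy h.gauss, h.arch⟩

/-- The exponent of the discriminant. -/
theorem exists_cnu {κ : Type*} {τ : κ → ℂ} {p : ℕ} (hp : p.Prime) {x0 : ℂ}
    (h : IsAlgebraic (Algebra.adjoin ℤ (Set.range τ)) x0) :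
    ∃ N C : ℕ, 0 < N ∧ ∀ V : ValuationSubring ℂ, Good τ p V → ∀ (e0 : ℕ) (a : ℂ),
      max (V.valuation a) (V.valuation (a * ((p : ℂ) ^ e0 * x0))) = 1 →
      ∃ cν : ℕ, V.valuation a ^ N = V.valuation (p : ℂ) ^ cν ∧ cν ≤ N * C := by
  by_cases hx : x0 = 0
  · refine ⟨1, 0, one_pos, fun V hV e0 a hmax => ⟨0, ?_, Nat.zero_le _⟩⟩
    rw [hx, mul_zero, mul_zero, map_zero, max_eq_left zero_le] at hmax
    rw [hmax, one_pow, pow_zero]
  obtain ⟨N, C, hN, hkey⟩ := alg_val hp hx h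
  refine ⟨N, C, hN, fun V hV e0 a hmax => ?_⟩
  obtain ⟨⟨i, j, hij⟩, hC⟩ := hkey V hV
  set v := V.valuation with hv
  have hpC : (p : ℂ) ≠ 0 := by exact_mod_cast hp.ne_zero
  have hpv0 : v (p : ℂ) ≠ 0 := (map_ne_zero v).2 hpC
  have hpos : 0 < v (p : ℂ) := zero_lt_iff.2 hpv0
  have hp1 : v (p : ℂ) < 1 := hV.lt
  have hmono : ∀ {a b : ℕ}, v (p : ℂ) ^ a ≤ v (p : ℂ) ^ b → b ≤ a := by
    intro a b h
    by_contra hcon
    push Not at hcon
    exact absurd (pow_lt_pow_right_of_lt_one₀ hpos hp1 hcon) (not_lt.2 h)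
  by_cases h1 : v a = 1
  · exact ⟨0, by rw [h1, one_pow, pow_zero], Nat.zero_le _⟩
  have ha1 : v a ≤ 1 := hmax ▸ le_max_left _ _
  have h2 : v (a * ((p : ℂ) ^ e0 * x0)) = 1 := by
    rcases max_choice (v a) (v (a * ((p : ℂ) ^ e0 * x0))) with h3 | h3
    · rw [h3] at hmax
      exact absurd hmax h1
    · rw [h3] at hmax
      exact hmax
  have h3 : v a ^ N * (v (p : ℂ) ^ (e0 * N) * v x0 ^ N) = 1 := by
    have h4 : v a * (v (p : ℂ) ^ e0 * v x0) = 1 := by
      rw [← h2, map_mul, map_mul, map_pow]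
    rw [pow_mul, ← mul_pow, ← mul_pow, h4, one_pow]
  have h4 : v a ^ N * v (p : ℂ) ^ (e0 * N + j) = v (p : ℂ) ^ i := by
    calc v a ^ N * v (p : ℂ) ^ (e0 * N + j)
        = v a ^ N * (v (p : ℂ) ^ (e0 * N) * (v x0 ^ N * v (p : ℂ) ^ i)) := by rw [hij, pow_add]
      _ = v a ^ N * (v (p : ℂ) ^ (e0 * N) * v x0 ^ N) * v (p : ℂ) ^ i := by ac_rfl
      _ = v (p : ℂ) ^ i := by rw [h3, one_mul]
  have h5 : e0 * N + j ≤ i := by
    refine hmono ?_
    rw [← h4]
    exact mul_le_of_le_one_left' (pow_le_one₀ zero_le ha1)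
  obtain ⟨c, rfl⟩ := Nat.exists_eq_add_of_le h5
  have h6 : v a ^ N = v (p : ℂ) ^ c := by
    rw [pow_add _ (e0 * N + j) c, mul_comm] at h4
    exact mul_left_cancel₀ (pow_ne_zero _ hpv0) h4
  refine ⟨c, h6, ?_⟩
  have h7 : v x0 ^ N * v (p : ℂ) ^ (C * N) ≤ 1 := by
    rw [pow_mul, ← mul_pow]
    exact pow_le_one₀ zero_le hC
  have h8 : v x0 ^ N ≠ 0 := pow_ne_zero _ ((map_ne_zero v).2 hx)
  have h9 : v (p : ℂ) ^ (C * N) ≤ v (p : ℂ) ^ (c + e0 * N) := by
    rw [h6, ← mul_assoc, ← pow_add, mul_comm] at h3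
    rw [← h3] at h7
    exact (mul_le_mul_iff_right₀ (zero_lt_iff.2 h8)).1 h7
  have h10 := hmono h9
  rw [mul_comm N C]
  omega

end Pool.Agent.Y645.MX
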