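import Pool.Agent.Y645.MX.Ev

/-!
Random isobaric polynomials at one place: most of the components of the map have prescribed
reductions, unless many coordinates have prescribed values (helper file for Zilber-Pink for random
pull-backs to fibre powers of the universal elliptic curve).
-/

set_option autoImplicit false
set_option linter.unusedSectionVars false

open MvPolynomial

namespace Pool.Agent.Y645.MX

open Pool.Agent.W282.ZP Pool.Agent.TH971.SP

/-- the number of a pair -/
def idx {m q : ℕ} (j : Fin m) (l : Fin q) : ℕ := (finProdFinEquiv (j, l) : Fin (m * q)) + 1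

theorem idx_inj {m q : ℕ} {j j' : Fin m} {l l' : Fin q} (h : idx j l = idx j' l') :
    j = j' ∧ l = l' := by
  have h1 : finProdFinEquiv (j, l) = finProdFinEquiv (j', l') := Fin.ext (Nat.succ_injective h)
  have h2 := finProdFinEquiv.injective h1
  exact ⟨congrArg Prod.fst h2, congrArg Prod.snd h2⟩

/-- the number of a set -/
def sg (s : Finset ℕ) : ℕ := ∑ i ∈ s, 4 ^ i

theorem sg_inj {s s' : Finset ℕ} (h : sg s = sg s') : s = s' :=
  Finset.geomSum_injective (by norm_num : 2 ≤ 4) h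

/-- the set of numbers of pairs -/
def Ok (m q : ℕ) (s : Finset ℕ) : Prop := s.Nonempty ∧ ∀ i ∈ s, 1 ≤ i ∧ i < m * q + 1

theorem Ok_idx {m q : ℕ} (j : Fin m) (l : Fin q) : Ok m q {idx j l} := by
  refine ⟨Finset.singleton_nonempty _, fun i hi => ?_⟩
  rw [Finset.mem_singleton] at hi
  subst hi
  have := (finProdFinEquiv (j, l) : Fin (m * q)).2
  unfold idx
  omega

theorem Ok_pair {m q : ℕ} (j j' : Fin m) (l : Fin q) : Ok m q {idx j l, idx j' l} := by
  refine ⟨Finset.insert_nonempty _ _, fun i hi => ?_⟩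
  rw [Finset.mem_insert, Finset.mem_singleton] at hi
  rcases hi with rfl | rfl
  · exact (Ok_idx j l).2 _ (Finset.mem_singleton_self _)
  · exact (Ok_idx j' l).2 _ (Finset.mem_singleton_self _)

theorem sg_lt {m q : ℕ} {s : Finset ℕ} (hs : Ok m q s) : sg s < 4 ^ (m * q + 1) :=
  Nat.geomSum_lt (by norm_num) fun k hk => (hs.2 k hk).2

theorem sg_pos {m q : ℕ} {s : Finset ℕ} (hs : Ok m q s) : 0 < sg s := by
  obtain ⟨i, hi⟩ := hs.1
  exact Finset.sum_pos' (fun _ _ => Nat.zero_le _) ⟨i, hi, by positivity⟩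

theorem sg_even {m q : ℕ} {s : Finset ℕ} (hs : Ok m q s) : Even (sg s) := by
  refine Finset.even_sum _ fun i hi => ?_
  have h1 := (hs.2 i hi).1
  obtain ⟨k, rfl⟩ := Nat.exists_eq_add_of_le h1
  rw [pow_add, pow_one]
  exact (by decide : Even 4).mul_right _

/-- a bound for the prime -/
def Wb (m q b : ℕ) : ℕ := 4 ^ (m * q + 1) + (2 * m + 3) ^ b + 6912 + 2 * m + 4

theorem Wb1 (m q b : ℕ) : 4 ^ (m * q + 1) ≤ Wb m q b := by
  unfold Wb
  generalize 4 ^ (m * q + 1) = x
  generalize (2 * m + 3) ^ b = y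
  omega

theorem Wb2 (m q b : ℕ) : (2 * m + 3) ^ b + 4 ^ (m * q + 1) ≤ Wb m q b := by
  unfold Wb
  generalize 4 ^ (m * q + 1) = x
  generalize (2 * m + 3) ^ b = y
  omega

theorem Wb3 (m q b : ℕ) : 6912 + 2 * m + 4 ≤ Wb m q b := by
  unfold Wb
  generalize 4 ^ (m * q + 1) = x
  generalize (2 * m + 3) ^ b = y
  omega

section place

variable {m q b : ℕ} (V : ValuationSubring ℂ) {p : ℕ}

/-- the special values of `β / a` -/
def Evt (b : ℕ) (a β : ℂ) (s : Finset ℕ) : Prop :=
  V.valuation ((sg s : ℂ) * a ^ b + β ^ b) < 1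

/-- the special values of `β / a` -/
def Ext (a β : ℂ) (j : Fin m) : Prop :=
  V.valuation (((2 * (j : ℕ) + 3 : ℕ) : ℂ) * a + β) < 1

variable (hp : p.Prime) (hpW : Wb m q b < p) (hp1 : V.valuation (p : ℂ) < 1)

include hp hpW hp1 in
theorem un {z : ℤ} (hz : z ≠ 0) (hb : z.natAbs ≤ Wb m q b) : V.valuation (z : ℂ) = 1 := by
  refine val_int_unit V hp hp1 fun h => ?_
  have h1 := Nat.le_of_dvd (Int.natAbs_pos.2 hz) (Int.natCast_dvd.1 h)
  omega

variable {a β : ℂ} (hab : max (V.valuation a) (V.valuation β) = 1) (hb0 : 0 < b)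

include hp hpW hp1 hab hb0 in
theorem evt_typ {s : Finset ℕ} (hs : Ok m q s) (h : Evt V b a β s) :
    V.valuation a = 1 ∧ V.valuation β = 1 := by
  set v := V.valuation with hv
  have h1 : v (sg s : ℂ) = 1 := by
    have h2 := un (m := m) (q := q) (b := b) V hp hpW hp1 (z := (sg s : ℤ))
      (by exact_mod_cast (sg_pos hs).ne') (by
        rw [Int.natAbs_natCast]
        exact (sg_lt hs).le.trans (Wb1 m q b))
    rwa [Int.cast_natCast] at h2
  have ha : v a ≤ 1 := hab ▸ le_max_left _ _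
  have hβ : v β ≤ 1 := hab ▸ le_max_right _ _
  unfold Evt at h
  rw [← hv] at h
  have e1 : v ((sg s : ℂ) * a ^ b) = v a ^ b := by rw [map_mul, h1, one_mul, map_pow]
  have e2 : v (β ^ b) = v β ^ b := map_pow _ _ _
  refine ⟨le_antisymm ha ?_, le_antisymm hβ ?_⟩
  · by_contra hcon
    push Not at hcon
    have h3 : v β = 1 := by
      rcases le_total (v a) (v β) with h4 | h4
      · rwa [max_eq_right h4] at hab
      · rw [max_eq_left h4] at hab
        exact absurd hab hcon.ne
    have h4 : v ((sg s : ℂ) * a ^ b) < v (β ^ b) := by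
      rw [e1, e2, h3, one_pow]
      exact pow_lt_one₀ zero_le hcon hb0.ne'
    rw [Valuation.map_add_eq_of_lt_right _ h4, e2, h3, one_pow] at h
    exact lt_irrefl _ h
  · by_contra hcon
    push Not at hcon
    have h3 : v a = 1 := by
      rcases le_total (v a) (v β) with h4 | h4
      · rw [max_eq_right h4] at hab
        exact absurd hab hcon.ne
      · rwa [max_eq_left h4] at hab
    have h4 : v (β ^ b) < v ((sg s : ℂ) * a ^ b) := by
      rw [e1, e2, h3, one_pow]
      exact pow_lt_one₀ zero_le hcon hb0.ne'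
    rw [Valuation.map_add_eq_of_lt_left _ h4, e1, h3, one_pow] at h
    exact lt_irrefl _ h

include hp hpW hp1 hab in
theorem ext_typ {j : Fin m} (h : Ext V a β j) : V.valuation a = 1 ∧ V.valuation β = 1 := by
  set v := V.valuation with hv
  have h1 : v (((2 * (j : ℕ) + 3 : ℕ) : ℂ)) = 1 := by
    have h2 := un (m := m) (q := q) (b := b) V hp hpW hp1 (z := ((2 * (j : ℕ) + 3 : ℕ) : ℤ))
      (by positivity) (by
        have := j.2
        have h3 := Wb3 m q b
        rw [Int.natAbs_natCast]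
        omega)
    rwa [Int.cast_natCast] at h2
  have ha : v a ≤ 1 := hab ▸ le_max_left _ _
  have hβ : v β ≤ 1 := hab ▸ le_max_right _ _
  unfold Ext at h
  rw [← hv] at h
  have e1 : v (((2 * (j : ℕ) + 3 : ℕ) : ℂ) * a) = v a := by rw [map_mul, h1, one_mul]
  refine ⟨le_antisymm ha ?_, le_antisymm hβ ?_⟩
  · by_contra hcon
    push Not at hcon
    have h3 : v β = 1 := by
      rcases le_total (v a) (v β) with h4 | h4
      · rwa [max_eq_right h4] at hab
      · rw [max_eq_left h4] at hab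
        exact absurd hab hcon.ne
    have h4 : v (((2 * (j : ℕ) + 3 : ℕ) : ℂ) * a) < v β := by
      rw [e1, h3]
      exact hcon
    rw [Valuation.map_add_eq_of_lt_right _ h4, h3] at h
    exact lt_irrefl _ h
  · by_contra hcon
    push Not at hcon
    have h3 : v a = 1 := by
      rcases le_total (v a) (v β) with h4 | h4
      · rw [max_eq_right h4] at hab
        exact absurd hab hcon.ne
      · rwa [max_eq_left h4] at hab
    have h4 : v β < v (((2 * (j : ℕ) + 3 : ℕ) : ℂ) * a) := by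
      rw [e1, h3]
      exact hcon
    rw [Valuation.map_add_eq_of_lt_left _ h4, e1, h3] at h
    exact lt_irrefl _ h

include hp hpW hp1 hab hb0 in
theorem evt_evt {s s' : Finset ℕ} (hs : Ok m q s) (hs' : Ok m q s') (h : Evt V b a β s)
    (h' : Evt V b a β s') : s = s' := by
  by_contra hne
  set v := V.valuation with hv
  have ha := (evt_typ V hp hpW hp1 hab hb0 hs h).1
  have h1 : v ((((sg s : ℤ) - (sg s' : ℤ) : ℤ)) : ℂ) = 1 := by
    refine un (m := m) (q := q) (b := b) V hp hpW hp1 ?_ ?_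
    · intro h2
      exact hne (sg_inj (by omega))
    · have h2 := (sg_lt hs).le.trans (Wb1 m q b)
      have h3 := (sg_lt hs').le.trans (Wb1 m q b)
      omega
  have h2 : v ((((sg s : ℤ) - (sg s' : ℤ) : ℤ)) * a ^ b : ℂ) < 1 := by
    have e : ((((sg s : ℤ) - (sg s' : ℤ) : ℤ)) * a ^ b : ℂ) =
        ((sg s : ℂ) * a ^ b + β ^ b) - ((sg s' : ℂ) * a ^ b + β ^ b) := by
      push_cast
      ring
    rw [e]
    exact (Valuation.map_sub _ _ _).trans_lt (max_lt h h')
  rw [map_mul, h1, one_mul, map_pow, ha, one_pow] at h2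
  exact lt_irrefl _ h2

include hp hpW hp1 hab in
theorem ext_ext {j j' : Fin m} (h : Ext V a β j) (h' : Ext V a β j') : j = j' := by
  by_contra hne
  set v := V.valuation with hv
  have ha := (ext_typ V hp hpW hp1 hab h).1
  have h1 : v ((((2 * (j : ℕ) + 3 : ℕ) : ℤ) - ((2 * (j' : ℕ) + 3 : ℕ) : ℤ) : ℤ) : ℂ) = 1 := by
    refine un (m := m) (q := q) (b := b) V hp hpW hp1 ?_ ?_
    · intro h2
      exact hne (Fin.ext (by omega))
    · have h2 := j.2
      have h3 := j'.2
      have h4 := Wb3 m q b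
      omega
  have h2 : v (((((2 * (j : ℕ) + 3 : ℕ) : ℤ) - ((2 * (j' : ℕ) + 3 : ℕ) : ℤ) : ℤ) : ℂ) * a) < 1 := by
    have e : ((((2 * (j : ℕ) + 3 : ℕ) : ℤ) - ((2 * (j' : ℕ) + 3 : ℕ) : ℤ) : ℤ) : ℂ) * a =
        (((2 * (j : ℕ) + 3 : ℕ) : ℂ) * a + β) - (((2 * (j' : ℕ) + 3 : ℕ) : ℂ) * a + β) := by
      push_cast
      ring
    rw [e]
    exact (Valuation.map_sub _ _ _).trans_lt (max_lt h h')
  rw [map_mul, h1, one_mul, ha] at h2
  exact lt_irrefl _ h2

theorem pow_sub_lt {x y : ℂ} (hx : V.valuation x ≤ 1) (hy : V.valuation y ≤ 1)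
    (h : V.valuation (x - y) < 1) (n : ℕ) : V.valuation (x ^ n - y ^ n) < 1 := by
  rw [← (Commute.all x y).geom_sum₂_mul, map_mul]
  refine (mul_le_of_le_one_left' ?_).trans_lt h
  refine V.valuation.map_sum_le fun i _ => ?_
  rw [map_mul, map_pow, map_pow]
  exact mul_le_one₀ (pow_le_one₀ zero_le hx) zero_le (pow_le_one₀ zero_le hy)

include hp hpW hp1 hab in
theorem ext_evt {j : Fin m} {s : Finset ℕ} (hs : Ok m q s) (h : Ext V a β j)
    (h' : Evt V b a β s) : False := by
  set v := V.valuation with hv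
  obtain ⟨ha, hβ⟩ := ext_typ V hp hpW hp1 hab h
  rw [← hv] at ha hβ
  set t : ℤ := -((2 * (j : ℕ) + 3 : ℕ) : ℤ) with ht
  have h1 : v (β ^ b - ((t : ℂ) * a) ^ b) < 1 := by
    refine pow_sub_lt V hβ.le ?_ ?_ b
    · rw [map_mul]
      exact mul_le_one₀ (int_le V _) zero_le ha.le
    · have e : β - (t : ℂ) * a = ((2 * (j : ℕ) + 3 : ℕ) : ℂ) * a + β := by
        rw [ht]
        push_cast
        ring
      rw [e]
      exact h
  have h2 : v (((sg s : ℤ) + t ^ b : ℤ) : ℂ) = 1 := by
    refine un (m := m) (q := q) (b := b) V hp hpW hp1 ?_ ?_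
    · intro h3
      have h4 : Even (t ^ b) := by
        have h5 : t ^ b = -(sg s : ℤ) := by omega
        rw [h5, even_neg]
        exact_mod_cast sg_even hs
      have h5 : Odd (t ^ b) := by
        refine Odd.pow ?_
        rw [ht, odd_neg]
        exact_mod_cast (⟨(j : ℕ) + 1, by ring⟩ : Odd (2 * (j : ℕ) + 3))
      exact (Int.not_even_iff_odd.2 h5) h4
    · have h3 := sg_lt hs
      have h4 : (t ^ b).natAbs ≤ (2 * m + 3) ^ b := by
        rw [Int.natAbs_pow]
        refine Nat.pow_le_pow_left ?_ b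
        rw [ht, Int.natAbs_neg, Int.natAbs_natCast]
        have := j.2
        omega
      have h5 := Int.natAbs_add_le (sg s : ℤ) (t ^ b)
      rw [Int.natAbs_natCast] at h5
      have h6 := Wb2 m q b
      omega
  have h3 : v ((((sg s : ℤ) + t ^ b : ℤ) : ℂ) * a ^ b) < 1 := by
    have e : (((sg s : ℤ) + t ^ b : ℤ) : ℂ) * a ^ b =
        ((sg s : ℂ) * a ^ b + β ^ b) - (β ^ b - ((t : ℂ) * a) ^ b) := by
      push_cast
      ring
    rw [e]
    exact (Valuation.map_sub _ _ _).trans_lt (max_lt h' h1)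
  rw [map_mul, h2, one_mul, map_pow, ha, one_pow] at h3
  exact lt_irrefl _ h3

end place

end Pool.Agent.Y645.MX
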