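import Pool.Agent.Y645.MX.Br

/-!
Random isobaric polynomials at one place: the number of the components which do not have the
prescribed reduction (helper file for Zilber-Pink for random pull-backs to fibre powers of the
universal elliptic curve).
-/

set_option autoImplicit false
set_option linter.unusedSectionVars false

open MvPolynomial

namespace Pool.Agent.Y645.MX

open Pool.Agent.W282.ZP Pool.Agent.TH971.SP

variable {m q S R b s : ℕ} {Y : Type} [Fintype Y] [DecidableEq Y] {D : Y → ℕ}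

/-- the coefficients of the target polynomials -/
noncomputable def tg (S R b s : ℕ) (D : Y → ℕ) (p e0 : ℕ) (f : Fin q → ℕ) (ω : Y → ℕ)
    (j : Fin m) : Ex q S R D → ℤ := fun x =>
  (PT R b s D p e0 f ω (fun l => ((sg {idx j l} : ℕ) : ℤ)) ((2 * (j : ℕ) + 3 : ℕ) : ℤ)
    (((j : ℕ) + 1 : ℕ) : ℤ)).coeff (ex x)

/-- the exponent of the modulus -/
def KK (S R : ℕ) (D : Y → ℕ) (e0 : ℕ) (f : Fin q → ℕ) (ω : Y → ℕ) : ℕ :=
  e0 * (5 * S) + R * ∑ l, f l + ∑ y, D y * ω y

/-- the congruences -/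
def LC (S R b s : ℕ) (D : Y → ℕ) (p e0 : ℕ) (f : Fin q → ℕ) (ω : Y → ℕ) (α : Fin m → ℤ)
    (c : Fin m × Fin 2 × Ex q S R D → ℤ) : Prop :=
  ∀ (j : Fin m) (x : Ex q S R D),
    (p : ℤ) ^ (KK S R D e0 f ω + 1) ∣ c (j, 0, x) - α j * tg S R b s D p e0 f ω j x ∧
    (p : ℤ) ^ (KK S R D e0 f ω + 1) ∣ c (j, 1, x) - tg S R b s D p e0 f ω j x

section place

variable (V : ValuationSubring ℂ) {p : ℕ}

theorem mul_pow_le {x : V.ValueGroup} {π : V.ValueGroup} (hπ : π ≤ 1) {D f : ℕ} (hD : 0 < D)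
    (h : x ^ D * π ^ f ≤ 1) : x * π ^ f ≤ 1 := by
  by_contra hcon
  push Not at hcon
  have h1 : 1 < (x * π ^ f) ^ D := one_lt_pow₀ hcon hD.ne'
  have h2 : (x * π ^ f) ^ D ≤ 1 := by
    obtain ⟨k, rfl⟩ := Nat.exists_eq_add_of_lt hD
    rw [mul_pow]
    calc x ^ (0 + k + 1) * (π ^ f) ^ (0 + k + 1)
        = (x ^ (0 + k + 1) * π ^ f) * (π ^ f) ^ (0 + k) := by rw [pow_succ (π ^ f)]; ac_rfl
      _ ≤ 1 * 1 := mul_le_mul' h (pow_le_one₀ zero_le (pow_le_one₀ zero_le hπ))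
      _ = 1 := one_mul _
  exact absurd h1 (not_lt.2 h2)

/-- the values of the monomials are bounded -/
theorem mo_le (hp1 : V.valuation (p : ℂ) ≤ 1) {e0 : ℕ} {f : Fin q → ℕ} {ω : Y → ℕ} (A B : ℂ)
    (hA : V.valuation A * V.valuation (p : ℂ) ^ e0 ≤ 1)
    (hB : V.valuation B * V.valuation (p : ℂ) ^ e0 ≤ 1) (g : Fin q → ℂ × ℂ)
    (hg1 : ∀ l, V.valuation (g l).1 * V.valuation (p : ℂ) ^ f l ≤ 1)
    (hg2 : ∀ l, V.valuation (g l).2 ≤ 1) (h : Y → ℂ × ℂ)
    (hh1 : ∀ y, V.valuation (h y).1 * V.valuation (p : ℂ) ^ ω y ≤ 1)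
    (hh2 : ∀ y, V.valuation (h y).2 ≤ 1) (x : Ex q S R D) :
    V.valuation (mo x A B g h) * V.valuation (p : ℂ) ^ KK S R D e0 f ω ≤ 1 := by
  set v := V.valuation with hv
  set π := v (p : ℂ) with hπ
  have hE : e0 * (x.1.1 : ℕ) + e0 * (x.1.2.1 : ℕ) + (∑ l, f l * (x.1.2.2.1 l : ℕ) +
      ∑ y, ω y * (x.1.2.2.2 y : ℕ)) ≤ KK S R D e0 f ω := by
    unfold KK
    have h1 := x.1.1.2
    have h2 := x.1.2.1.2
    have h3 : ∑ l, f l * (x.1.2.2.1 l : ℕ) ≤ R * ∑ l, f l := by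
      rw [Finset.mul_sum]
      refine Finset.sum_le_sum fun l _ => ?_
      rw [mul_comm]
      exact Nat.mul_le_mul_right _ (Nat.lt_succ_iff.1 (x.1.2.2.1 l).2)
    have h4 : ∑ y, ω y * (x.1.2.2.2 y : ℕ) ≤ ∑ y, D y * ω y := by
      refine Finset.sum_le_sum fun y _ => ?_
      rw [mul_comm]
      exact Nat.mul_le_mul_right _ (Nat.lt_succ_iff.1 (x.1.2.2.2 y).2)
    have h5 : e0 * (x.1.1 : ℕ) + e0 * (x.1.2.1 : ℕ) ≤ e0 * (5 * S) := by
      rw [← mul_add]
      refine Nat.mul_le_mul_left _ ?_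
      omega
    omega
  have h0 : π ^ KK S R D e0 f ω ≤ (π ^ e0) ^ (x.1.1 : ℕ) * (π ^ e0) ^ (x.1.2.1 : ℕ) *
      ((∏ l, (π ^ f l) ^ (x.1.2.2.1 l : ℕ)) * ∏ y, (π ^ ω y) ^ (x.1.2.2.2 y : ℕ)) := by
    simp only [← pow_mul]
    rw [Finset.prod_pow_eq_pow_sum, Finset.prod_pow_eq_pow_sum, ← pow_add, ← pow_add, ← pow_add]
    exact pow_le_pow_right_of_le_one' hp1 hE
  refine (mul_le_mul_right h0 _).trans ?_
  rw [mo, map_mul, map_mul, map_mul, map_pow, map_pow, map_prod, map_prod]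
  have key : v A ^ (x.1.1 : ℕ) * v B ^ (x.1.2.1 : ℕ) *
      ((∏ l, v ((g l).1 ^ (x.1.2.2.1 l : ℕ) * (g l).2 ^ (R - (x.1.2.2.1 l : ℕ)))) *
        ∏ y, v ((h y).1 ^ (x.1.2.2.2 y : ℕ) * (h y).2 ^ (D y - (x.1.2.2.2 y : ℕ)))) *
      ((π ^ e0) ^ (x.1.1 : ℕ) * (π ^ e0) ^ (x.1.2.1 : ℕ) *
        ((∏ l, (π ^ f l) ^ (x.1.2.2.1 l : ℕ)) * ∏ y, (π ^ ω y) ^ (x.1.2.2.2 y : ℕ))) =
      ((v A * π ^ e0) ^ (x.1.1 : ℕ) * (v B * π ^ e0) ^ (x.1.2.1 : ℕ)) *
      ((∏ l, ((v (g l).1 * π ^ f l) ^ (x.1.2.2.1 l : ℕ) *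
        v (g l).2 ^ (R - (x.1.2.2.1 l : ℕ)))) *
      ∏ y, ((v (h y).1 * π ^ ω y) ^ (x.1.2.2.2 y : ℕ) *
        v (h y).2 ^ (D y - (x.1.2.2.2 y : ℕ)))) := by
    simp only [map_mul, map_pow, mul_pow, Finset.prod_mul_distrib]
    generalize (∏ y, (π ^ ω y) ^ (x.1.2.2.2 y : ℕ)) = P1
    generalize (∏ l, (π ^ f l) ^ (x.1.2.2.1 l : ℕ)) = P2
    generalize (∏ y, v (h y).1 ^ (x.1.2.2.2 y : ℕ)) = P3
    generalize (∏ y, v (h y).2 ^ (D y - (x.1.2.2.2 y : ℕ))) = P4
    generalize (∏ l, v (g l).1 ^ (x.1.2.2.1 l : ℕ)) = P5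
    generalize (∏ l, v (g l).2 ^ (R - (x.1.2.2.1 l : ℕ))) = P6
    ac_rfl
  rw [key]
  refine mul_le_one' (mul_le_one' (pow_le_one' hA _) (pow_le_one' hB _)) (mul_le_one' ?_ ?_)
  · exact Finset.prod_le_one' fun l _ =>
      mul_le_one' (pow_le_one' (hg1 l) _) (pow_le_one' (hg2 l) _)
  · exact Finset.prod_le_one' fun y _ =>
      mul_le_one' (pow_le_one' (hh1 y) _) (pow_le_one' (hh2 y) _)

theorem add_unit {x y : ℂ} (h : max (V.valuation x) (V.valuation y) = 1)
    (hne : ¬ (V.valuation x = 1 ∧ V.valuation y = 1)) : V.valuation (x + y) = 1 := by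
  rcases lt_trichotomy (V.valuation x) (V.valuation y) with h1 | h1 | h1
  · rw [max_eq_right h1.le] at h
    rw [Valuation.map_add_eq_of_lt_right _ h1, h]
  · rw [h1, max_self] at h
    exact absurd ⟨h1.trans h, h⟩ hne
  · rw [max_eq_left h1.le] at h
    rw [Valuation.map_add_eq_of_lt_left _ h1, h]

variable (hp : p.Prime) (hpW : Wb m q b < p) (hp1 : V.valuation (p : ℂ) < 1)

open Classical in
include hp hpW hp1 in
/-- One place: the number of the components whose target is not a unit. -/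
theorem card_lost (hb0 : 0 < b) (hR : R = 6 * b) (hD : ∀ y, 0 < D y) {a β : ℂ}
    (hab : max (V.valuation a) (V.valuation β) = 1) (f : Fin q → ℕ) (ω : Y → ℕ)
    (g : Fin q → ℂ × ℂ)
    (hg : ∀ l, max (V.valuation (g l).1 ^ R * V.valuation (p : ℂ) ^ f l)
      (V.valuation (g l).2 ^ R) = 1) (h : Y → ℂ × ℂ)
    (hh : ∀ y, max (V.valuation (h y).1 ^ D y * V.valuation (p : ℂ) ^ ω y)
      (V.valuation (h y).2 ^ D y) = 1)
    (Tq : Finset (Fin q)) (hTq : ∀ l, l ∉ Tq → ¬ (V.valuation (g l).2 = 1 ∧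
      V.valuation (g l).1 ^ R * V.valuation (p : ℂ) ^ f l = 1))
    (Ty : Finset Y) (hTy : ∀ y, y ∉ Ty → ¬ (V.valuation (h y).2 = 1 ∧
      V.valuation (h y).1 ^ D y * V.valuation (p : ℂ) ^ ω y = 1))
    (L : Finset (Fin m))
    (hL : ∀ j ∈ L, V.valuation (((((2 * (j : ℕ) + 3 : ℕ) : ℤ) : ℂ) * a + β) ^ s *
      ((∏ l, (((sg {idx j l} : ℤ) : ℂ) * (((sg {idx j l} : ℤ) : ℂ) * a ^ b + β ^ b) *
        (g l).2 ^ R + (p : ℂ) ^ f l * (g l).1 ^ R)) *
      ∏ y, ((h y).2 ^ D y + ((((j : ℕ) + 1 : ℕ) : ℤ) : ℂ) *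
        ((p : ℂ) ^ ω y * (h y).1 ^ D y)))) ≠ 1) :
    L.card ≤ (if V.valuation a = 1 ∧ V.valuation β = 1 then 1 else 0) + Tq.card + Ty.card := by
  set v := V.valuation with hv
  set κ : ℕ := if v a = 1 ∧ v β = 1 then 1 else 0 with hκ
  have hRpos : 0 < R := by omega
  let fc : Fin m → Fin q → ℂ := fun j l =>
    ((sg {idx j l} : ℤ) : ℂ) * (((sg {idx j l} : ℤ) : ℂ) * a ^ b + β ^ b) *
        (g l).2 ^ R + (p : ℂ) ^ f l * (g l).1 ^ R
  let fy : Fin m → Y → ℂ := fun j y => (h y).2 ^ D y + ((((j : ℕ) + 1 : ℕ) : ℤ) : ℂ) *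
        ((p : ℂ) ^ ω y * (h y).1 ^ D y)
  -- units
  have hsu : ∀ (j : Fin m) (l : Fin q), v ((sg {idx j l} : ℤ) : ℂ) = 1 := by
    intro j l
    refine un (m := m) (q := q) (b := b) V hp hpW hp1 (by exact_mod_cast (sg_pos (Ok_idx j l)).ne') ?_
    rw [Int.natAbs_natCast]
    exact (sg_lt (Ok_idx j l)).le.trans (Wb1 m q b)
  have hju : ∀ j : Fin m, v ((((j : ℕ) + 1 : ℕ) : ℤ) : ℂ) = 1 := by
    intro j
    refine un (m := m) (q := q) (b := b) V hp hpW hp1 (by positivity) ?_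
    rw [Int.natAbs_natCast]
    have := j.2
    have := Wb3 m q b
    omega
  have hjju : ∀ j j' : Fin m, j ≠ j' →
      v ((((((j : ℕ) + 1 : ℕ) : ℤ) - (((j' : ℕ) + 1 : ℕ) : ℤ) : ℤ)) : ℂ) = 1 := by
    intro j j' hne
    refine un (m := m) (q := q) (b := b) V hp hpW hp1 ?_ ?_
    · intro h
      exact hne (Fin.ext (by omega))
    · have := j.2
      have := j'.2
      have := Wb3 m q b
      omega
  have hssu : ∀ (j j' : Fin m) (l : Fin q), j ≠ j' →
      v ((((sg {idx j l} : ℤ) - (sg {idx j' l} : ℤ) : ℤ)) : ℂ) = 1 := by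
    intro j j' l hne
    refine un (m := m) (q := q) (b := b) V hp hpW hp1 ?_ ?_
    · intro h
      have h1 : sg {idx j l} = sg {idx j' l} := by omega
      have h2 := sg_inj h1
      rw [Finset.singleton_inj] at h2
      exact hne (idx_inj h2).1
    · have h1 := (sg_lt (Ok_idx j l)).le.trans (Wb1 m q b)
      have h2 := (sg_lt (Ok_idx j' l)).le.trans (Wb1 m q b)
      omega
  have ha : v a ≤ 1 := hab ▸ le_max_left _ _
  have hβ : v β ≤ 1 := hab ▸ le_max_right _ _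
  have hX1 : ∀ l, v ((p : ℂ) ^ f l * (g l).1 ^ R) = v (g l).1 ^ R * v (p : ℂ) ^ f l := by
    intro l
    rw [map_mul, map_pow, map_pow, mul_comm]
  have hX2 : ∀ y, v ((p : ℂ) ^ ω y * (h y).1 ^ D y) = v (h y).1 ^ D y * v (p : ℂ) ^ ω y := by
    intro y
    rw [map_mul, map_pow, map_pow, mul_comm]
  have hZ1 : ∀ l, v ((g l).2 ^ R) = v (g l).2 ^ R := fun l => map_pow _ _ _
  have hZ2 : ∀ y, v ((h y).2 ^ D y) = v (h y).2 ^ D y := fun y => map_pow _ _ _
  have hone : ∀ {x : V.ValueGroup} {n : ℕ}, 0 < n → x ^ n = 1 → x = 1 := by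
    intro x n hn hx
    exact (pow_left_inj₀ zero_le zero_le hn.ne').1 (by rw [hx, one_pow])
  -- the value of the first factor
  have hU : ∀ (j : Fin m) (l : Fin q), ¬ Evt V b a β {idx j l} →
      v (((sg {idx j l} : ℤ) : ℂ) * (((sg {idx j l} : ℤ) : ℂ) * a ^ b + β ^ b)) = 1 := by
    intro j l hne
    rw [map_mul, hsu, one_mul]
    refine le_antisymm ?_ ?_
    · refine (Valuation.map_add _ _ _).trans (max_le ?_ ?_)
      · rw [map_mul, map_pow, hsu, one_mul]
        exact pow_le_one₀ zero_le ha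
      · rw [map_pow]
        exact pow_le_one₀ zero_le hβ
    · by_contra hcon
      push Not at hcon
      refine hne ?_
      unfold Evt
      rw [← hv]
      simpa using hcon
  -- the factors
  have hfc1 : ∀ (j : Fin m) (l : Fin q), ¬ Evt V b a β {idx j l} → v (fc j l) ≠ 1 →
      v (g l).2 = 1 ∧ v (g l).1 ^ R * v (p : ℂ) ^ f l = 1 ∧ v (fc j l) < 1 := by
    intro j l hne hsm
    have e1 : v (((sg {idx j l} : ℤ) : ℂ) * (((sg {idx j l} : ℤ) : ℂ) * a ^ b + β ^ b) *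
        (g l).2 ^ R) = v (g l).2 ^ R := by
      rw [map_mul, hU j l hne, one_mul, map_pow]
    have h1 : v (((sg {idx j l} : ℤ) : ℂ) * (((sg {idx j l} : ℤ) : ℂ) * a ^ b + β ^ b) *
        (g l).2 ^ R) = 1 ∧ v ((p : ℂ) ^ f l * (g l).1 ^ R) = 1 := by
      by_contra hcon
      apply hsm
      refine add_unit V ?_ hcon
      rw [← hv, e1, hX1, max_comm]
      exact hg l
    rw [e1, hX1] at h1
    refine ⟨hone hRpos h1.1, h1.2, lt_of_le_of_ne ?_ hsm⟩
    refine (Valuation.map_add _ _ _).trans (max_le ?_ ?_)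
    · rw [e1]
      exact h1.1.le
    · rw [hX1]
      exact h1.2.le
  have hfy1 : ∀ (j : Fin m) (y : Y), v (fy j y) ≠ 1 →
      v (h y).2 = 1 ∧ v (h y).1 ^ D y * v (p : ℂ) ^ ω y = 1 ∧ v (fy j y) < 1 := by
    intro j y hsm
    have e1 : v (((((j : ℕ) + 1 : ℕ) : ℤ) : ℂ) * ((p : ℂ) ^ ω y * (h y).1 ^ D y)) =
        v (h y).1 ^ D y * v (p : ℂ) ^ ω y := by
      rw [map_mul, hju, one_mul, hX2]
    have h1 : v ((h y).2 ^ D y) = 1 ∧
        v (((((j : ℕ) + 1 : ℕ) : ℤ) : ℂ) * ((p : ℂ) ^ ω y * (h y).1 ^ D y)) = 1 := by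
      by_contra hcon
      apply hsm
      refine add_unit V ?_ hcon
      rw [← hv, e1, hZ2, max_comm]
      exact hh y
    rw [e1, hZ2] at h1
    refine ⟨hone (hD y) h1.1, h1.2, lt_of_le_of_ne ?_ hsm⟩
    refine (Valuation.map_add _ _ _).trans (max_le ?_ ?_)
    · rw [hZ2]
      exact h1.1.le
    · rw [e1]
      exact h1.2.le
  -- the sets
  let R1 : Finset (Fin m) := Finset.univ.filter fun j => Ext V a β j
  let R2 : Finset (Fin m) := Finset.univ.filter fun j => ∃ l : Fin q, Evt V b a β {idx j l}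
  let G : Fin q → Finset (Fin m) := fun l => Finset.univ.filter fun j =>
    ¬ Evt V b a β {idx j l} ∧ v (fc j l) ≠ 1
  let H : Y → Finset (Fin m) := fun y => Finset.univ.filter fun j => v (fy j y) ≠ 1
  have hLsub : L ⊆ (R1 ∪ R2) ∪ (Tq.biUnion G ∪ Ty.biUnion H) := by
    intro j hj
    by_contra hcon
    rw [Finset.mem_union, Finset.mem_union, Finset.mem_union, not_or, not_or, not_or] at hcon
    obtain ⟨⟨h1, h2⟩, h3, h4⟩ := hcon
    apply hL j hj
    have e1 : v (((((2 * (j : ℕ) + 3 : ℕ) : ℤ) : ℂ) * a + β)) = 1 := by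
      refine le_antisymm ?_ ?_
      · refine (Valuation.map_add _ _ _).trans (max_le ?_ hβ)
        rw [map_mul]
        exact mul_le_one₀ (int_le V _) zero_le ha
      · by_contra hcon
        push Not at hcon
        refine h1 (Finset.mem_filter.2 ⟨Finset.mem_univ _, ?_⟩)
        unfold Ext
        rw [← hv]
        simpa using hcon
    have e2 : ∀ l, v (fc j l) = 1 := by
      intro l
      by_contra hcon
      have h5 : ¬ Evt V b a β {idx j l} := fun h6 =>
        h2 (Finset.mem_filter.2 ⟨Finset.mem_univ _, l, h6⟩)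
      obtain ⟨h6, h7, -⟩ := hfc1 j l h5 hcon
      have h8 : l ∈ Tq := by
        by_contra h9
        exact hTq l h9 ⟨h6, h7⟩
      exact h3 (Finset.mem_biUnion.2 ⟨l, h8, Finset.mem_filter.2 ⟨Finset.mem_univ _, h5, hcon⟩⟩)
    have e3 : ∀ y, v (fy j y) = 1 := by
      intro y
      by_contra hcon
      obtain ⟨h6, h7, -⟩ := hfy1 j y hcon
      have h8 : y ∈ Ty := by
        by_contra h9
        exact hTy y h9 ⟨h6, h7⟩
      exact h4 (Finset.mem_biUnion.2 ⟨y, h8, Finset.mem_filter.2 ⟨Finset.mem_univ _, hcon⟩⟩)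
    rw [map_mul, map_mul, map_pow, map_prod, map_prod, e1, one_pow, one_mul,
      Finset.prod_eq_one fun l _ => e2 l, Finset.prod_eq_one fun y _ => e3 y, one_mul]
  have hHc : ∀ y, (H y).card ≤ 1 := by
    intro y
    rw [Finset.card_le_one]
    intro j hj j' hj'
    by_contra hne
    obtain ⟨h1, h2, h3⟩ := hfy1 j y (Finset.mem_filter.1 hj).2
    obtain ⟨-, -, h3'⟩ := hfy1 j' y (Finset.mem_filter.1 hj').2
    have h4 : v (((((((j : ℕ) + 1 : ℕ) : ℤ) - (((j' : ℕ) + 1 : ℕ) : ℤ) : ℤ)) : ℂ) *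
        ((p : ℂ) ^ ω y * (h y).1 ^ D y)) < 1 := by
      have e : (((((((j : ℕ) + 1 : ℕ) : ℤ) - (((j' : ℕ) + 1 : ℕ) : ℤ) : ℤ)) : ℂ) *
        ((p : ℂ) ^ ω y * (h y).1 ^ D y)) = fy j y - fy j' y := by
        simp only [fy]
        push_cast
        ring
      rw [e]
      exact (Valuation.map_sub _ _ _).trans_lt (max_lt h3 h3')
    rw [map_mul, hjju j j' hne, one_mul, hX2, h2] at h4
    exact lt_irrefl _ h4
  -- two elements of `G l`
  have hGG : ∀ (l : Fin q) (j j' : Fin m), j ∈ G l → j' ∈ G l → j ≠ j' →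
      Evt V b a β {idx j l, idx j' l} := by
    intro l j j' hj hj' hne
    obtain ⟨h1, h2, h3⟩ := hfc1 j l (Finset.mem_filter.1 hj).2.1 (Finset.mem_filter.1 hj).2.2
    obtain ⟨-, -, h3'⟩ := hfc1 j' l (Finset.mem_filter.1 hj').2.1 (Finset.mem_filter.1 hj').2.2
    have hne' : idx j l ≠ idx j' l := fun h => hne (idx_inj h).1
    have hsg : sg {idx j l, idx j' l} = sg {idx j l} + sg {idx j' l} := by
      unfold sg
      rw [Finset.sum_pair hne', Finset.sum_singleton, Finset.sum_singleton]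
    unfold Evt
    rw [← hv, hsg]
    have h4 : v ((((((sg {idx j l} : ℤ) - (sg {idx j' l} : ℤ) : ℤ)) : ℂ) *
        (((sg {idx j l} + sg {idx j' l} : ℕ) : ℂ) * a ^ b + β ^ b)) * (g l).2 ^ R) < 1 := by
      have e : ((((((sg {idx j l} : ℤ) - (sg {idx j' l} : ℤ) : ℤ)) : ℂ) *
        (((sg {idx j l} + sg {idx j' l} : ℕ) : ℂ) * a ^ b + β ^ b)) * (g l).2 ^ R) =
          fc j l - fc j' l := by
        simp only [fc]
        push_cast
        ring
      rw [e]
      exact (Valuation.map_sub _ _ _).trans_lt (max_lt h3 h3')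
    rwa [map_mul, map_mul, hssu j j' l hne, one_mul, map_pow, h1, one_pow, mul_one] at h4
  have hκ1 : ∀ {s : Finset ℕ}, Ok m q s → Evt V b a β s → κ = 1 := by
    intro s hs h
    rw [hκ, if_pos (evt_typ V hp hpW hp1 hab hb0 hs h)]
  have hmain : (R1 ∪ R2).card + ∑ l ∈ Tq, (G l).card ≤ κ + Tq.card := by
    by_cases hc : ∃ l ∈ Tq, 1 < (G l).card
    · obtain ⟨l0, hl0, hc⟩ := hc
      obtain ⟨j1, hj1, j2, hj2, hne⟩ := Finset.one_lt_card.1 hc
      have hev := hGG l0 j1 j2 hj1 hj2 hne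
      have hok := Ok_pair j1 j2 l0
      have hk := hκ1 hok hev
      have hne' : idx j1 l0 ≠ idx j2 l0 := fun h => hne (idx_inj h).1
      have hR12 : R1 ∪ R2 = ∅ := by
        rw [Finset.eq_empty_iff_forall_notMem]
        intro j hj
        rcases Finset.mem_union.1 hj with hj | hj
        · exact ext_evt V hp hpW hp1 hab hok (Finset.mem_filter.1 hj).2 hev
        · obtain ⟨l, hl⟩ := (Finset.mem_filter.1 hj).2
          have h1 := evt_evt V hp hpW hp1 hab hb0 (Ok_idx j l) hok hl hev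
          have h2 := congrArg Finset.card h1
          rw [Finset.card_singleton, Finset.card_pair hne'] at h2
          omega
      have hother : ∀ l ∈ Tq, l ≠ l0 → (G l).card ≤ 1 := by
        intro l _ hll
        rw [Finset.card_le_one]
        intro j hj j' hj'
        by_contra hjj
        have h1 := evt_evt V hp hpW hp1 hab hb0 (Ok_pair j j' l) hok (hGG l j j' hj hj' hjj) hev
        have h2 : idx j l ∈ ({idx j1 l0, idx j2 l0} : Finset ℕ) := by
          rw [← h1]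
          exact Finset.mem_insert_self _ _
        rw [Finset.mem_insert, Finset.mem_singleton] at h2
        rcases h2 with h2 | h2
        · exact hll (idx_inj h2).2
        · exact hll (idx_inj h2).2
      have hG0 : (G l0).card ≤ 2 := by
        have h1 : G l0 ⊆ {j1, j2} := by
          intro j hj
          by_contra hcon
          rw [Finset.mem_insert, Finset.mem_singleton, not_or] at hcon
          have h1 := evt_evt V hp hpW hp1 hab hb0 (Ok_pair j j1 l0) hok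
            (hGG l0 j j1 hj hj1 hcon.1) hev
          have h2 : idx j l0 ∈ ({idx j1 l0, idx j2 l0} : Finset ℕ) := by
            rw [← h1]
            exact Finset.mem_insert_self _ _
          rw [Finset.mem_insert, Finset.mem_singleton] at h2
          rcases h2 with h2 | h2
          · exact hcon.1 (idx_inj h2).1
          · exact hcon.2 (idx_inj h2).1
        exact (Finset.card_le_card h1).trans Finset.card_le_two
      rw [hR12, Finset.card_empty, zero_add, ← Finset.add_sum_erase _ _ hl0, hk]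
      have h3 : ∑ l ∈ Tq.erase l0, (G l).card ≤ (Tq.erase l0).card := by
        rw [Finset.card_eq_sum_ones]
        refine Finset.sum_le_sum fun l hl => ?_
        exact hother l (Finset.mem_of_mem_erase hl) (Finset.ne_of_mem_erase hl)
      rw [Finset.card_erase_of_mem hl0] at h3
      have h4 : 0 < Tq.card := Finset.card_pos.2 ⟨l0, hl0⟩
      omega
    · push Not at hc
      have h3 : ∑ l ∈ Tq, (G l).card ≤ Tq.card := by
        rw [Finset.card_eq_sum_ones]
        exact Finset.sum_le_sum fun l hl => hc l hl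
      have h4 : (R1 ∪ R2).card ≤ κ := by
        rcases (R1 ∪ R2).eq_empty_or_nonempty with he | ⟨j0, hj0⟩
        · rw [he, Finset.card_empty]
          exact Nat.zero_le _
        · have hk : κ = 1 := by
            rcases Finset.mem_union.1 hj0 with h5 | h5
            · rw [hκ, if_pos (ext_typ V hp hpW hp1 hab (Finset.mem_filter.1 h5).2)]
            · obtain ⟨l, hl⟩ := (Finset.mem_filter.1 h5).2
              exact hκ1 (Ok_idx j0 l) hl
          rw [hk, Finset.card_le_one]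
          intro j hj j' hj'
          rcases Finset.mem_union.1 hj with h5 | h5
          · rcases Finset.mem_union.1 hj' with h6 | h6
            · exact ext_ext V hp hpW hp1 hab (Finset.mem_filter.1 h5).2 (Finset.mem_filter.1 h6).2
            · obtain ⟨l, hl⟩ := (Finset.mem_filter.1 h6).2
              exact (ext_evt V hp hpW hp1 hab (Ok_idx j' l) (Finset.mem_filter.1 h5).2 hl).elim
          · obtain ⟨l, hl⟩ := (Finset.mem_filter.1 h5).2
            rcases Finset.mem_union.1 hj' with h6 | h6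
            · exact (ext_evt V hp hpW hp1 hab (Ok_idx j l) (Finset.mem_filter.1 h6).2 hl).elim
            · obtain ⟨l', hl'⟩ := (Finset.mem_filter.1 h6).2
              have h7 := evt_evt V hp hpW hp1 hab hb0 (Ok_idx j l) (Ok_idx j' l') hl hl'
              rw [Finset.singleton_inj] at h7
              exact (idx_inj h7).1
      omega
  have h5 := Finset.card_le_card hLsub
  have h6 := Finset.card_union_le (R1 ∪ R2) (Tq.biUnion G ∪ Ty.biUnion H)
  have h7 := Finset.card_union_le (Tq.biUnion G) (Ty.biUnion H)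
  have h8 : (Tq.biUnion G).card ≤ ∑ l ∈ Tq, (G l).card := Finset.card_biUnion_le
  have h9 : (Ty.biUnion H).card ≤ Ty.card := by
    refine Finset.card_biUnion_le.trans ?_
    rw [Finset.card_eq_sum_ones]
    exact Finset.sum_le_sum fun y _ => hHc y
  omega

end place

end Pool.Agent.Y645.MX
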