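import Pool.Agent.Y645.MX.Br2

/-!
Random isobaric polynomials at one place: the estimate for the normalized coordinates (helper file
for Zilber-Pink for random pull-backs to fibre powers of the universal elliptic curve).
-/

set_option autoImplicit false
set_option linter.unusedSectionVars false

open MvPolynomial

namespace Pool.Agent.Y645.MX

open Pool.Agent.W282.ZP Pool.Agent.TH971.SP

variable {m q S R b s d : ℕ} {Y : Type} [Fintype Y] [DecidableEq Y] {D : Y → ℕ}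

open Classical in
/-- One place: the estimate. -/
theorem br (V : ValuationSubring ℂ) {p : ℕ} (hp : p.Prime) (hpW : Wb m q b < p)
    (hp1 : V.valuation (p : ℂ) < 1) (hb0 : 0 < b) (hR : R = 6 * b) (hS : S = s + q * b)
    (hD : ∀ y, 0 < D y) (e0 : ℕ) (f : Fin q → ℕ) (ω : Y → ℕ)
    (F : ∀ J : Finset (Fin m), MvPolynomial J ℂ) (α : Fin m → ℤ)
    (hF : ∀ J : Finset (Fin m), J.card = d + 1 → ∀ l, V.valuation ((F J).coeff l) ≤ 1)
    (hcor : ∀ J : Finset (Fin m), J.card = d + 1 → V.valuation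
      (eval (fun j : J => ((α j : ℤ) : ℂ)) (F J)) = 1)
    (c : Fin m × Fin 2 × Ex q S R D → ℤ) (hc : LC S R b s D p e0 f ω α c)
    (A B : ℂ) (hab : max (V.valuation (4 * A ^ 3 + 27 * B ^ 2))
      (V.valuation ((p : ℂ) ^ e0 * (6912 * A ^ 3))) = 1)
    (g : Fin q → ℂ × ℂ)
    (hg : ∀ l, max (V.valuation (g l).1 ^ R * V.valuation (p : ℂ) ^ f l)
      (V.valuation (g l).2 ^ R) = 1) (h : Y → ℂ × ℂ)
    (hh : ∀ y, max (V.valuation (h y).1 ^ D y * V.valuation (p : ℂ) ^ ω y)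
      (V.valuation (h y).2 ^ D y) = 1)
    (hz : ∀ J : Finset (Fin m), J.card = d + 1 →
      homV (fun j => ev (fun x => c (j, 0, x)) A B g h) (fun j => ev (fun x => c (j, 1, x)) A B g h)
        (rename (Subtype.val : J → Fin m) (F J)) = 0)
    (Tq : Finset (Fin q)) (hTq : ∀ l, l ∉ Tq → ¬ (V.valuation (g l).2 = 1 ∧
      V.valuation (g l).1 ^ R * V.valuation (p : ℂ) ^ f l = 1))
    (Ty : Finset Y) (hTy : ∀ y, y ∉ Ty → ¬ (V.valuation (h y).2 = 1 ∧
      V.valuation (h y).1 ^ D y * V.valuation (p : ℂ) ^ ω y = 1)) :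
    m ≤ d + ((if V.valuation (4 * A ^ 3 + 27 * B ^ 2) = 1 ∧
      V.valuation ((p : ℂ) ^ e0 * (6912 * A ^ 3)) = 1 then 1 else 0) + Tq.card + Ty.card) := by
  by_contra hcon
  push Not at hcon
  set v := V.valuation with hv
  have hRpos : 0 < R := by omega
  have hp0 := hp.ne_zero
  have hpv : v (p : ℂ) ≠ 0 := (map_ne_zero _).2 (by exact_mod_cast hp0)
  have hpos : 0 < v (p : ℂ) := zero_lt_iff.2 hpv
  set a : ℂ := 4 * A ^ 3 + 27 * B ^ 2 with ha
  set β : ℂ := (p : ℂ) ^ e0 * (6912 * A ^ 3) with hβ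
  let aP : Fin m → Fin q → ℤ := fun j l => ((sg {idx j l} : ℕ) : ℤ)
  let Pj : Fin m → ℂ := fun j => ev (tg S R b s D p e0 f ω j) A B g h
  have hPj : ∀ j, Pj j = (((((2 * (j : ℕ) + 3 : ℕ) : ℤ) : ℂ) * a + β) ^ s *
      ((∏ l, (((sg {idx j l} : ℤ) : ℂ) * (((sg {idx j l} : ℤ) : ℂ) * a ^ b + β ^ b) *
        (g l).2 ^ R + (p : ℂ) ^ f l * (g l).1 ^ R)) *
      ∏ y, ((h y).2 ^ D y + ((((j : ℕ) + 1 : ℕ) : ℤ) : ℂ) *
        ((p : ℂ) ^ ω y * (h y).1 ^ D y)))) := by
    intro j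
    have h1 := ev_coeff (adm_PT (S := S) (s := s) hR hS (D := D) (p := p) (e0 := e0) (f := f)
      (ω := ω) (a := fun l => ((sg {idx j l} : ℕ) : ℤ)) (a' := ((2 * (j : ℕ) + 3 : ℕ) : ℤ))
      (c := (((j : ℕ) + 1 : ℕ) : ℤ))) A B g h
    rw [aeval_PT] at h1
    exact h1
  let L : Finset (Fin m) := Finset.univ.filter fun j => v (Pj j) ≠ 1
  have hL := card_lost (s := s) V hp hpW hp1 hb0 hR hD hab f ω g hg h hh Tq hTq Ty hTy L (by
    intro j hj
    have h1 := (Finset.mem_filter.1 hj).2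
    rwa [hPj] at h1)
  rw [← hv] at hL
  have hlarge : d + 1 ≤ (Finset.univ.filter fun j => v (Pj j) = 1).card := by
    have := Finset.card_filter_add_card_filter_not (s := (Finset.univ : Finset (Fin m)))
      (fun j => v (Pj j) = 1)
    rw [Finset.card_univ, Fintype.card_fin] at this
    have h2 : (Finset.univ.filter fun j : Fin m => ¬ v (Pj j) = 1).card = L.card := rfl
    omega
  obtain ⟨J, hJ, hJc⟩ := Finset.exists_subset_card_eq hlarge
  have hJv : ∀ j ∈ J, v (Pj j) = 1 := fun j hj => (Finset.mem_filter.1 (hJ hj)).2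
  -- the bounds for the coordinates
  have huA : v (6912 : ℂ) = 1 := by
    have h1 := un (m := m) (q := q) (b := b) V hp hpW hp1 (z := 6912) (by norm_num) (by
      have := Wb3 m q b
      rw [show (6912 : ℤ).natAbs = 6912 from rfl]
      omega)
    exact_mod_cast h1
  have hu27 : v (27 : ℂ) = 1 := by
    have h1 := un (m := m) (q := q) (b := b) V hp hpW hp1 (z := 27) (by norm_num) (by
      have := Wb3 m q b
      rw [show (27 : ℤ).natAbs = 27 from rfl]
      omega)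
    exact_mod_cast h1
  have hu4 : v (4 : ℂ) = 1 := by
    have h1 := un (m := m) (q := q) (b := b) V hp hpW hp1 (z := 4) (by norm_num) (by
      have := Wb3 m q b
      rw [show (4 : ℤ).natAbs = 4 from rfl]
      omega)
    exact_mod_cast h1
  have hav : v a ≤ 1 := hab ▸ le_max_left _ _
  have hβv : v β ≤ 1 := hab ▸ le_max_right _ _
  have hA3 : v A ^ 3 * v (p : ℂ) ^ e0 ≤ 1 := by
    have h1 : v β = v A ^ 3 * v (p : ℂ) ^ e0 := by
      rw [hβ, map_mul, map_mul, map_pow, map_pow, huA, one_mul, mul_comm]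
    rwa [← h1]
  have hpe : v (p : ℂ) ^ e0 ≤ 1 := pow_le_one₀ zero_le hp1.le
  have hA1 : v A * v (p : ℂ) ^ e0 ≤ 1 := mul_pow_le V hp1.le (by norm_num : 0 < 3) hA3
  have hB2 : v B ^ 2 * v (p : ℂ) ^ e0 ≤ 1 := by
    have h1 : (27 : ℂ) * B ^ 2 = a - 4 * A ^ 3 := by
      rw [ha]
      ring
    have h2 : v B ^ 2 ≤ max 1 (v A ^ 3) := by
      have h3 : v ((27 : ℂ) * B ^ 2) = v B ^ 2 := by rw [map_mul, hu27, one_mul, map_pow]
      rw [← h3, h1]
      refine (Valuation.map_sub _ _ _).trans (max_le_max hav ?_)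
      rw [map_mul, hu4, one_mul, map_pow]
    rcases le_total (v A ^ 3) 1 with h3 | h3
    · rw [max_eq_left h3] at h2
      exact mul_le_one' h2 hpe
    · rw [max_eq_right h3] at h2
      exact (mul_le_mul_left h2 _).trans hA3
  have hB1 : v B * v (p : ℂ) ^ e0 ≤ 1 := mul_pow_le V hp1.le (by norm_num : 0 < 2) hB2
  have hg1 : ∀ l, v (g l).1 * v (p : ℂ) ^ f l ≤ 1 := fun l =>
    mul_pow_le V hp1.le hRpos ((hg l) ▸ le_max_left _ _)
  have hh1 : ∀ y, v (h y).1 * v (p : ℂ) ^ ω y ≤ 1 := fun y =>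
    mul_pow_le V hp1.le (hD y) ((hh y) ▸ le_max_left _ _)
  have hroot : ∀ {x : V.ValueGroup} {n : ℕ}, 0 < n → x ^ n ≤ 1 → x ≤ 1 := by
    intro x n hn hx
    by_contra h1
    push Not at h1
    exact absurd (one_lt_pow₀ h1 hn.ne') (not_lt.2 hx)
  have hg2 : ∀ l, v (g l).2 ≤ 1 := fun l => hroot hRpos ((hg l) ▸ le_max_right _ _)
  have hh2 : ∀ y, v (h y).2 ≤ 1 := fun y => hroot (hD y) ((hh y) ▸ le_max_right _ _)
  have hmo := fun x : Ex q S R D => mo_le (S := S) V hp1.le (e0 := e0) (f := f) (ω := ω) A B hA1 hB1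
    g hg1 hg2 h hh1 hh2 x
  have hdiff : ∀ (G : Ex q S R D → ℤ), (∀ x, (p : ℤ) ^ (KK S R D e0 f ω + 1) ∣ G x) →
      v (ev G A B g h) < 1 := by
    intro G hG
    refine Valuation.map_sum_lt _ one_ne_zero fun x _ => ?_
    obtain ⟨t, ht⟩ := hG x
    rw [ht]
    push_cast
    rw [map_mul, map_mul, map_pow, pow_succ]
    calc v (p : ℂ) ^ KK S R D e0 f ω * v (p : ℂ) * v (t : ℂ) * v (mo x A B g h)
        = (v (p : ℂ) * v (t : ℂ)) * (v (mo x A B g h) * v (p : ℂ) ^ KK S R D e0 f ω) := by ac_rfl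
      _ ≤ (v (p : ℂ) * 1) * 1 := mul_le_mul' (mul_le_mul' le_rfl (int_le V t)) (hmo x)
      _ < 1 := by
          rw [mul_one, mul_one]
          exact hp1
  set Nz : Fin m → ℂ := fun j => ev (fun x => c (j, 0, x)) A B g h with hNz
  set Mz : Fin m → ℂ := fun j => ev (fun x => c (j, 1, x)) A B g h with hMz
  have hred : ∀ j ∈ J, Mz j ≠ 0 ∧ v (Nz j / Mz j - (α j : ℂ)) < 1 := by
    intro j hj
    have hP0 : Pj j ≠ 0 := by
      intro h0
      have := hJv j hj
      rw [h0, map_zero] at this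
      exact zero_ne_one this
    have h1 : v (Nz j - (α j : ℂ) * Pj j) < 1 := by
      have := hdiff (fun e => c (j, 0, e) - α j * tg S R b s D p e0 f ω j e) (fun e => (hc j e).1)
      rwa [ev_sub] at this
    have h2 : v (Mz j - Pj j) < 1 := by
      have := hdiff (fun e => c (j, 1, e) - 1 * tg S R b s D p e0 f ω j e) (fun e => by
        rw [one_mul]; exact (hc j e).2)
      rwa [ev_sub, Int.cast_one, one_mul] at this
    have h3 : v (Nz j / Pj j - (α j : ℂ)) < 1 := by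
      have h4 : Nz j / Pj j - (α j : ℂ) = (Nz j - (α j : ℂ) * Pj j) / Pj j := by field_simp
      rw [h4, map_div₀, hJv j hj, div_one]
      exact h1
    have h4 : v (Mz j / Pj j - 1) < 1 := by
      have h5 : Mz j / Pj j - 1 = (Mz j - Pj j) / Pj j := by field_simp
      rw [h5, map_div₀, hJv j hj, div_one]
      exact h2
    obtain ⟨h5, h6⟩ := val_div_sub_lt V (Nz j / Pj j) (Mz j / Pj j) (α j : ℂ) (int_le V _) h3 h4
    rw [div_div_div_cancel_right₀ hP0] at h6
    refine ⟨?_, h6⟩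
    intro h7
    rw [h7, zero_div] at h5
    exact h5 rfl
  have hdeg : ∀ i, (rename (Subtype.val : J → Fin m) (F J)).degreeOf i ≠ 0 → i ∈ J := by
    intro i hi
    by_contra hiJ
    apply hi
    rw [← Nat.le_zero, degreeOf_le_iff]
    intro k hk
    obtain ⟨k', rfl, -⟩ := coeff_rename_ne_zero _ _ _ (mem_support_iff.1 hk)
    rw [Finsupp.mapDomain_of_notMem_range]
    rintro ⟨j, rfl⟩
    exact hiJ j.2
  have h1 := hz J hJc
  rw [homV_eq _ _ _ (fun i hi => (hred i (hdeg i hi)).1)] at h1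
  have h2 := (mul_eq_zero.1 h1).resolve_left (Finset.prod_ne_zero_iff.2 fun i _ => by
    by_cases hi : (rename (Subtype.val : J → Fin m) (F J)).degreeOf i = 0
    · rw [hi, pow_zero]
      exact one_ne_zero
    · exact pow_ne_zero _ (hred i (hdeg i hi)).1)
  rw [eval_rename] at h2
  have h3 := val_aeval_sub_lt V (F J) (fun l => hF J hJc l) (fun j : J => Nz j / Mz j)
    (fun j : J => ((α j : ℤ) : ℂ)) (fun j => (hred j j.2).2) (fun j => int_le V _)
  have h2' : aeval (fun j : J => Nz j / Mz j) (F J) = 0 := by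
    rw [aeval_eq_eval]
    exact h2
  rw [h2', zero_sub, Valuation.map_neg, aeval_eq_eval, hcor J hJc] at h3
  exact lt_irrefl _ h3

end Pool.Agent.Y645.MX
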