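import Pool.Agent.Y645.MX.Plc
import Pool.Agent.W282.ZP.Choice2
import Pool.Agent.Y645.PK.Cls

/-!
The residue class (helper file for Zilber-Pink for random pull-backs to
`ℰ^q × Y(1)^n × G_m^k`).
-/

set_option autoImplicit false
set_option linter.unusedSectionVars false

open MvPolynomial

namespace Pool.Agent.Y645.MX

open Pool.Agent.W282.ZP Pool.Agent.TH971.SP Pool.Agent.W466.EP Pool.Agent.TH971.RF H294ZP

theorem inj_perm {α β γ : Type*} : Function.Injective
    (Sum.elim (fun i => Sum.inl (Sum.inr i)) (Sum.elim (fun i => Sum.inl (Sum.inl i)) Sum.inr) :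
      β ⊕ (α ⊕ γ) → (α ⊕ β) ⊕ γ) := by
  rintro (i | (i | i)) (j | (j | j)) h <;> simp_all

/-- reordering of an independent family -/
theorem ind_perm {α β γ : Type*} {f : α → ℂ} {g : β → ℂ} {h : γ → ℂ}
    (H : AlgebraicIndependent ℚ (Sum.elim (Sum.elim f g) h)) :
    AlgebraicIndependent ℚ (Sum.elim g (Sum.elim f h)) := by
  have h1 := H.comp _ (inj_perm (α := α) (β := β) (γ := γ))
  convert h1 using 1
  funext i
  rcases i with i | (i | i) <;> rfl

open scoped IntermediateField.algebraAdjoinAdjoin in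
/-- Algebraic elements over the field generated by `τ` and `y`. -/
theorem alg_down {κ ι : Type} (τ : κ → ℂ) (hτ : AlgebraicIndependent ℚ τ) (y : ι → ℂ)
    (hy : AlgebraicIndependent (IntermediateField.adjoin ℚ (Set.range τ)) y) {x : ℂ}
    (hx : IsAlgebraic (Algebra.adjoin (IntermediateField.adjoin ℚ (Set.range τ))
      (Set.range y)) x) :
    IsAlgebraic (Algebra.adjoin ℤ (Set.range (Sum.elim y τ))) x := by
  by_contra hcon
  have h1 : AlgebraicIndependent ℚ (Sum.elim y τ) := by
    refine hτ.sumElim_of_tower (S := IntermediateField.adjoin ℚ (Set.range τ)) ?_ hy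
    rintro _ ⟨i, rfl⟩
    exact ⟨⟨τ i, IntermediateField.subset_adjoin _ _ ⟨i, rfl⟩⟩, rfl⟩
  have h2 : AlgebraicIndependent ℤ (Sum.elim y τ) :=
    h1.restrictScalars (Int.cast_injective (α := ℚ))
  have h3 := (h2.option_iff_transcendental x).2 hcon
  have hZQ : Algebra.IsAlgebraic ℤ ℚ := IsLocalization.isAlgebraic ℚ (nonZeroDivisors ℤ)
  have h4 : AlgebraicIndependent ℚ (fun o : Option (ι ⊕ κ) => o.elim x (Sum.elim y τ)) :=
    h3.extendScalars ℚ
  have h5 : AlgebraicIndependent ℚ (Sum.elim (fun o : Option ι => o.elim x y) τ) := by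
    have h6 := h4.comp (Sum.elim (fun o : Option ι => o.map Sum.inl) (fun i => some (Sum.inr i)))
      (by
        rintro ((_ | i) | i) ((_ | j) | j) h <;> simp_all)
    convert h6 using 1
    funext i
    rcases i with (_ | i) | i <;> rfl
  have h6 := (AlgebraicIndependent.sumElim_iff.1 h5).2
  have h7 : AlgebraicIndependent (IntermediateField.adjoin ℚ (Set.range τ))
      (fun o : Option ι => o.elim x y) := h6.extendScalars _
  exact (AlgebraicIndependent.option_iff.1 h7).2 hx

theorem Good.unit {κ : Type*} {τ : κ → ℂ} {p : ℕ} (hp : p.Prime) {V : ValuationSubring ℂ}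
    (h : Good τ p V) (i : κ) : V.valuation (τ i) = 1 := by
  classical
  have h2 := h.gauss (X i) (by
    rw [C_dvd_iff_dvd_coeff]
    intro h3
    have h4 := h3 (Finsupp.single i 1)
    rw [coeff_X, if_pos rfl] at h4
    have h6 : p ∣ 1 := by exact_mod_cast h4
    exact hp.one_lt.ne' (Nat.dvd_one.1 h6))
  rwa [aeval_X] at h2

/-- integral numbers -/
theorem int_mem (V : ValuationSubring ℂ) {z : ℂ} (hz : IsIntegral ℤ z) : V.valuation z ≤ 1 := by
  have hB : IsIntegral V z := hz.tower_top
  obtain ⟨y, hy⟩ := IsIntegrallyClosed.isIntegral_iff.1 hB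
  rw [← hy]
  exact (V.valuation_le_one_iff _).2 y.2

variable {m q S R b s d n k : ℕ}

/-- The residue class. -/
theorem exists_classX (hb0 : 0 < b) (hR : R = 6 * b) (hS : S = s + q * b) (hq : q ≤ R)
    {D : Fin n ⊕ Fin k → ℕ} (hD : ∀ y, 0 < D y) (I : Ideal (MvPolynomial (Fin m) ℂ)) [I.IsPrime]
    (hd : Algebra.trdeg ℂ (MvPolynomial (Fin m) ℂ ⧸ I) = d)
    (Q₀ : ℕ) (hQ₀ : 0 < Q₀) (c₀ : Fin m × Fin 2 × Ex q S R D → ℤ) :
    ∃ (K : IntermediateField ℚ ℂ) (Q : ℕ) (G : Fin m × Fin 2 × Ex q S R D → ℤ), Countable K ∧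
      0 < Q ∧ ∀ c : Fin m × Fin 2 × Ex q S R D → ℤ, (∀ i, (Q : ℤ) ∣ c i - G i) →
        (∀ i, (Q₀ : ℤ) ∣ c i - c₀ i) ∧
        ∀ (A B : ℂ), 4 * A ^ 3 + 27 * B ^ 2 ≠ 0 → ∀ (P : Fin q → (crv A B).Point)
          (x : Fin n → ℂ) (u : Fin k → ℂ),
          (∀ f ∈ I, homV (fun j => ev (fun z => c (j, 0, z)) A B (hg P)
              (fun y => (Sum.elim x u y, 1)))
            (fun j => ev (fun z => c (j, 1, z)) A B (hg P) (fun y => (Sum.elim x u y, 1))) f = 0) →
          ∀ (E : EndRing A B) (Λ : Submodule E.O (Fin q → E.O)),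
          (∀ a ∈ Λ, ∃ t : ℕ, 0 < t ∧ t • ∑ l, E.act (a l) (P l) = 0) →
          ∀ (r : ℕ) (Z : SpecialDatum (n + 1) r), jv A B x ∈ Z.locus →
          ∀ (M₂ : Submodule ℤ (Fin k → ℤ)),
          (∀ a ∈ M₂, ∃ t : ℕ, 0 < t ∧ (∏ w, u w ^ a w) ^ t = 1) →
          ∀ (lam : ℂ), lam ^ 12 * (4 * A ^ 3 + 27 * B ^ 2) = 1 →
          ∀ (TM : Finset (Fin (n + 1))) (TE : Finset (Fin q)) (TT : Finset (Fin k)),
          AlgebraicIndependent K (Sum.elim (fun t : TM => jv A B x t)
            (Sum.elim (fun l : TE => lam ^ 2 * xx (P l)) (fun w : TT => u w))) →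
          IsAlgebraic (Algebra.adjoin K (Set.range fun t : TM => jv A B x t)) (x0 A B) →
          TM.card + TE.card + TT.card + m + Module.finrank E.O Λ + Module.finrank ℤ M₂ ≤
            d + r + q + k := by
  classical
  obtain ⟨f, α, β, -, hcor⟩ := exists_corners' I hd
  let s₀ : Finset ℂ := (Finset.univ.biUnion fun J : Finset (Fin m) =>
      (f J).support.image (f J).coeff) ∪
    (Finset.univ.image fun J : Finset (Fin m) => eval (fun i : J => ((α i : ℤ) : ℂ)) (f J))
  obtain ⟨t, htau, halg⟩ := exists_tau s₀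
  set τ : t → ℂ := ((↑) : t → ℂ) with hτ
  obtain ⟨D₀, hD₀, hunit⟩ := const_unit (τ := τ) s₀ halg
  obtain ⟨e, he0, heprime, heinj, hevan⟩ := exists_exponents' (n + 1) k
  set L := k + 1 with hL
  set M := ((n + 1) * (n + 1) + 2 ^ k) * L + 1 with hM
  let pr : Fin M → ℕ := fun i => Nat.nth Nat.Prime (D₀ + Q₀ + Wb m q b + (i : ℕ))
  have hpr : ∀ i, (pr i).Prime := fun i => Nat.prime_nth_prime _
  have hprge : ∀ i : Fin M, D₀ + Q₀ + Wb m q b + (i : ℕ) + 2 ≤ pr i := fun i => Nat.add_two_le_nth_prime _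
  have hprinj : Function.Injective pr := by
    intro i i' h
    have h1 := Nat.nth_injective Nat.infinite_setOfPred_prime h
    exact Fin.ext (by omega)
  obtain ⟨Q, G, hQ, hclass⟩ := exists_residue_class' (κ := Fin m × Fin 2 × Ex q S R D) (M := M)
    pr hpr hprinj (fun (i : Fin M) _ => KK S R D (e i (Sum.inl 0)) (ff (q := q) b (e i (Sum.inl 0)) R)
      (om D (e i)) + 1)
    (fun (i : Fin M) x => (if x.2.1 = 0 then α x.1 else 1) *
      tg S R b s D (pr i) (e i (Sum.inl 0)) (ff b (e i (Sum.inl 0)) R) (om D (e i)) x.1 x.2.2)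
    Q₀ hQ₀ (fun i => by have := hprge i; omega) c₀
  refine ⟨IntermediateField.adjoin ℚ (Set.range τ), Q, G, Pool.Agent.Y645.PK.countable_adjoin t,
    hQ, fun c hc => ?_⟩
  obtain ⟨hc0, hcm⟩ := hclass c hc
  have hLC : ∀ i : Fin M, LC S R b s D (pr i) (e i (Sum.inl 0)) (ff b (e i (Sum.inl 0)) R)
      (om D (e i)) α c := by
    intro i j x
    refine ⟨?_, ?_⟩
    · have h1 := hcm i (j, 0, x)
      simpa using h1
    · have h1 := hcm i (j, 1, x)
      simpa using h1
  refine ⟨hc0, ?_⟩
  intro A B hAB P x u hz E Λ hΛ r Z hZ M₂ hM₂ lam hlam TM TE TT hT hx0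
  by_contra hcount
  push Not at hcount
  -- algebraic independence
  have hTM : AlgebraicIndependent (IntermediateField.adjoin ℚ (Set.range τ))
      (fun t : TM => jv A B x t) := hT.comp Sum.inl Sum.inl_injective
  have hTτ : AlgebraicIndependent ℚ (Sum.elim (Sum.elim (fun t : TM => jv A B x t)
      (Sum.elim (fun l : TE => lam ^ 2 * xx (P l)) (fun w : TT => u w))) τ) := by
    refine htau.sumElim_of_tower (S := IntermediateField.adjoin ℚ (Set.range τ)) ?_ hT
    rintro _ ⟨i, rfl⟩
    exact ⟨⟨τ i, IntermediateField.subset_adjoin _ _ ⟨i, rfl⟩⟩, rfl⟩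
  have hind : AlgebraicIndependent ℚ (Sum.elim
      (Sum.elim (fun l : TE => lam ^ 2 * xx (P l)) (fun w : TT => u w))
      (Sum.elim (fun t : TM => jv A B x t) τ)) := ind_perm hTτ
  have halg0 := alg_down τ htau _ hTM hx0
  have hTMZ : AlgebraicIndependent ℤ (fun t : TM => jv A B x t) := by
    have h1 : AlgebraicIndependent ℚ (fun t : TM => jv A B x t) :=
      hTτ.comp (fun t : TM => Sum.inl (Sum.inl t)) (by
        intro t t' h
        exact Sum.inl_injective (Sum.inl_injective h))
    exact h1.restrictScalars (Int.cast_injective (α := ℚ))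
  -- the modular part
  have hTsome : ∀ t : TM, ∃ l, Z.cls t = some l := by
    intro t
    cases hc : Z.cls t with
    | none =>
      obtain ⟨z, hz⟩ := hZ
      have h1 := (hz t).1 hc
      have h2 := singular_modulus_integral _ (Z.isCM t)
      rw [← h1] at h2
      exact absurd h2.isAlgebraic (hTMZ.transcendental t)
    | some l => exact ⟨l, rfl⟩
  choose κ hκ using hTsome
  have hκinj : Function.Injective κ := by
    intro t t' htt
    by_contra hne
    have h1 := rel_of_class isogenous_integral Z hZ (hκ t) (by rw [htt]; exact hκ t')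
    have h2 := hTMZ.transcendental_adjoin (s := {t}) (i := t') (by
      intro h
      rw [Set.mem_singleton_iff] at h
      exact hne h.symm)
    rw [Set.image_singleton] at h2
    exact h2 h1.isAlgebraic
  have hN : ∀ i i', 0 < ((Z.mat i).det * (Z.mat i').det).toNat := by
    intro i i'
    have := mul_pos (Z.det_pos i) (Z.det_pos i')
    omega
  have hrel : ∀ i i' l, Z.cls i = some l → Z.cls i' = some l → Polynomial.eval₂
      (Polynomial.aeval (jv A B x i) : Polynomial ℂ →ₐ[ℂ] ℂ).toRingHom (jv A B x i')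
        (Psi ((Z.mat i).det * (Z.mat i').det).toNat) = 0 := by
    intro i i' l hi hi'
    obtain ⟨z, hz⟩ := hZ
    obtain ⟨w1, h1, h2⟩ := (hz i).2 l hi
    obtain ⟨w2, h3, h4⟩ := (hz i').2 l hi'
    rw [← eval_relPoly]
    exact eval_relPoly_eq_zero (Z.det_pos i) (Z.det_pos i') h1 h3 h2 h4
  -- one place
  have hone : ∀ i : Fin M, ∃ Y : (Fin (n + 1) × Fin (n + 1)) ⊕ Finset (Fin k),
      (∀ a a', Y = Sum.inl (a, a') → a ≠ a' ∧
        IsSquare (((Z.mat a).det * (Z.mat a').det).toNat *
          (e i (Sum.inl a) * e i (Sum.inl a')))) ∧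
      (∀ W, Y = Sum.inr W → k < Module.finrank ℤ M₂ + W.card ∧
        ∀ a ∈ M₂, (∀ j, j ∉ W → a j = 0) →
          ∑ w, a w * (((if w ∈ TT then 1 else 2) * e i (Sum.inr w) : ℕ) : ℤ) = 0) := by
    intro i
    have hp := hpr i
    obtain ⟨N1, C, hN1, hcν⟩ := exists_cnu (τ := Sum.elim (fun t : TM => jv A B x t) τ) hp halg0
    obtain ⟨M', hM'ge, hM'⟩ := Nat.exists_infinite_primes (6 * N1 * R + q + 1)
    set H := 1 + C + e i (Sum.inl 0) with hH
    obtain ⟨V, hV, hVx⟩ := exists_place (Sum.elim (fun t : TM => jv A B x t) τ)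
      (Sum.elim (fun l : TE => lam ^ 2 * xx (P l)) (fun w : TT => u w)) hind hp
      (Sum.elim (fun _ => M') (fun _ => 2))
      (Sum.elim (fun l : TE => M' * H + ((l : Fin q) : ℕ) + 1)
        (fun w : TT => e i (Sum.inr (w : Fin k)))) (by
        rintro (l | w)
        · exact hM'.pos
        · exact two_pos)
    have hVτ : Good τ (pr i) V := Good.sub Sum.inr Sum.inr_injective (fun _ => rfl) hV
    have hpD : ¬ pr i ∣ D₀ := fun h => by
      have := Nat.le_of_dvd hD₀ h
      have := hprge i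
      omega
    have hres := one_place (s := s) V hp (by have := hprge i; omega) hV.hp hV.arch hb0 hR hS hq hD (e i)
      (he0 i) f α
      (by
        intro J _ l
        by_cases h0 : (f J).coeff l = 0
        · rw [h0, map_zero]
          exact zero_le_one
        · refine (hunit _ hpD V hVτ _ ?_ h0).le
          exact Finset.mem_union_left _ (Finset.mem_biUnion.2 ⟨J, Finset.mem_univ _,
            Finset.mem_image_of_mem _ (MvPolynomial.mem_support_iff.2 h0)⟩))
      (by
        intro J hJ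
        refine hunit _ hpD V hVτ _ ?_ ?_
        · exact Finset.mem_union_right _ (Finset.mem_image_of_mem
            (fun J : Finset (Fin m) => eval (fun i : J => ((α i : ℤ) : ℂ)) (f J))
            (Finset.mem_univ J))
        · have h1 := (hcor J hJ).2 (fun _ => true)
          simpa using h1)
      c (hLC i) A B hAB P x u (fun J hJ => hz _ (hcor J hJ).1) E Λ hΛ lam hlam TE hN1
      (hcν V hV (e i (Sum.inl 0))) hM' (by omega) le_rfl (fun l hl => hVx (Sum.inl ⟨l, hl⟩))
      r Z.cls (fun a a' => ((Z.mat a).det * (Z.mat a').det).toNat) hN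
      (by
        intro a ha
        obtain ⟨z, hz⟩ := hZ
        have h2 := singular_modulus_integral _ (Z.isCM a)
        rw [← (hz a).1 ha] at h2
        exact int_mem V h2)
      hrel TM (fun a ha => Good.unit hp hV (Sum.inl ⟨a, ha⟩)) κ hκ hκinj M₂ hM₂ TT
      (fun w hw => hVx (Sum.inr ⟨w, hw⟩)) hcount
    rcases hres with ⟨a, a', hne, hsq⟩ | ⟨W, hW1, hW2⟩
    · refine ⟨Sum.inl (a, a'), ?_, fun W h => absurd h (by simp)⟩
      rintro b b' hbb
      obtain ⟨rfl, rfl⟩ := Prod.mk.injEq .. ▸ Sum.inl_injective hbb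
      exact ⟨hne, hsq⟩
    · refine ⟨Sum.inr W, fun a a' h => absurd h (by simp), ?_⟩
      rintro W' hWW
      obtain rfl := Sum.inr_injective hWW
      refine ⟨hW1, fun a ha haW => ?_⟩
      convert hW2 a ha haW using 6
  choose Y hY1 hY2 using hone
  obtain ⟨y, hy⟩ := Fintype.exists_lt_card_fiber_of_mul_lt_card Y (n := L) (by
    rw [Fintype.card_sum, Fintype.card_prod, Fintype.card_fin, Fintype.card_fin,
      Fintype.card_finset, Fintype.card_fin]
    omega)
  rcases y with ⟨a, a'⟩ | W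
  · obtain ⟨i, hi, i', hi', hii⟩ := Finset.one_lt_card.1 (show 1 <
      (Finset.univ.filter fun i => Y i = Sum.inl (a, a')).card by omega)
    have h1 := hY1 i a a' (Finset.mem_filter.1 hi).2
    have h2 := hY1 i' a a' (Finset.mem_filter.1 hi').2
    refine four_primes (hN a a') (heprime i a) (heprime i a') (heprime i' a) (heprime i' a')
      ?_ ?_ ?_ h1.2 h2.2
    · intro h
      exact h1.1 (heinj _ _ _ _ h).2
    · intro h
      exact hii (Fin.ext (heinj _ _ _ _ h).1)
    · intro h
      exact hii (Fin.ext (heinj _ _ _ _ h).1)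
  · set S' := Finset.univ.filter fun i => Y i = Sum.inr W with hS'
    have h1 : 0 < S'.card := by omega
    obtain ⟨i₀, hi₀⟩ := Finset.card_pos.1 h1
    obtain ⟨a, haM, ha0, haW⟩ := exists_supported M₂ W (hY2 i₀ W (Finset.mem_filter.1 hi₀).2).1
    have h2 : (fun w => a w * ((if w ∈ TT then 1 else 2 : ℕ) : ℤ)) = 0 := by
      refine hevan (S'.image fun i : Fin M => (i : ℕ)) _ ?_ ?_
      · rw [Finset.card_image_of_injective _ Fin.val_injective]
        omega
      · intro i hi
        obtain ⟨i', hi', rfl⟩ := Finset.mem_image.1 hi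
        have h3 := (hY2 i' W (Finset.mem_filter.1 hi').2).2 a haM haW
        rw [← h3]
        refine Finset.sum_congr rfl fun w _ => ?_
        push_cast
        ring
    apply ha0
    funext w
    have h3 := congrFun h2 w
    rw [Pi.zero_apply, mul_eq_zero] at h3
    rcases h3 with h3 | h3
    · exact h3
    · exfalso
      split_ifs at h3 <;> simp at h3

end Pool.Agent.Y645.MX
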