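import Pool.Agent.Y645.MX.Cls
import Pool.Agent.Y645.PK.Alg

/-!
The coordinates of a point of the affine cone (helper file for Zilber-Pink for random pull-backs to
`ℰ^q × Y(1)^n × G_m^k`).
-/

set_option autoImplicit false
set_option linter.unusedSectionVars false

open MvPolynomial

namespace Pool.Agent.Y645.MX

open Pool.Agent.W282.ZP Pool.Agent.TH971.SP Pool.Agent.W466.EP Pool.Agent.TH971.RF
  Pool.Agent.Y645.PK

section matroid

variable (K : Type) [Field K] [Algebra K ℂ]

/-- A maximal independent subfamily. -/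
theorem exists_max {ι : Type} [Fintype ι] [DecidableEq ι] (f : ι → ℂ) (S₀ : Finset ι)
    (h0 : AlgebraicIndepOn K f (S₀ : Set ι)) :
    ∃ S : Finset ι, S₀ ⊆ S ∧ AlgebraicIndepOn K f (S : Set ι) ∧
      ∀ i, IsAlgebraic (Algebra.adjoin K (f '' (S : Set ι))) (f i) := by
  classical
  let 𝒮 : Finset (Finset ι) := Finset.univ.filter fun S => S₀ ⊆ S ∧
    AlgebraicIndepOn K f (S : Set ι)
  have hne : 𝒮.Nonempty := ⟨S₀, Finset.mem_filter.2 ⟨Finset.mem_univ _, Finset.Subset.refl _, h0⟩⟩
  obtain ⟨S, hS, hmax⟩ := Finset.exists_max_image 𝒮 Finset.card hne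
  obtain ⟨-, hS1, hS2⟩ := Finset.mem_filter.1 hS
  refine ⟨S, hS1, hS2, fun i => ?_⟩
  by_cases hi : i ∈ S
  · exact isAlgebraic_algebraMap (⟨f i, Algebra.subset_adjoin ⟨i, hi, rfl⟩⟩ :
      Algebra.adjoin K (f '' (S : Set ι)))
  · by_contra hcon
    have h1 : AlgebraicIndepOn K f (insert i (S : Set ι)) := hS2.insert hcon
    have h2 : insert i S ∈ 𝒮 := by
      refine Finset.mem_filter.2 ⟨Finset.mem_univ _, hS1.trans (Finset.subset_insert _ _), ?_⟩
      rw [Finset.coe_insert]
      exact h1
    have h3 := hmax _ h2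
    rw [Finset.card_insert_of_notMem hi] at h3
    omega

/-- The rank is bounded by the number of elements of a maximal independent subfamily. -/
theorem rk_le {ι : Type} [Fintype ι] [DecidableEq ι] (f : ι → ℂ) (S : Finset ι)
    (h : ∀ i, IsAlgebraic (Algebra.adjoin K (f '' (S : Set ι))) (f i)) :
    (AlgebraicIndependent.matroid K ℂ).eRk (Set.range f) ≤ (S.card : ℕ∞) := by
  have h1 : Set.range f ⊆ (AlgebraicIndependent.matroid K ℂ).closure (f '' (S : Set ι)) := by
    rintro _ ⟨i, rfl⟩
    rw [mem_cl, IntermediateField.isAlgebraic_adjoin_iff]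
    exact h i
  calc (AlgebraicIndependent.matroid K ℂ).eRk (Set.range f)
      ≤ (AlgebraicIndependent.matroid K ℂ).eRk
        ((AlgebraicIndependent.matroid K ℂ).closure (f '' (S : Set ι))) :=
        (AlgebraicIndependent.matroid K ℂ).eRk_mono h1
    _ = (AlgebraicIndependent.matroid K ℂ).eRk (f '' (S : Set ι)) := Matroid.eRk_closure_eq _ _
    _ ≤ (f '' (S : Set ι)).encard := Matroid.eRk_le_encard _ _
    _ ≤ (S : Set ι).encard := Set.encard_image_le _ _
    _ = (S.card : ℕ∞) := Set.encard_coe_eq_coe_finsetCard S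

end matroid

variable {n q k : ℕ}

/-- the coordinates of a point of the cone -/
noncomputable def cco {A B : ℂ} (P : Fin q → (crv A B).Point) (x : Fin n → ℂ) (u : Fin k → ℂ) :
    Fin 2 ⊕ (Fin q ⊕ (Fin n ⊕ Fin k)) → ℂ :=
  Sum.elim ![A, B] (Sum.elim (fun l => xx (P l)) (Sum.elim x u))

/-- the coordinates of a point of the mixed Shimura variety -/
noncomputable def mco (lam : ℂ) {A B : ℂ} (P : Fin q → (crv A B).Point) (x : Fin n → ℂ)
    (u : Fin k → ℂ) : Fin (n + 1) ⊕ (Fin q ⊕ Fin k) → ℂ :=
  Sum.elim (jv A B x) (Sum.elim (fun l => lam ^ 2 * xx (P l)) u)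

theorem alg_pow {F : IntermediateField ℚ ℂ} {x : ℂ} {N : ℕ} (hN : 0 < N)
    (h : IsAlgebraic F (x ^ N)) : IsAlgebraic F x := h.of_pow hN

/-- The coordinates of a point of the cone and those of the point of the mixed Shimura variety. -/
theorem exists_T {K : IntermediateField ℚ ℂ} {A B : ℂ} (hAB : 4 * A ^ 3 + 27 * B ^ 2 ≠ 0)
    (P : Fin q → (crv A B).Point) (x : Fin n → ℂ) (u : Fin k → ℂ) (lam : ℂ)
    (hlam : lam ^ 12 * (4 * A ^ 3 + 27 * B ^ 2) = 1)
    (T : Finset (Fin 2 ⊕ (Fin q ⊕ (Fin n ⊕ Fin k))))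
    (hT : AlgebraicIndependent K (fun j : T => cco P x u j)) :
    ∃ (TM : Finset (Fin (n + 1))) (TE : Finset (Fin q)) (TT : Finset (Fin k)),
      AlgebraicIndependent K (Sum.elim (fun t : TM => jv A B x t)
        (Sum.elim (fun l : TE => lam ^ 2 * xx (P l)) (fun w : TT => u w))) ∧
      IsAlgebraic (Algebra.adjoin K (Set.range fun t : TM => jv A B x t)) (x0 A B) ∧
      T.card ≤ TM.card + TE.card + TT.card + 1 := by
  classical
  have hlam0 : lam ≠ 0 := by
    rintro rfl
    rw [zero_pow (by norm_num), zero_mul] at hlam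
    exact zero_ne_one hlam
  obtain ⟨T₀, -, hT₀, hT₀alg⟩ := exists_max K (jv A B x) ∅ (by
    have h1 : AlgebraicIndependent K (fun i : ((∅ : Finset (Fin (n + 1))) : Set (Fin (n + 1))) =>
        jv A B x i) := by
      have : IsEmpty ((∅ : Finset (Fin (n + 1))) : Set (Fin (n + 1))) := by
        rw [Finset.coe_empty]
        infer_instance
      exact algebraicIndependent_empty_type
    exact h1)
  have hT₀' : AlgebraicIndepOn K (mco lam P x u)
      ((T₀.map Function.Embedding.inl : Finset (Fin (n + 1) ⊕ (Fin q ⊕ Fin k))) :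
        Set (Fin (n + 1) ⊕ (Fin q ⊕ Fin k))) := by
    have hmem : ∀ i : ((T₀.map Function.Embedding.inl : Finset (Fin (n + 1) ⊕ (Fin q ⊕ Fin k))) :
        Set (Fin (n + 1) ⊕ (Fin q ⊕ Fin k))), ∃ t : (T₀ : Set (Fin (n + 1))),
          (i : Fin (n + 1) ⊕ (Fin q ⊕ Fin k)) = Sum.inl (t : Fin (n + 1)) := by
      rintro ⟨i, hi⟩
      obtain ⟨t, ht, rfl⟩ := Finset.mem_map.1 (Finset.mem_coe.1 hi)
      exact ⟨⟨t, ht⟩, rfl⟩
    choose g hg using hmem
    have hginj : Function.Injective g := by
      intro i i' h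
      apply Subtype.ext
      rw [hg, hg, h]
    have h1 := AlgebraicIndependent.comp hT₀ g hginj
    have h2 : (fun i : ((T₀.map Function.Embedding.inl : Finset (Fin (n + 1) ⊕ (Fin q ⊕ Fin k))) :
        Set (Fin (n + 1) ⊕ (Fin q ⊕ Fin k))) => mco lam P x u i) =
        (fun i : (T₀ : Set (Fin (n + 1))) => jv A B x i) ∘ g := by
      funext i
      rw [hg i]
      rfl
    change AlgebraicIndependent K _
    rw [h2]
    exact h1
  obtain ⟨S, hS0, hSind, hSalg⟩ := exists_max K (mco lam P x u) _ hT₀'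
  refine ⟨S.toLeft, S.toRight.toLeft, S.toRight.toRight, ?_, ?_, ?_⟩
  · let g : S.toLeft ⊕ (S.toRight.toLeft ⊕ S.toRight.toRight) →
        (S : Set (Fin (n + 1) ⊕ (Fin q ⊕ Fin k))) :=
      Sum.elim (fun t => ⟨Sum.inl t, Finset.mem_toLeft.1 t.2⟩)
        (Sum.elim (fun l => ⟨Sum.inr (Sum.inl l), Finset.mem_toRight.1 (Finset.mem_toLeft.1 l.2)⟩)
          (fun w => ⟨Sum.inr (Sum.inr w), Finset.mem_toRight.1 (Finset.mem_toRight.1 w.2)⟩))
    have hg : Function.Injective g := by
      rintro (i | (i | i)) (j | (j | j)) h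
      · have h1 := Sum.inl_injective (congrArg Subtype.val h)
        rw [Subtype.ext h1]
      · exact absurd (congrArg Subtype.val h) (by simp [g])
      · exact absurd (congrArg Subtype.val h) (by simp [g])
      · exact absurd (congrArg Subtype.val h) (by simp [g])
      · have h1 := Sum.inl_injective (Sum.inr_injective (congrArg Subtype.val h))
        rw [Subtype.ext h1]
      · exact absurd (congrArg Subtype.val h) (by simp [g])
      · exact absurd (congrArg Subtype.val h) (by simp [g])
      · exact absurd (congrArg Subtype.val h) (by simp [g])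
      · have h1 := Sum.inr_injective (Sum.inr_injective (congrArg Subtype.val h))
        rw [Subtype.ext h1]
    have h1 := AlgebraicIndependent.comp hSind g hg
    convert h1 using 1
    funext i
    rcases i with i | (i | i) <;> rfl
  · have h1 := hT₀alg 0
    change IsAlgebraic _ (x0 A B) at h1
    refine h1.tower_top_of_subalgebra_le (Algebra.adjoin_mono ?_)
    rintro _ ⟨t, ht, rfl⟩
    exact ⟨⟨t, Finset.mem_toLeft.2 (hS0 (Finset.mem_map_of_mem _ ht))⟩, rfl⟩
  · have hrk := rk_le K (mco lam P x u) S hSalg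
    set Xs : Set ℂ := insert lam (Set.range (mco lam P x u)) with hXs
    have hcl : ∀ j ∈ T, cco P x u j ∈ (AlgebraicIndependent.matroid K ℂ).closure Xs := by
      have hmem : ∀ i, IsAlgebraic (IntermediateField.adjoin K Xs) (mco lam P x u i) := fun i =>
        isAlgebraic_algebraMap (⟨_, IntermediateField.subset_adjoin K Xs
          (Set.mem_insert_of_mem _ ⟨i, rfl⟩)⟩ : IntermediateField.adjoin K Xs)
      have hlam' : IsAlgebraic (IntermediateField.adjoin K Xs) lam :=
        isAlgebraic_algebraMap (⟨_, IntermediateField.subset_adjoin K Xs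
          (Set.mem_insert _ _)⟩ : IntermediateField.adjoin K Xs)
      have hnat : ∀ z : ℕ, IsAlgebraic (IntermediateField.adjoin K Xs) (z : ℂ) := by
        intro z
        have h1 := isAlgebraic_algebraMap (A := ℂ) (z : IntermediateField.adjoin K Xs)
        rwa [map_natCast] at h1
      have hA : IsAlgebraic (IntermediateField.adjoin K Xs) A := by
        refine IsAlgebraic.of_pow (n := 3) (by norm_num) ?_
        have h1 : A ^ 3 = x0 A B * (lam ^ 12)⁻¹ * ((6912 : ℕ) : ℂ)⁻¹ := by
          have h2 : (lam ^ 12)⁻¹ = 4 * A ^ 3 + 27 * B ^ 2 :=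
            inv_eq_of_mul_eq_one_right hlam
          rw [h2, x0, div_mul_cancel₀ _ hAB]
          push_cast
          field_simp
        rw [h1]
        exact ((hmem (Sum.inl 0)).mul (hlam'.pow 12).inv).mul (hnat 6912).inv
      have hB : IsAlgebraic (IntermediateField.adjoin K Xs) B := by
        refine IsAlgebraic.of_pow (n := 2) (by norm_num) ?_
        have h1 : B ^ 2 = ((lam ^ 12)⁻¹ - ((4 : ℕ) : ℂ) * A ^ 3) * ((27 : ℕ) : ℂ)⁻¹ := by
          have h2 : (lam ^ 12)⁻¹ = 4 * A ^ 3 + 27 * B ^ 2 :=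
            inv_eq_of_mul_eq_one_right hlam
          rw [h2]
          push_cast
          field_simp
          ring
        rw [h1]
        exact ((hlam'.pow 12).inv.sub ((hnat 4).mul (hA.pow 3))).mul (hnat 27).inv
      intro j _
      rw [mem_cl]
      rcases j with j | (l | (i | w))
      · fin_cases j
        · exact hA
        · exact hB
      · have h1 : xx (P l) = (lam ^ 2)⁻¹ * (lam ^ 2 * xx (P l)) := by
          rw [inv_mul_cancel_left₀ (pow_ne_zero _ hlam0)]
        change IsAlgebraic _ (xx (P l))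
        rw [h1]
        exact (hlam'.pow 2).inv.mul (hmem (Sum.inr (Sum.inl l)))
      · exact hmem (Sum.inl i.succ)
      · exact hmem (Sum.inr (Sum.inr w))
    have h1 := card_le_rkK K T (cco P x u) hT Xs hcl
    have h2 : (AlgebraicIndependent.matroid K ℂ).eRk Xs ≤
        (AlgebraicIndependent.matroid K ℂ).eRk (Set.range (mco lam P x u)) + 1 :=
      Matroid.eRk_insert_le_add_one _ _ _
    have h3 : (T.card : ℕ∞) ≤ ((S.card + 1 : ℕ) : ℕ∞) := by
      push_cast
      exact h1.trans (h2.trans (by gcongr))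
    have h4 : T.card ≤ S.card + 1 := by exact_mod_cast h3
    have h5 : S.toLeft.card + S.toRight.card = S.card := Finset.card_toLeft_add_card_toRight
    have h6 : S.toRight.toLeft.card + S.toRight.toRight.card = S.toRight.card :=
      Finset.card_toLeft_add_card_toRight
    omega

end Pool.Agent.Y645.MX
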