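import Pool.Agent.TH971.SP.B1

/-!
Random isobaric polynomials in several variables and the target polynomials (helper file for
Zilber-Pink for random pull-backs to fibre powers of the universal elliptic curve).
-/

set_option autoImplicit false
set_option linter.unusedSectionVars false

open MvPolynomial

namespace Pool.Agent.Y645.MX

/-- The exponents of the monomials: of `A`, of `B`, of the elliptic coordinates, of the other
coordinates. -/
abbrev Ex {Y : Type} (q S R : ℕ) (D : Y → ℕ) : Type :=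
  {x : Fin (3 * S + 1) × Fin (2 * S + 1) × (Fin q → Fin (R + 1)) × ((y : Y) → Fin (D y + 1)) //
    2 * (x.1 : ℕ) + 3 * (x.2.1 : ℕ) + ∑ l, (x.2.2.1 l : ℕ) = 6 * S}

variable {q S R : ℕ} {Y : Type} [Fintype Y] [DecidableEq Y] {D : Y → ℕ}

/-- the value of a monomial -/
noncomputable def mo (x : Ex q S R D) (A B : ℂ) (g : Fin q → ℂ × ℂ) (h : Y → ℂ × ℂ) : ℂ :=
  A ^ (x.1.1 : ℕ) * B ^ (x.1.2.1 : ℕ) *
    ((∏ l, ((g l).1 ^ (x.1.2.2.1 l : ℕ) * (g l).2 ^ (R - (x.1.2.2.1 l : ℕ)))) *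
      ∏ y, ((h y).1 ^ (x.1.2.2.2 y : ℕ) * (h y).2 ^ (D y - (x.1.2.2.2 y : ℕ))))

/-- the value of a polynomial -/
noncomputable def ev (c : Ex q S R D → ℤ) (A B : ℂ) (g : Fin q → ℂ × ℂ) (h : Y → ℂ × ℂ) : ℂ :=
  ∑ x, (c x : ℂ) * mo x A B g h

theorem ev_sub (F G : Ex q S R D → ℤ) (a : ℤ) (A B : ℂ) (g : Fin q → ℂ × ℂ) (h : Y → ℂ × ℂ) :
    ev (fun e => F e - a * G e) A B g h = ev F A B g h - (a : ℂ) * ev G A B g h := by
  rw [ev, ev, ev, Finset.mul_sum, ← Finset.sum_sub_distrib]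
  refine Finset.sum_congr rfl fun e _ => ?_
  push_cast
  ring

/-- the variables -/
abbrev Vr (q : ℕ) (Y : Type) : Type := Fin 2 ⊕ ((Fin q ⊕ Fin q) ⊕ (Y ⊕ Y))

/-- the exponent vector of a monomial -/
noncomputable def ex (x : Ex q S R D) : Vr q Y →₀ ℕ := Finsupp.equivFunOnFinite.symm
  (Sum.elim ![(x.1.1 : ℕ), (x.1.2.1 : ℕ)]
    (Sum.elim (Sum.elim (fun l => (x.1.2.2.1 l : ℕ)) (fun l => R - (x.1.2.2.1 l : ℕ)))
      (Sum.elim (fun y => (x.1.2.2.2 y : ℕ)) (fun y => D y - (x.1.2.2.2 y : ℕ)))))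

theorem ex_inj : Function.Injective (ex (q := q) (S := S) (R := R) (D := D)) := by
  intro x x' h
  have h1 := fun v => DFunLike.congr_fun h v
  have e1 : (x.1.1 : ℕ) = x'.1.1 := h1 (Sum.inl 0)
  have e2 : (x.1.2.1 : ℕ) = x'.1.2.1 := h1 (Sum.inl 1)
  have e3 : ∀ l, (x.1.2.2.1 l : ℕ) = x'.1.2.2.1 l := fun l => h1 (Sum.inr (Sum.inl (Sum.inl l)))
  have e4 : ∀ y, (x.1.2.2.2 y : ℕ) = x'.1.2.2.2 y := fun y => h1 (Sum.inr (Sum.inr (Sum.inl y)))
  refine Subtype.ext (Prod.ext (Fin.ext e1) (Prod.ext (Fin.ext e2) (Prod.ext ?_ ?_)))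
  · funext l
    exact Fin.ext (e3 l)
  · funext y
    exact Fin.ext (e4 y)

/-- the point with the given coordinates -/
noncomputable def pt (A B : ℂ) (g : Fin q → ℂ × ℂ) (h : Y → ℂ × ℂ) : Vr q Y → ℂ :=
  Sum.elim ![A, B] (Sum.elim (Sum.elim (fun l => (g l).1) (fun l => (g l).2))
    (Sum.elim (fun y => (h y).1) (fun y => (h y).2)))

theorem prod_ex (x : Ex q S R D) (A B : ℂ) (g : Fin q → ℂ × ℂ) (h : Y → ℂ × ℂ) :
    ∏ v, pt A B g h v ^ ex x v = mo x A B g h := by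
  simp only [Fintype.prod_sum_type, Fin.prod_univ_two]
  rw [mo, Finset.prod_mul_distrib, Finset.prod_mul_distrib]
  rfl

/-- the conditions on the monomials of a polynomial -/
structure Adm (S R : ℕ) (D : Y → ℕ) (P : MvPolynomial (Vr q Y) ℤ) : Prop where
  wt : ∀ d, P.coeff d ≠ 0 → 2 * d (Sum.inl 0) + 3 * d (Sum.inl 1) +
    ∑ l, d (Sum.inr (Sum.inl (Sum.inl l))) = 6 * S
  pl : ∀ d, P.coeff d ≠ 0 → ∀ l, d (Sum.inr (Sum.inl (Sum.inl l))) +
    d (Sum.inr (Sum.inl (Sum.inr l))) = R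
  py : ∀ d, P.coeff d ≠ 0 → ∀ y, d (Sum.inr (Sum.inr (Sum.inl y))) +
    d (Sum.inr (Sum.inr (Sum.inr y))) = D y

theorem ev_coeff {P : MvPolynomial (Vr q Y) ℤ} (hP : Adm S R D P) (A B : ℂ) (g : Fin q → ℂ × ℂ)
    (h : Y → ℂ × ℂ) :
    ev (fun x : Ex q S R D => P.coeff (ex x)) A B g h = aeval (pt A B g h) P := by
  classical
  rw [aeval_def, eval₂_eq']
  have h1 : P.support ⊆ Finset.univ.image (ex (q := q) (S := S) (R := R) (D := D)) := by
    intro d hd
    rw [mem_support_iff] at hd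
    have h2 := hP.wt d hd
    have h3 := hP.pl d hd
    have h4 := hP.py d hd
    refine Finset.mem_image.2 ⟨⟨(⟨d (Sum.inl 0), by omega⟩, ⟨d (Sum.inl 1), by omega⟩,
      fun l => ⟨d (Sum.inr (Sum.inl (Sum.inl l))), by have := h3 l; omega⟩,
      fun y => ⟨d (Sum.inr (Sum.inr (Sum.inl y))), by have := h4 y; omega⟩), h2⟩,
      Finset.mem_univ _, ?_⟩
    refine Finsupp.ext fun v => ?_
    rcases v with v | ((l | l) | (y | y))
    · fin_cases v
      · rfl
      · rfl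
    · rfl
    · change R - d (Sum.inr (Sum.inl (Sum.inl l))) = d (Sum.inr (Sum.inl (Sum.inr l)))
      have := h3 l
      omega
    · rfl
    · change D y - d (Sum.inr (Sum.inr (Sum.inl y))) = d (Sum.inr (Sum.inr (Sum.inr y)))
      have := h4 y
      omega
  rw [Finset.sum_subset h1 (fun d _ hd => by
    rw [notMem_support_iff.1 hd, map_zero, zero_mul]), Finset.sum_image (fun x _ x' _ h => ex_inj h),
    ev]
  refine Finset.sum_congr rfl fun x _ => ?_
  rw [prod_ex, eq_intCast]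

/-- the discriminant -/
noncomputable def dP (q : ℕ) (Y : Type) : MvPolynomial (Vr q Y) ℤ :=
  C 4 * X (Sum.inl 0) ^ 3 + C 27 * X (Sum.inl 1) ^ 2

/-- the other modular form -/
noncomputable def bP (q : ℕ) (Y : Type) (p e0 : ℕ) : MvPolynomial (Vr q Y) ℤ :=
  C ((p : ℤ) ^ e0 * 6912) * X (Sum.inl 0) ^ 3

/-- The target polynomial. -/
noncomputable def PT (R b s : ℕ) (D : Y → ℕ) (p e0 : ℕ) (f : Fin q → ℕ) (ω : Y → ℕ)
    (a : Fin q → ℤ) (a' c : ℤ) : MvPolynomial (Vr q Y) ℤ :=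
  (C a' * dP q Y + bP q Y p e0) ^ s *
    ((∏ l, (C (a l) * (C (a l) * dP q Y ^ b + bP q Y p e0 ^ b) *
      X (Sum.inr (Sum.inl (Sum.inr l))) ^ R +
      C ((p : ℤ) ^ f l) * X (Sum.inr (Sum.inl (Sum.inl l))) ^ R)) *
    ∏ y, (X (Sum.inr (Sum.inr (Sum.inr y))) ^ D y +
      C (c * (p : ℤ) ^ ω y) * X (Sum.inr (Sum.inr (Sum.inl y))) ^ D y))

theorem aeval_PT (R b s : ℕ) (D : Y → ℕ) (p e0 : ℕ) (f : Fin q → ℕ) (ω : Y → ℕ)
    (a : Fin q → ℤ) (a' c : ℤ) (A B : ℂ) (g : Fin q → ℂ × ℂ) (h : Y → ℂ × ℂ) :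
    aeval (pt A B g h) (PT R b s D p e0 f ω a a' c) =
      ((a' : ℂ) * (4 * A ^ 3 + 27 * B ^ 2) + (p : ℂ) ^ e0 * (6912 * A ^ 3)) ^ s *
      ((∏ l, ((a l : ℂ) * ((a l : ℂ) * (4 * A ^ 3 + 27 * B ^ 2) ^ b +
        ((p : ℂ) ^ e0 * (6912 * A ^ 3)) ^ b) * (g l).2 ^ R + (p : ℂ) ^ f l * (g l).1 ^ R)) *
      ∏ y, ((h y).2 ^ D y + (c : ℂ) * ((p : ℂ) ^ ω y * (h y).1 ^ D y))) := by
  have h1 : pt A B g h (Sum.inl 0) = A := rfl
  have h2 : pt A B g h (Sum.inl 1) = B := rfl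
  have h3 : ∀ l, pt A B g h (Sum.inr (Sum.inl (Sum.inl l))) = (g l).1 := fun _ => rfl
  have h4 : ∀ l, pt A B g h (Sum.inr (Sum.inl (Sum.inr l))) = (g l).2 := fun _ => rfl
  have h5 : ∀ l, pt A B g h (Sum.inr (Sum.inr (Sum.inl l))) = (h l).1 := fun _ => rfl
  have h6 : ∀ l, pt A B g h (Sum.inr (Sum.inr (Sum.inr l))) = (h l).2 := fun _ => rfl
  have hC : ∀ z : ℤ, aeval (pt A B g h) (C z : MvPolynomial (Vr q Y) ℤ) = (z : ℂ) := by
    intro z
    rw [algHom_C, algebraMap_int_eq, eq_intCast]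
  have e1 : aeval (pt A B g h) (dP q Y) = 4 * A ^ 3 + 27 * B ^ 2 := by
    rw [dP, map_add, map_mul, map_mul, map_pow, map_pow, aeval_X, aeval_X, hC, hC, h1, h2]
    push_cast
    ring
  have e2 : aeval (pt A B g h) (bP q Y p e0) = (p : ℂ) ^ e0 * (6912 * A ^ 3) := by
    rw [bP, map_mul, map_pow, aeval_X, hC, h1]
    push_cast
    ring
  rw [PT, map_mul, map_mul, map_pow, map_prod, map_prod]
  congr 1
  · rw [map_add, map_mul, hC, e1, e2]
  · congr 1
    · refine Finset.prod_congr rfl fun l _ => ?_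
      simp only [map_mul, map_add, map_pow, aeval_X, h3, h4, hC, e1, e2]
      push_cast
      ring
    · refine Finset.prod_congr rfl fun y _ => ?_
      simp only [map_mul, map_add, map_pow, aeval_X, h5, h6, hC]
      push_cast
      ring

/-- the target polynomial is homogeneous for suitable weights -/
theorem hom_PT {R b s : ℕ} {D : Y → ℕ} {p e0 : ℕ} {f : Fin q → ℕ} {ω : Y → ℕ}
    {a : Fin q → ℤ} {a' c : ℤ} (w : Vr q Y → ℕ) (δ : ℕ) (hA : 3 * w (Sum.inl 0) = δ)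
    (hB : 2 * w (Sum.inl 1) = δ) (L : Fin q → ℕ)
    (hL1 : ∀ l, R * w (Sum.inr (Sum.inl (Sum.inl l))) = L l)
    (hL2 : ∀ l, b * δ + R * w (Sum.inr (Sum.inl (Sum.inr l))) = L l) (M : Y → ℕ)
    (hM1 : ∀ y, D y * w (Sum.inr (Sum.inr (Sum.inl y))) = M y)
    (hM2 : ∀ y, D y * w (Sum.inr (Sum.inr (Sum.inr y))) = M y) :
    IsWeightedHomogeneous w (PT R b s D p e0 f ω a a' c) (s * δ + (∑ l, L l + ∑ y, M y)) := by
  have hd : IsWeightedHomogeneous w (dP q Y) δ := by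
    refine IsWeightedHomogeneous.add ?_ ?_
    · have h1 := ((isWeightedHomogeneous_X ℤ w (Sum.inl 0 : Vr q Y)).pow 3).C_mul 4
      rwa [smul_eq_mul, hA] at h1
    · have h1 := ((isWeightedHomogeneous_X ℤ w (Sum.inl 1 : Vr q Y)).pow 2).C_mul 27
      rwa [smul_eq_mul, hB] at h1
  have hb : IsWeightedHomogeneous w (bP q Y p e0) δ := by
    have h1 := ((isWeightedHomogeneous_X ℤ w (Sum.inl 0 : Vr q Y)).pow 3).C_mul
      ((p : ℤ) ^ e0 * 6912)
    rwa [smul_eq_mul, hA] at h1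
  refine IsWeightedHomogeneous.mul ?_ (IsWeightedHomogeneous.mul ?_ ?_)
  · have h1 := ((hd.C_mul a').add hb).pow s
    rwa [smul_eq_mul] at h1
  · refine IsWeightedHomogeneous.prod _ _ _ fun l _ => ?_
    refine IsWeightedHomogeneous.add ?_ ?_
    · have h1 := ((((hd.pow b).C_mul (a l)).add (hb.pow b)).C_mul (a l)).mul
        ((isWeightedHomogeneous_X ℤ w (Sum.inr (Sum.inl (Sum.inr l)) : Vr q Y)).pow R)
      rwa [smul_eq_mul, smul_eq_mul, hL2] at h1
    · have h1 := ((isWeightedHomogeneous_X ℤ w (Sum.inr (Sum.inl (Sum.inl l)) : Vr q Y)).pow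
        R).C_mul ((p : ℤ) ^ f l)
      rwa [smul_eq_mul, hL1] at h1
  · refine IsWeightedHomogeneous.prod _ _ _ fun y _ => ?_
    refine IsWeightedHomogeneous.add ?_ ?_
    · have h1 := (isWeightedHomogeneous_X ℤ w (Sum.inr (Sum.inr (Sum.inr y)) : Vr q Y)).pow (D y)
      rwa [smul_eq_mul, hM2] at h1
    · have h1 := ((isWeightedHomogeneous_X ℤ w (Sum.inr (Sum.inr (Sum.inl y)) : Vr q Y)).pow
        (D y)).C_mul (c * (p : ℤ) ^ ω y)
      rwa [smul_eq_mul, hM1] at h1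

theorem adm_PT {S R b s : ℕ} (hR : R = 6 * b) (hS : S = s + q * b) {D : Y → ℕ} {p e0 : ℕ}
    {f : Fin q → ℕ} {ω : Y → ℕ} {a : Fin q → ℤ} {a' c : ℤ} :
    Adm S R D (PT R b s D p e0 f ω a a' c) := by
  classical
  refine ⟨fun d hd => ?_, fun d hd l => ?_, fun d hd y => ?_⟩
  · have h1 := hom_PT (R := R) (b := b) (s := s) (D := D) (p := p) (e0 := e0) (f := f) (ω := ω)
      (a := a) (a' := a') (c := c)
      (w := (Sum.elim ![2, 3] (Sum.elim (Sum.elim (fun _ => 1) (fun _ => 0))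
        (Sum.elim (fun _ => 0) (fun _ => 0))) : Vr q Y → ℕ)) 6 rfl rfl (fun _ => R)
      (fun l => by simp) (fun l => by simp [hR, mul_comm]) (fun _ => 0) (fun y => by simp)
      (fun y => by simp) hd
    rw [Finsupp.weight_apply, Finsupp.sum_fintype _ _ (fun i => by simp)] at h1
    simp only [Fintype.sum_sum_type, Fin.sum_univ_two, Sum.elim_inl, Sum.elim_inr, smul_eq_mul,
      Matrix.cons_val_zero, Matrix.cons_val_one, mul_one, mul_zero, Finset.sum_const_zero,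
      add_zero, Finset.sum_const, Finset.card_univ, Fintype.card_fin] at h1
    rw [hS]
    have e1 : s * 6 + q * R = 6 * (s + q * b) := by
      rw [hR]
      ring
    rw [e1] at h1
    rw [← h1]
    ring
  · have h1 := hom_PT (R := R) (b := b) (s := s) (D := D) (p := p) (e0 := e0) (f := f) (ω := ω)
      (a := a) (a' := a') (c := c)
      (w := (Sum.elim (fun _ => 0) (Sum.elim (Sum.elim (Pi.single l 1) (Pi.single l 1))
        (Sum.elim (fun _ => 0) (fun _ => 0))) : Vr q Y → ℕ)) 0 rfl rfl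
      (fun l' => R * (Pi.single l 1 : Fin q → ℕ) l')
      (fun l' => by simp) (fun l' => by simp) (fun _ => 0) (fun y => by simp)
      (fun y => by simp) hd
    rw [Finsupp.weight_apply, Finsupp.sum_fintype _ _ (fun i => by simp)] at h1
    simp only [Fintype.sum_sum_type, Fin.sum_univ_two, Sum.elim_inl, Sum.elim_inr, smul_eq_mul,
      mul_zero, Finset.sum_const_zero, add_zero, zero_add, Pi.single_apply, mul_ite, mul_one,
      Finset.sum_ite_eq', Finset.mem_univ, if_true] at h1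
    exact h1
  · have h1 := hom_PT (R := R) (b := b) (s := s) (D := D) (p := p) (e0 := e0) (f := f) (ω := ω)
      (a := a) (a' := a') (c := c)
      (w := (Sum.elim (fun _ => 0) (Sum.elim (fun _ => 0)
        (Sum.elim (Pi.single y 1) (Pi.single y 1))) : Vr q Y → ℕ)) 0 rfl rfl (fun _ => 0)
      (fun l' => by simp) (fun l' => by simp) (fun y' => D y' * (Pi.single y 1 : Y → ℕ) y')
      (fun y => by simp) (fun y => by simp) hd
    rw [Finsupp.weight_apply, Finsupp.sum_fintype _ _ (fun i => by simp)] at h1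
    simp only [Fintype.sum_sum_type, Fin.sum_univ_two, Sum.elim_inl, Sum.elim_inr, smul_eq_mul,
      mul_zero, Finset.sum_const_zero, add_zero, zero_add, Pi.single_apply, mul_ite, mul_one,
      Finset.sum_ite_eq', Finset.mem_univ, if_true] at h1
    exact h1

end Pool.Agent.Y645.MX
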