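import Pool.Agent.TH971.SP.A2
import Pool.Agent.Y645.MX.Ev
import Mathlib.RingTheory.Nullstellensatz

/-!
Common zeros of polynomials with prescribed reductions: successive approximation and the
Nullstellensatz (helper file for Zilber-Pink for random pull-backs to
`ℰ^q × Y(1)^n × G_m^k`).
-/

set_option autoImplicit false
set_option linter.unusedSectionVars false

open MvPolynomial

namespace Pool.Agent.Y645.MX

open Pool.Agent.W282.ZP Pool.Agent.TH971.SP

variable (V : ValuationSubring ℂ) {ι : Type}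

theorem aeval_le1 (f : MvPolynomial ι ℤ) {y : ι → ℂ} (hy : ∀ i, V.valuation (y i) ≤ 1) :
    V.valuation (aeval y f) ≤ 1 := by
  induction f using MvPolynomial.induction_on with
  | C a =>
    rw [algHom_C, algebraMap_int_eq, eq_intCast]
    exact int_le V a
  | add f g hf hg =>
    rw [map_add]
    exact (Valuation.map_add _ _ _).trans (max_le hf hg)
  | mul_X f i hf =>
    rw [map_mul, aeval_X, map_mul]
    exact mul_le_one' hf (hy i)

theorem lip (f : MvPolynomial ι ℤ) {δ : V.ValueGroup} {y y' : ι → ℂ}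
    (hy : ∀ i, V.valuation (y i) ≤ 1) (hy' : ∀ i, V.valuation (y' i) ≤ 1)
    (h : ∀ i, V.valuation (y i - y' i) ≤ δ) : V.valuation (aeval y f - aeval y' f) ≤ δ := by
  induction f using MvPolynomial.induction_on with
  | C a =>
    rw [algHom_C, algHom_C, sub_self, map_zero]
    exact zero_le
  | add f g hf hg =>
    rw [map_add, map_add, add_sub_add_comm]
    exact (Valuation.map_add _ _ _).trans (max_le hf hg)
  | mul_X f i hf =>
    have h1 : aeval y (f * X i) - aeval y' (f * X i) =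
        (aeval y f - aeval y' f) * y i + aeval y' f * (y i - y' i) := by
      rw [map_mul, map_mul, aeval_X, aeval_X]
      ring
    rw [h1]
    refine (Valuation.map_add _ _ _).trans (max_le ?_ ?_)
    · rw [map_mul]
      exact (mul_le_of_le_one_right' (hy i)).trans hf
    · rw [map_mul]
      exact (mul_le_of_le_one_left' (aeval_le1 V f hy')).trans (h i)

theorem poly_bound {p : ℕ} (hp1 : V.valuation (p : ℂ) ≤ 1)
    (harch : ∀ z : ℂ, ∃ M : ℕ, V.valuation z * V.valuation (p : ℂ) ^ M ≤ 1)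
    (H : MvPolynomial ι ℂ) : ∃ N : ℕ, ∀ y : ι → ℂ, (∀ i, V.valuation (y i) ≤ 1) →
      V.valuation (eval y H) * V.valuation (p : ℂ) ^ N ≤ 1 := by
  induction H using MvPolynomial.induction_on with
  | C a =>
    obtain ⟨M, hM⟩ := harch a
    exact ⟨M, fun y _ => by rwa [eval_C]⟩
  | add f g hf hg =>
    obtain ⟨M, hM⟩ := hf
    obtain ⟨M', hM'⟩ := hg
    refine ⟨max M M', fun y hy => ?_⟩
    rw [map_add, ← map_pow, ← map_mul, add_mul]
    refine (Valuation.map_add _ _ _).trans (max_le ?_ ?_)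
    · rw [map_mul, map_pow]
      exact (mul_le_mul' le_rfl (pow_le_pow_right_of_le_one' hp1 (le_max_left _ _))).trans (hM y hy)
    · rw [map_mul, map_pow]
      exact (mul_le_mul' le_rfl (pow_le_pow_right_of_le_one' hp1 (le_max_right _ _))).trans
        (hM' y hy)
  | mul_X f i hf =>
    obtain ⟨M, hM⟩ := hf
    refine ⟨M, fun y hy => ?_⟩
    rw [map_mul, eval_X, map_mul, mul_right_comm]
    exact mul_le_one' (hM y hy) (hy i)

/-- Approximate zeros give zeros. -/
theorem nullst [Finite ι] {m : ℕ} {p : ℕ} (hp0 : p ≠ 0) (hp1 : V.valuation (p : ℂ) < 1)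
    (harch : ∀ z : ℂ, ∃ M : ℕ, V.valuation z * V.valuation (p : ℂ) ^ M ≤ 1)
    (F : Fin m → MvPolynomial ι ℂ) (g : MvPolynomial ι ℂ)
    (happ : ∀ t : ℕ, ∃ y : ι → ℂ, (∀ i, V.valuation (y i) ≤ 1) ∧ V.valuation (eval y g) = 1 ∧
      ∀ j, V.valuation (eval y (F j)) ≤ V.valuation (p : ℂ) ^ (t + 1)) :
    ∃ y : ι → ℂ, (∀ j, eval y (F j) = 0) ∧ eval y g ≠ 0 := by
  by_contra hcon
  push Not at hcon
  set v := V.valuation with hv
  have hpv0 : v (p : ℂ) ≠ 0 := (map_ne_zero v).2 (by exact_mod_cast hp0)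
  have hpos : 0 < v (p : ℂ) := zero_lt_iff.2 hpv0
  have h1 : g ∈ (Ideal.span (Set.range F)).radical := by
    rw [← vanishingIdeal_zeroLocus_eq_radical (K := ℂ), mem_vanishingIdeal_iff]
    intro y hy
    rw [aeval_eq_eval]
    refine hcon y fun j => ?_
    have h2 := hy (F j) (Ideal.subset_span ⟨j, rfl⟩)
    rwa [aeval_eq_eval] at h2
  obtain ⟨M, hM⟩ := h1
  obtain ⟨H, hH⟩ := Ideal.mem_span_range_iff_exists_fun.1 hM
  have hb := fun j => poly_bound V hp1.le harch (H j)
  choose N hN using hb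
  set N₀ : ℕ := ∑ j, N j with hN₀
  have hN' : ∀ j y, (∀ i, v (y i) ≤ 1) → v (eval y (H j)) * v (p : ℂ) ^ N₀ ≤ 1 := by
    intro j y hy
    refine (mul_le_mul' le_rfl (pow_le_pow_right_of_le_one' hp1.le ?_)).trans (hN j y hy)
    exact Finset.single_le_sum (f := N) (fun _ _ => Nat.zero_le _) (Finset.mem_univ j)
  obtain ⟨y, hy, hg, hF⟩ := happ N₀
  have h2 : v (eval y (g ^ M) * (p : ℂ) ^ N₀) = v (p : ℂ) ^ N₀ := by
    rw [map_mul, map_pow (eval y), map_pow v, hg, one_pow, one_mul, map_pow]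
  have h3 : v (eval y (g ^ M) * (p : ℂ) ^ N₀) ≤ v (p : ℂ) ^ (N₀ + 1) := by
    rw [← hH, map_sum, Finset.sum_mul]
    refine Valuation.map_sum_le v fun j _ => ?_
    rw [map_mul, map_mul, map_mul, map_pow, mul_right_comm]
    exact (mul_le_of_le_one_left' (hN' j y hy)).trans (hF j)
  rw [h2] at h3
  exact absurd h3 (not_le.2 (pow_lt_pow_right_of_lt_one₀ hpos hp1 (Nat.lt_succ_self _)))

/-- Successive approximation. -/
theorem approx {π : V.ValueGroup} {π0 : ℂ} (hπ0 : V.valuation π0 = π)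
    (ys : ι → ℂ) (H : ι → (ι → ℂ) → ℂ)
    (hH1 : ∀ i y, (∀ i, V.valuation (y i - ys i) ≤ π) → V.valuation (H i y) ≤ 1)
    (hH2 : ∀ i y y' δ, (∀ i, V.valuation (y i - ys i) ≤ π) →
      (∀ i, V.valuation (y' i - ys i) ≤ π) → (∀ i, V.valuation (y i - y' i) ≤ δ) →
      V.valuation (H i y - H i y') ≤ δ) (t : ℕ) :
    ∃ y : ι → ℂ, (∀ i, V.valuation (y i - ys i) ≤ π) ∧
      ∀ i, V.valuation (y i - ys i + π0 * H i y) ≤ π ^ (t + 1) := by
  suffices h : ∀ t : ℕ, ∃ y : ι → ℂ, (∀ i, V.valuation (y i - ys i) ≤ π) ∧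
      ∀ i, V.valuation (y i - (ys i - π0 * H i y)) ≤ π ^ (t + 1) by
    obtain ⟨y, h1, h2⟩ := h t
    refine ⟨y, h1, fun i => ?_⟩
    have h3 := h2 i
    rwa [show y i - (ys i - π0 * H i y) = y i - ys i + π0 * H i y by ring] at h3
  intro t
  induction t with
  | zero =>
    refine ⟨ys, fun i => by rw [sub_self, map_zero]; exact zero_le, fun i => ?_⟩
    have h1 : ys i - (ys i - π0 * H i ys) = π0 * H i ys := by ring
    rw [h1, map_mul, hπ0, zero_add, pow_one]
    exact mul_le_of_le_one_right' (hH1 i ys fun i => by rw [sub_self, map_zero]; exact zero_le)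
  | succ t ih =>
    obtain ⟨y, h1, h2⟩ := ih
    have h3 : ∀ i, V.valuation ((ys i - π0 * H i y) - ys i) ≤ π := by
      intro i
      have h1' : (ys i - π0 * H i y) - ys i = -(π0 * H i y) := by ring
      rw [h1', Valuation.map_neg, map_mul, hπ0]
      exact mul_le_of_le_one_right' (hH1 i y h1)
    refine ⟨fun i => ys i - π0 * H i y, h3, fun i => ?_⟩
    have h4 : (ys i - π0 * H i y) - (ys i - π0 * H i fun i => ys i - π0 * H i y) =
        -(π0 * (H i y - H i fun i => ys i - π0 * H i y)) := by ring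
    rw [h4, Valuation.map_neg, map_mul, hπ0, pow_succ']
    exact mul_le_mul' le_rfl (hH2 i y _ _ h1 h3 h2)

end Pool.Agent.Y645.MX
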