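import Pool.Agent.Y645.MX.Ne1
import Pool.Agent.Y645.MX.Dim

/-!
The pull-backs are not empty (helper file for Zilber-Pink for random pull-backs to
`ℰ^q × Y(1)^n × G_m^k`).
-/

set_option autoImplicit false
set_option linter.unusedSectionVars false

open MvPolynomial

namespace Pool.Agent.Y645.MX

open Pool.Agent.W282.ZP Pool.Agent.TH971.SP Pool.Agent.W466.EP Pool.Agent.TH971.RF

variable {m q S R : ℕ} {Y : Type} [Fintype Y] [DecidableEq Y] {D : Y → ℕ}

/-- the parameters -/
abbrev Px (q : ℕ) (Y : Type) : Type := Option (Fin q ⊕ Y)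

/-- the monomials in terms of the parameters -/
noncomputable def moP (x : Ex q S R D) : MvPolynomial (Px q Y) ℤ :=
  X none ^ (x.1.1 : ℕ) * X none ^ (x.1.2.1 : ℕ) *
    ((∏ l, (X none * X (some (Sum.inl l))) ^ (x.1.2.2.1 l : ℕ)) *
      ∏ y, X (some (Sum.inr y)) ^ (x.1.2.2.2 y : ℕ))

/-- the polynomials in terms of the parameters -/
noncomputable def evP (c : Ex q S R D → ℤ) : MvPolynomial (Px q Y) ℤ := ∑ x, C (c x) * moP x

theorem aeval_moP (x : Ex q S R D) (y : Px q Y → ℂ) :
    aeval y (moP x) = mo x (y none) (y none)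
      (fun l => (y none * y (some (Sum.inl l)), 1)) (fun z => (y (some (Sum.inr z)), 1)) := by
  rw [moP, mo]
  simp only [map_mul, map_pow, map_prod, aeval_X, one_pow, mul_one]

theorem aeval_evP (c : Ex q S R D → ℤ) (y : Px q Y → ℂ) :
    aeval y (evP c) = ev c (y none) (y none)
      (fun l => (y none * y (some (Sum.inl l)), 1)) (fun z => (y (some (Sum.inr z)), 1)) := by
  rw [evP, ev, map_sum]
  refine Finset.sum_congr rfl fun x _ => ?_
  rw [map_mul, aeval_moP, algHom_C, algebraMap_int_eq, eq_intCast]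

theorem evP_lin (c t G : Ex q S R D → ℤ) (a : ℤ) (h : ∀ x, c x = t x + a * G x) :
    evP c = evP t + C a * evP G := by
  rw [evP, evP, evP, Finset.mul_sum, ← Finset.sum_add_distrib]
  refine Finset.sum_congr rfl fun x _ => ?_
  rw [h, C_add, C_mul]
  ring

open Classical in
theorem evP_single (x₀ : Ex q S R D) : evP (fun x => if x = x₀ then 1 else 0) = moP x₀ := by
  rw [evP, Finset.sum_eq_single x₀]
  · rw [if_pos rfl, C_1, one_mul]
  · intro x _ hx
    rw [if_neg hx, C_0, zero_mul]
  · intro h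
    exact absurd (Finset.mem_univ _) h

/-- the monomial `A³ B^(2S-2)` or `B^(2S)` or `X_l A B^(2S-1)` or `y B^(2S)` -/
theorem exists_mono (hS0 : 0 < S) (hR0 : 0 < R) (hD : ∀ y, 0 < D y) (j : Px q Y) :
    ∃ (x x' : Ex q S R D) (e : ℕ), (moP x' : MvPolynomial (Px q Y) ℤ) = X none ^ e ∧
      (moP x : MvPolynomial (Px q Y) ℤ) = X j * X none ^ e := by
  have hB : ∃ x : Ex q S R D, (moP x : MvPolynomial (Px q Y) ℤ) = X none ^ (2 * S) := by
    refine ⟨⟨(⟨0, by omega⟩, ⟨2 * S, by omega⟩, fun _ => ⟨0, by omega⟩, fun y => ⟨0, by omega⟩),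
      ?_⟩, ?_⟩
    · simp only [Finset.sum_const_zero]
      omega
    · rw [moP]
      simp only [pow_zero, Finset.prod_const_one, one_mul, mul_one]
  have hA : ∃ x : Ex q S R D, (moP x : MvPolynomial (Px q Y) ℤ) = X none ^ (2 * S + 1) := by
    refine ⟨⟨(⟨3, by omega⟩, ⟨2 * S - 2, by omega⟩, fun _ => ⟨0, by omega⟩,
      fun y => ⟨0, by omega⟩), ?_⟩, ?_⟩
    · simp only [Finset.sum_const_zero]
      omega
    · rw [moP]
      simp only [pow_zero, Finset.prod_const_one, mul_one]
      rw [← pow_add]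
      congr 1
      omega
  obtain ⟨xB, hxB⟩ := hB
  obtain ⟨xA, hxA⟩ := hA
  rcases j with _ | (l | y)
  · exact ⟨xA, xB, 2 * S, hxB, by rw [hxA, pow_succ, mul_comm]⟩
  · refine ⟨⟨(⟨1, by omega⟩, ⟨2 * S - 1, by omega⟩,
      fun l' => if l' = l then ⟨1, by omega⟩ else ⟨0, by omega⟩, fun y => ⟨0, by omega⟩), ?_⟩, xA,
      2 * S + 1, hxA, ?_⟩
    · have h1 : ∑ l' : Fin q, (((if l' = l then (⟨1, by omega⟩ : Fin (R + 1)) else
          (⟨0, by omega⟩ : Fin (R + 1))) : Fin (R + 1)) : ℕ) = 1 := by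
        rw [Finset.sum_eq_single l]
        · rw [if_pos rfl]
        · intro l' _ hl
          rw [if_neg hl]
        · intro h
          exact absurd (Finset.mem_univ _) h
      simp only
      rw [h1]
      omega
    · rw [moP]
      have h1 : ∏ l' : Fin q, ((X none : MvPolynomial (Px q Y) ℤ) * X (some (Sum.inl l'))) ^
          ((((if l' = l then (⟨1, by omega⟩ : Fin (R + 1)) else
          (⟨0, by omega⟩ : Fin (R + 1))) : Fin (R + 1)) : ℕ)) = X none * X (some (Sum.inl l)) := by
        rw [Finset.prod_eq_single l]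
        · rw [if_pos rfl, pow_one]
        · intro l' _ hl
          rw [if_neg hl, pow_zero]
        · intro h
          exact absurd (Finset.mem_univ _) h
      simp only [pow_zero, Finset.prod_const_one, mul_one, pow_one]
      rw [h1]
      obtain ⟨S', rfl⟩ : ∃ S', S = S' + 1 := ⟨S - 1, by omega⟩
      rw [show 2 * (S' + 1) - 1 = 2 * S' + 1 by omega]
      ring
  · refine ⟨⟨(⟨0, by omega⟩, ⟨2 * S, by omega⟩, fun _ => ⟨0, by omega⟩,
      fun y' => if h : y' = y then ⟨1, by rw [h]; have := hD y; omega⟩ else ⟨0, by omega⟩), ?_⟩, xB,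
      2 * S, hxB, ?_⟩
    · simp only [Finset.sum_const_zero]
      omega
    · rw [moP]
      have h1 : ∏ y' : Y, (X (some (Sum.inr y')) : MvPolynomial (Px q Y) ℤ) ^
          ((((if h : y' = y then (⟨1, by rw [h]; have := hD y; omega⟩ : Fin (D y' + 1)) else
          (⟨0, by omega⟩ : Fin (D y' + 1))) : Fin (D y' + 1)) : ℕ)) = X (some (Sum.inr y)) := by
        rw [Finset.prod_eq_single y]
        · rw [dif_pos rfl, pow_one]
        · intro y' _ hy
          rw [dif_neg hy, pow_zero]
        · intro h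
          exact absurd (Finset.mem_univ _) h
      simp only [pow_zero, Finset.prod_const_one, one_mul]
      rw [h1, mul_comm]

end Pool.Agent.Y645.MX
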