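import Pool.Agent.Y645.MX.Ne2

/-!
The pull-backs are not empty (helper file for Zilber-Pink for random pull-backs to
`ℰ^q × Y(1)^n × G_m^k`).
-/

set_option autoImplicit false
set_option linter.unusedSectionVars false

open MvPolynomial

namespace Pool.Agent.Y645.MX

open Pool.Agent.W282.ZP Pool.Agent.TH971.SP Pool.Agent.W466.EP Pool.Agent.TH971.RF

variable {m q S R : ℕ} {Y : Type} [Fintype Y] [DecidableEq Y] {D : Y → ℕ}

theorem exists_shift (z : ℂ) : ∃ a : ℕ, z + a ≠ 0 ∧ 4 * (z + a) + 27 ≠ 0 := by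
  by_contra h
  push Not at h
  have h0 := h 0
  have h1 := h 1
  have h2 := h 2
  push_cast at h0 h1 h2
  by_cases e0 : z + 0 = 0
  · have e1 : z + 1 ≠ 0 := by
      intro e1
      have : (1 : ℂ) = 0 := by linear_combination e1 - e0
      exact one_ne_zero this
    have := h1 e1
    have h3 : (31 : ℂ) = 0 := by linear_combination this - 4 * e0
    norm_num at h3
  · have e2 := h0 e0
    by_cases e1 : z + 1 = 0
    · have h3 : (23 : ℂ) = 0 := by linear_combination e2 - 4 * e1
      norm_num at h3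
    · have h3 := h1 e1
      have h4 : (4 : ℂ) = 0 := by linear_combination h3 - e2
      norm_num at h4

theorem eval_mapC {ι : Type} (f : MvPolynomial ι ℤ) (y : ι → ℂ) :
    eval y (MvPolynomial.map (Int.castRingHom ℂ) f) = aeval y f := by
  rw [eval_map, aeval_def]
  rfl

/-- Points with a prescribed image. -/
theorem exists_pt (hS0 : 0 < S) (hR0 : 0 < R) (hD : ∀ y, 0 < D y) (ψ : Fin m ↪ Px q Y)
    (w : Fin m → ℂ) (Q₀ : ℕ) (hQ₀ : 0 < Q₀) (c₀ : Fin m × Fin 2 × Ex q S R D → ℤ) :
    ∃ (Q₁ : ℕ) (c₁ : Fin m × Fin 2 × Ex q S R D → ℤ), 0 < Q₁ ∧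
      ∀ c : Fin m × Fin 2 × Ex q S R D → ℤ, (∀ i, (Q₁ : ℤ) ∣ c i - c₁ i) →
        (∀ i, (Q₀ : ℤ) ∣ c i - c₀ i) ∧
        ∃ y : Px q Y → ℂ, y none ≠ 0 ∧ 4 * y none + 27 ≠ 0 ∧
          (∀ z, y (some (Sum.inr z)) ≠ 0) ∧
          ∀ j, aeval y (evP fun x => c (j, 1, x)) ≠ 0 ∧
            aeval y (evP fun x => c (j, 0, x)) = w j * aeval y (evP fun x => c (j, 1, x)) := by
  classical
  have ha := fun j => exists_shift (w j)
  choose a ha1 ha2 using ha
  let s₀ : Finset ℂ := (Finset.univ.image w ∪ Finset.univ.image fun j => w j + a j) ∪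
    Finset.univ.image fun j => 4 * (w j + a j) + 27
  obtain ⟨t, htau, halg⟩ := exists_tau s₀
  set τ : t → ℂ := ((↑) : t → ℂ) with hτ
  obtain ⟨D₁, hD₁, hunit⟩ := const_unit (τ := τ) s₀ halg
  obtain ⟨p, hpge, hp⟩ := Nat.exists_infinite_primes (D₁ + Q₀ + 32)
  obtain ⟨V, hV⟩ := exists_good τ htau hp
  set v := V.valuation with hv
  have hpC : (p : ℂ) ≠ 0 := by exact_mod_cast hp.ne_zero
  have hpv0 : v (p : ℂ) ≠ 0 := (map_ne_zero v).2 hpC
  have hp1 : v (p : ℂ) < 1 := hV.lt
  have hpD : ¬ p ∣ D₁ := fun h => by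
    have := Nat.le_of_dvd hD₁ h
    omega
  have hw1 : ∀ j, v (w j) ≤ 1 := by
    intro j
    by_cases h0 : w j = 0
    · rw [h0, map_zero]
      exact zero_le_one
    · exact (hunit p hpD V hV _ (Finset.mem_union_left _ (Finset.mem_union_left _
        (Finset.mem_image_of_mem _ (Finset.mem_univ j)))) h0).le
  have hw2 : ∀ j, v (w j + a j) = 1 := fun j =>
    hunit p hpD V hV _ (Finset.mem_union_left _ (Finset.mem_union_right _
      (Finset.mem_image_of_mem (fun j => w j + a j) (Finset.mem_univ j)))) (ha1 j)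
  have hw3 : ∀ j, v (4 * (w j + a j) + 27) = 1 := fun j =>
    hunit p hpD V hV _ (Finset.mem_union_right _
      (Finset.mem_image_of_mem (fun j => 4 * (w j + a j) + 27) (Finset.mem_univ j))) (ha2 j)
  -- the base point
  set ys : Px q Y → ℂ := Function.extend ψ (fun j => w j + a j) (fun _ => 1) with hys
  have hys1 : ∀ j, ys (ψ j) = w j + a j := fun j => ψ.injective.extend_apply _ _ j
  have hys2 : ∀ i, (¬ ∃ j, ψ j = i) → ys i = 1 := fun i hi => Function.extend_apply' _ _ i hi
  have hyu : ∀ i, v (ys i) = 1 := by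
    intro i
    by_cases hi : ∃ j, ψ j = i
    · obtain ⟨j, rfl⟩ := hi
      rw [hys1]
      exact hw2 j
    · rw [hys2 i hi, map_one]
  have hyu' : ∀ i, v (4 * ys i + 27) = 1 := by
    intro i
    by_cases hi : ∃ j, ψ j = i
    · obtain ⟨j, rfl⟩ := hi
      rw [hys1]
      exact hw3 j
    · rw [hys2 i hi]
      have h1 := val_int_unit V hp hp1 (a := 31) (by
        intro h
        have h3 : p ∣ 31 := by exact_mod_cast h
        have := Nat.le_of_dvd (by norm_num) h3
        omega)
      have h2 : (4 * 1 + 27 : ℂ) = ((31 : ℤ) : ℂ) := by norm_num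
      rw [h2]
      exact h1
  -- the targets
  have hmo := fun j => exists_mono (S := S) hS0 hR0 hD (ψ j)
  choose x x' e hx' hx using hmo
  let t0 : Fin m → Ex q S R D → ℤ := fun j z =>
    (if z = x j then 1 else 0) + (-(a j : ℤ)) * (if z = x' j then 1 else 0)
  let t1 : Fin m → Ex q S R D → ℤ := fun j z => if z = x' j then 1 else 0
  have ht1 : ∀ j, evP (t1 j) = X none ^ e j := fun j => by rw [evP_single, hx']
  have ht0 : ∀ j, evP (t0 j) = X (ψ j) * X none ^ e j + C (-(a j : ℤ)) * X none ^ e j := by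
    intro j
    rw [evP_lin (t0 j) (fun z => if z = x j then 1 else 0) (fun z => if z = x' j then 1 else 0)
      (-(a j : ℤ)) (fun z => rfl), evP_single, evP_single, hx', hx]
  obtain ⟨Q, G, hQ, hclass⟩ := exists_residue_class' (κ := Fin m × Fin 2 × Ex q S R D) (M := 1)
    (fun _ => p) (fun _ => hp) (fun i i' _ => Subsingleton.elim _ _) (fun _ _ => 1)
    (fun _ z => if z.2.1 = 0 then t0 z.1 z.2.2 else t1 z.1 z.2.2) Q₀ hQ₀
    (fun _ => by omega) c₀
  refine ⟨Q, G, hQ, fun c hc => ?_⟩
  obtain ⟨hc0, hcm⟩ := hclass c hc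
  refine ⟨hc0, ?_⟩
  have hG0 : ∀ (j : Fin m) (z : Ex q S R D), ∃ g : ℤ, c (j, 0, z) = t0 j z + p * g := by
    intro j z
    obtain ⟨g, hg⟩ := hcm 0 (j, 0, z)
    refine ⟨g, ?_⟩
    rw [if_pos rfl, pow_one] at hg
    linear_combination hg
  have hG1 : ∀ (j : Fin m) (z : Ex q S R D), ∃ g : ℤ, c (j, 1, z) = t1 j z + p * g := by
    intro j z
    obtain ⟨g, hg⟩ := hcm 0 (j, 1, z)
    refine ⟨g, ?_⟩
    rw [if_neg (by simp), pow_one] at hg
    linear_combination hg
  choose g0 hg0 using hG0
  choose g1 hg1 using hG1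
  have hC : ∀ (y : Px q Y → ℂ) (z : ℤ), aeval y (C z : MvPolynomial (Px q Y) ℤ) = (z : ℂ) := by
    intro y z
    rw [algHom_C, algebraMap_int_eq, eq_intCast]
  have hN : ∀ j (y : Px q Y → ℂ), aeval y (evP fun z => c (j, 0, z)) =
      (y (ψ j) - a j) * y none ^ e j + p * aeval y (evP (g0 j)) := by
    intro j y
    rw [evP_lin _ (t0 j) (g0 j) p (hg0 j), ht0, map_add, map_add, map_mul, map_mul, map_mul,
      map_pow, aeval_X, aeval_X, hC, hC]
    push_cast
    ring
  have hDn : ∀ j (y : Px q Y → ℂ), aeval y (evP fun z => c (j, 1, z)) =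
      y none ^ e j + p * aeval y (evP (g1 j)) := by
    intro j y
    rw [evP_lin _ (t1 j) (g1 j) p (hg1 j), ht1, map_add, map_mul, map_pow, aeval_X, hC]
    push_cast
    ring
  -- near the base point
  have hnear : ∀ {y : Px q Y → ℂ}, (∀ i, v (y i - ys i) ≤ v (p : ℂ)) → ∀ i, v (y i) = 1 := by
    intro y hy i
    have h1 : y i = ys i + (y i - ys i) := by ring
    rw [h1, Valuation.map_add_eq_of_lt_left, hyu]
    rw [hyu]
    exact (hy i).trans_lt hp1
  have hnear' : ∀ {y : Px q Y → ℂ}, (∀ i, v (y i - ys i) ≤ v (p : ℂ)) →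
      ∀ i, v (4 * y i + 27) = 1 := by
    intro y hy i
    have h1 : 4 * y i + 27 = (4 * ys i + 27) + 4 * (y i - ys i) := by ring
    rw [h1, Valuation.map_add_eq_of_lt_left, hyu']
    rw [hyu', map_mul]
    have h2 : v (4 : ℂ) ≤ 1 := by
      have := int_le V 4
      exact_mod_cast this
    exact (mul_le_of_le_one_left' h2).trans_lt ((hy i).trans_lt hp1)
  let H : Px q Y → (Px q Y → ℂ) → ℂ := fun i y => Function.extend ψ
    (fun j => (aeval y (evP (g0 j)) - w j * aeval y (evP (g1 j))) / y none ^ e j) (fun _ => 0) i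
  have hHj : ∀ j y, H (ψ j) y = (aeval y (evP (g0 j)) - w j * aeval y (evP (g1 j))) /
      y none ^ e j := fun j y => ψ.injective.extend_apply _ _ j
  have hHi : ∀ i, (¬ ∃ j, ψ j = i) → ∀ y, H i y = 0 := fun i hi y =>
    Function.extend_apply' _ _ i hi
  have hnum : ∀ j {y : Px q Y → ℂ}, (∀ i, v (y i) ≤ 1) →
      v (aeval y (evP (g0 j)) - w j * aeval y (evP (g1 j))) ≤ 1 := by
    intro j y hy
    refine (Valuation.map_sub _ _ _).trans (max_le (aeval_le1 V _ hy) ?_)
    rw [map_mul]
    exact mul_le_one' (hw1 j) (aeval_le1 V _ hy)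
  have happ := approx V (π := v (p : ℂ)) (π0 := (p : ℂ)) rfl ys H
    (by
      intro i y hy
      have hy1 := hnear hy
      by_cases hi : ∃ j, ψ j = i
      · obtain ⟨j, rfl⟩ := hi
        rw [hHj, map_div₀, map_pow, hy1, one_pow, div_one]
        exact hnum j fun i => (hy1 i).le
      · rw [hHi i hi, map_zero]
        exact zero_le)
    (by
      intro i y y' δ hy hy' hyy
      have hy1 := hnear hy
      have hy1' := hnear hy'
      by_cases hi : ∃ j, ψ j = i
      · obtain ⟨j, rfl⟩ := hi
        rw [hHj, hHj]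
        have hy0 : y none ^ e j ≠ 0 := by
          intro h
          have h1 := hy1 none
          have h2 := congrArg v h
          rw [map_pow, h1, one_pow, map_zero] at h2
          exact one_ne_zero h2
        have hy0' : y' none ^ e j ≠ 0 := by
          intro h
          have h1 := hy1' none
          have h2 := congrArg v h
          rw [map_pow, h1, one_pow, map_zero] at h2
          exact one_ne_zero h2
        have h1 : (aeval y (evP (g0 j)) - w j * aeval y (evP (g1 j))) / y none ^ e j -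
            (aeval y' (evP (g0 j)) - w j * aeval y' (evP (g1 j))) / y' none ^ e j =
            (((aeval y (evP (g0 j)) - aeval y' (evP (g0 j))) -
              w j * (aeval y (evP (g1 j)) - aeval y' (evP (g1 j)))) * y' none ^ e j -
              (aeval y' (evP (g0 j)) - w j * aeval y' (evP (g1 j))) *
                (y none ^ e j - y' none ^ e j)) / (y none ^ e j * y' none ^ e j) := by
          field_simp
          ring
        rw [h1, map_div₀, map_mul v (y none ^ e j), map_pow, map_pow, hy1, hy1', one_pow, one_mul,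
          div_one]
        have hle : ∀ i, v (y i) ≤ 1 := fun i => (hy1 i).le
        have hle' : ∀ i, v (y' i) ≤ 1 := fun i => (hy1' i).le
        refine (Valuation.map_sub _ _ _).trans (max_le ?_ ?_)
        · rw [map_mul, map_pow, hy1', one_pow, mul_one]
          refine (Valuation.map_sub _ _ _).trans (max_le (lip V _ hle hle' hyy) ?_)
          rw [map_mul]
          exact (mul_le_of_le_one_left' (hw1 j)).trans (lip V _ hle hle' hyy)
        · rw [map_mul]
          refine (mul_le_of_le_one_left' (hnum j hle')).trans ?_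
          have h2 := lip V (X none ^ e j : MvPolynomial (Px q Y) ℤ) hle hle' hyy
          simpa using h2
      · rw [hHi i hi, hHi i hi, sub_zero, map_zero]
        exact zero_le)
  have hDu : ∀ j {y : Px q Y → ℂ}, (∀ i, v (y i - ys i) ≤ v (p : ℂ)) →
      v (aeval y (evP fun z => c (j, 1, z))) = 1 := by
    intro j y hy
    have hy1 := hnear hy
    rw [hDn, Valuation.map_add_eq_of_lt_left, map_pow, hy1, one_pow]
    rw [map_pow, hy1, one_pow, map_mul]
    exact (mul_le_of_le_one_right' (aeval_le1 V _ fun i => (hy1 i).le)).trans_lt hp1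
  set g : MvPolynomial (Px q Y) ℂ :=
    X none * (C 4 * X none + C 27) * (∏ z : Y, X (some (Sum.inr z))) *
      ∏ j, MvPolynomial.map (Int.castRingHom ℂ) (evP fun z => c (j, 1, z)) with hgdef
  have hgv : ∀ y : Px q Y → ℂ, eval y g = y none * (4 * y none + 27) *
      (∏ z : Y, y (some (Sum.inr z))) * ∏ j, aeval y (evP fun z => c (j, 1, z)) := by
    intro y
    rw [hgdef, map_mul, map_mul, map_mul, map_add, map_mul, eval_C, eval_C, eval_X, map_prod,
      map_prod]
    congr 1
    · congr 1
      exact Finset.prod_congr rfl fun z _ => eval_X _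
    · exact Finset.prod_congr rfl fun j _ => eval_mapC _ _
  obtain ⟨y, hF, hg⟩ := nullst V hp.ne_zero hp1 hV.arch
    (fun j => MvPolynomial.map (Int.castRingHom ℂ) (evP fun z => c (j, 0, z)) -
      C (w j) * MvPolynomial.map (Int.castRingHom ℂ) (evP fun z => c (j, 1, z))) g
    (by
      intro t
      obtain ⟨y, hy, hyt⟩ := happ t
      have hy1 := hnear hy
      refine ⟨y, fun i => (hy1 i).le, ?_, ?_⟩
      · rw [hgv, ← hv, map_mul, map_mul, map_mul, map_prod, map_prod, hy1, hnear' hy, one_mul,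
          one_mul, Finset.prod_eq_one fun z _ => hy1 (some (Sum.inr z)), one_mul]
        exact Finset.prod_eq_one fun j _ => hDu j hy
      · intro j
        rw [map_sub, map_mul, eval_C, eval_mapC, eval_mapC, hN, hDn]
        have hy0 : y none ^ e j ≠ 0 := by
          intro h
          have h1 := hy1 none
          have h2 := congrArg v h
          rw [map_pow, h1, one_pow, map_zero] at h2
          exact one_ne_zero h2
        have h1 : (y (ψ j) - a j) * y none ^ e j + p * aeval y (evP (g0 j)) -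
            w j * (y none ^ e j + p * aeval y (evP (g1 j))) =
            y none ^ e j * (y (ψ j) - ys (ψ j) + p * H (ψ j) y) := by
          rw [hHj, hys1]
          field_simp
          ring
        rw [h1, ← hv, map_mul, map_pow, hy1, one_pow, one_mul]
        exact hyt (ψ j))
  rw [hgv] at hg
  have hg1 := left_ne_zero_of_mul hg
  have hg2 := right_ne_zero_of_mul hg
  have hg3 := left_ne_zero_of_mul hg1
  have hg4 := right_ne_zero_of_mul hg1
  refine ⟨y, left_ne_zero_of_mul hg3, right_ne_zero_of_mul hg3,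
    fun z => Finset.prod_ne_zero_iff.1 hg4 z (Finset.mem_univ z), fun j =>
    ⟨Finset.prod_ne_zero_iff.1 hg2 j (Finset.mem_univ j), ?_⟩⟩
  have h1 := hF j
  rwa [map_sub, map_mul, eval_C, eval_mapC, eval_mapC, sub_eq_zero] at h1

end Pool.Agent.Y645.MX
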