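import Pool.Agent.Y645.MX.Br3
import Pool.Agent.TH971.SR.R2
import Pool.Agent.TH971.RF.C3

/-!
Normalization of the coordinates at one place (helper file for Zilber-Pink for random
pull-backs to fibre powers of the universal elliptic curve).
-/

set_option autoImplicit false
set_option linter.unusedSectionVars false

open MvPolynomial

namespace Pool.Agent.Y645.MX

open Pool.Agent.W282.ZP Pool.Agent.TH971.SP Pool.Agent.W466.EP Pool.Agent.TH971.RF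

theorem exists_scale (V : ValuationSubring ℂ) (x z : ℂ) (h : ¬ (x = 0 ∧ z = 0)) {n : ℕ}
    (hn : 0 < n) : ∃ ρ : ℂ, ρ ≠ 0 ∧
      max (V.valuation (ρ ^ n * x)) (V.valuation (ρ ^ n * z)) = 1 := by
  set v := V.valuation with hv
  rcases le_total (v x) (v z) with h1 | h1
  · have hz : z ≠ 0 := by
      rintro rfl
      rw [map_zero, le_zero_iff, map_eq_zero] at h1
      exact h ⟨h1, rfl⟩
    obtain ⟨ρ, hρ⟩ := IsAlgClosed.exists_pow_nat_eq (z⁻¹) hn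
    refine ⟨ρ, ?_, ?_⟩
    · rintro rfl
      rw [zero_pow hn.ne'] at hρ
      exact inv_ne_zero hz hρ.symm
    · rw [hρ, map_mul, map_mul]
      have h2 : v z⁻¹ * v z = 1 := by rw [← map_mul, inv_mul_cancel₀ hz, map_one]
      rw [h2]
      exact max_eq_right ((mul_le_mul_right h1 _).trans h2.le)
  · have hx : x ≠ 0 := by
      rintro rfl
      rw [map_zero, le_zero_iff, map_eq_zero] at h1
      exact h ⟨rfl, h1⟩
    obtain ⟨ρ, hρ⟩ := IsAlgClosed.exists_pow_nat_eq (x⁻¹) hn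
    refine ⟨ρ, ?_, ?_⟩
    · rintro rfl
      rw [zero_pow hn.ne'] at hρ
      exact inv_ne_zero hx hρ.symm
    · rw [hρ, map_mul, map_mul]
      have h2 : v x⁻¹ * v x = 1 := by rw [← map_mul, inv_mul_cancel₀ hx, map_one]
      rw [h2]
      exact max_eq_left ((mul_le_mul_right h1 _).trans h2.le)

variable {m q S R b s d : ℕ} {Y : Type} [Fintype Y] [DecidableEq Y] {D : Y → ℕ}

theorem mo_scale (x : Ex q S R D) (A B : ℂ) (g : Fin q → ℂ × ℂ) (h : Y → ℂ × ℂ) (μ : ℂ)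
    (ρ : Fin q → ℂ) (σ : Y → ℂ) :
    mo x (μ ^ 4 * A) (μ ^ 6 * B) (fun l => (ρ l * (μ ^ 2 * (g l).1), ρ l * (g l).2))
      (fun y => (σ y * (h y).1, σ y * (h y).2)) =
      (μ ^ (12 * S) * ((∏ l, ρ l ^ R) * ∏ y, σ y ^ D y)) * mo x A B g h := by
  have hx := x.2
  have h1 : ∀ l : Fin q, (ρ l * (μ ^ 2 * (g l).1)) ^ (x.1.2.2.1 l : ℕ) *
      (ρ l * (g l).2) ^ (R - (x.1.2.2.1 l : ℕ)) = ρ l ^ R * ((μ ^ 2) ^ (x.1.2.2.1 l : ℕ) *
      ((g l).1 ^ (x.1.2.2.1 l : ℕ) * (g l).2 ^ (R - (x.1.2.2.1 l : ℕ)))) := by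
    intro l
    have h2 : ρ l ^ R = ρ l ^ (x.1.2.2.1 l : ℕ) * ρ l ^ (R - (x.1.2.2.1 l : ℕ)) := by
      rw [← pow_add, Nat.add_sub_cancel' (Nat.lt_succ_iff.1 (x.1.2.2.1 l).2)]
    rw [h2, mul_pow, mul_pow, mul_pow]
    ring
  have h2 : ∀ y : Y, (σ y * (h y).1) ^ (x.1.2.2.2 y : ℕ) *
      (σ y * (h y).2) ^ (D y - (x.1.2.2.2 y : ℕ)) = σ y ^ D y *
      ((h y).1 ^ (x.1.2.2.2 y : ℕ) * (h y).2 ^ (D y - (x.1.2.2.2 y : ℕ))) := by
    intro y
    have h2 : σ y ^ D y = σ y ^ (x.1.2.2.2 y : ℕ) * σ y ^ (D y - (x.1.2.2.2 y : ℕ)) := by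
      rw [← pow_add, Nat.add_sub_cancel' (Nat.lt_succ_iff.1 (x.1.2.2.2 y).2)]
    rw [h2, mul_pow, mul_pow]
    ring
  have h3 : μ ^ (12 * S) = (μ ^ 4) ^ (x.1.1 : ℕ) * (μ ^ 6) ^ (x.1.2.1 : ℕ) *
      ∏ l, (μ ^ 2) ^ (x.1.2.2.1 l : ℕ) := by
    rw [Finset.prod_pow_eq_pow_sum, ← pow_mul, ← pow_mul, ← pow_mul, ← pow_add, ← pow_add]
    congr 1
    omega
  have h4 : ∏ l, ((ρ l * (μ ^ 2 * (g l).1)) ^ (x.1.2.2.1 l : ℕ) *
      (ρ l * (g l).2) ^ (R - (x.1.2.2.1 l : ℕ))) = (∏ l, ρ l ^ R) *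
      ((∏ l, (μ ^ 2) ^ (x.1.2.2.1 l : ℕ)) *
      ∏ l, ((g l).1 ^ (x.1.2.2.1 l : ℕ) * (g l).2 ^ (R - (x.1.2.2.1 l : ℕ)))) := by
    rw [← Finset.prod_mul_distrib, ← Finset.prod_mul_distrib]
    exact Finset.prod_congr rfl fun l _ => h1 l
  have h5 : ∏ y, ((σ y * (h y).1) ^ (x.1.2.2.2 y : ℕ) *
      (σ y * (h y).2) ^ (D y - (x.1.2.2.2 y : ℕ))) = (∏ y, σ y ^ D y) *
      ∏ y, ((h y).1 ^ (x.1.2.2.2 y : ℕ) * (h y).2 ^ (D y - (x.1.2.2.2 y : ℕ))) := by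
    rw [← Finset.prod_mul_distrib]
    exact Finset.prod_congr rfl fun y _ => h2 y
  unfold mo
  rw [h3]
  change (μ ^ 4 * A) ^ (x.1.1 : ℕ) * (μ ^ 6 * B) ^ (x.1.2.1 : ℕ) *
    ((∏ l, ((ρ l * (μ ^ 2 * (g l).1)) ^ (x.1.2.2.1 l : ℕ) *
      (ρ l * (g l).2) ^ (R - (x.1.2.2.1 l : ℕ)))) *
      ∏ y, ((σ y * (h y).1) ^ (x.1.2.2.2 y : ℕ) *
      (σ y * (h y).2) ^ (D y - (x.1.2.2.2 y : ℕ)))) = _
  rw [h4, h5, mul_pow, mul_pow]
  ring

theorem ev_scale (c : Ex q S R D → ℤ) (A B : ℂ) (g : Fin q → ℂ × ℂ) (h : Y → ℂ × ℂ) (μ : ℂ)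
    (ρ : Fin q → ℂ) (σ : Y → ℂ) :
    ev c (μ ^ 4 * A) (μ ^ 6 * B) (fun l => (ρ l * (μ ^ 2 * (g l).1), ρ l * (g l).2))
      (fun y => (σ y * (h y).1, σ y * (h y).2)) =
      (μ ^ (12 * S) * ((∏ l, ρ l ^ R) * ∏ y, σ y ^ D y)) * ev c A B g h := by
  rw [ev, ev, Finset.mul_sum]
  refine Finset.sum_congr rfl fun x _ => ?_
  rw [mo_scale]
  ring

open Classical in
/-- the homogeneous coordinates of the points -/
noncomputable def hg {A B : ℂ} (P : Fin q → (crv A B).Point) : Fin q → ℂ × ℂ := fun l =>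
  if P l = 0 then (1, 0) else (xx (P l), 1)

open Classical in
/-- One place: the estimate for a point. -/
theorem br_point (V : ValuationSubring ℂ) {p : ℕ} (hp : p.Prime) (hpW : Wb m q b < p)
    (hp1 : V.valuation (p : ℂ) < 1) (hb0 : 0 < b) (hR : R = 6 * b) (hS : S = s + q * b)
    (hD : ∀ y, 0 < D y) (e0 : ℕ) (f : Fin q → ℕ) (ω : Y → ℕ)
    (F : ∀ J : Finset (Fin m), MvPolynomial J ℂ) (α : Fin m → ℤ)
    (hF : ∀ J : Finset (Fin m), J.card = d + 1 → ∀ l, V.valuation ((F J).coeff l) ≤ 1)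
    (hcor : ∀ J : Finset (Fin m), J.card = d + 1 → V.valuation
      (eval (fun j : J => ((α j : ℤ) : ℂ)) (F J)) = 1)
    (c : Fin m × Fin 2 × Ex q S R D → ℤ) (hc : LC S R b s D p e0 f ω α c)
    (A B : ℂ) (hAB : 4 * A ^ 3 + 27 * B ^ 2 ≠ 0) (P : Fin q → (crv A B).Point) (h : Y → ℂ)
    (hz : ∀ J : Finset (Fin m), J.card = d + 1 →
      homV (fun j => ev (fun x => c (j, 0, x)) A B (hg P) (fun y => (h y, 1)))
        (fun j => ev (fun x => c (j, 1, x)) A B (hg P) (fun y => (h y, 1)))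
        (rename (Subtype.val : J → Fin m) (F J)) = 0) :
    ∃ μ : ℂ, μ ≠ 0 ∧ max (V.valuation (μ ^ 12 * (4 * A ^ 3 + 27 * B ^ 2)))
        (V.valuation (μ ^ 12 * ((p : ℂ) ^ e0 * (6912 * A ^ 3)))) = 1 ∧
      m ≤ d + ((if V.valuation (6912 * A ^ 3 / (4 * A ^ 3 + 27 * B ^ 2)) *
          V.valuation (p : ℂ) ^ e0 = 1 then 1 else 0) +
        (Finset.univ.filter fun l => P l ≠ 0 ∧
          V.valuation (μ ^ 2 * xx (P l)) ^ R * V.valuation (p : ℂ) ^ f l = 1).card +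
        (Finset.univ.filter fun y => V.valuation (h y) ^ D y *
          V.valuation (p : ℂ) ^ ω y = 1).card) := by
  set v := V.valuation with hv
  have hRpos : 0 < R := by omega
  have hpC : (p : ℂ) ≠ 0 := by exact_mod_cast hp.ne_zero
  obtain ⟨μ, hμ, hmax⟩ := exists_scale V (4 * A ^ 3 + 27 * B ^ 2)
    ((p : ℂ) ^ e0 * (6912 * A ^ 3)) (fun h => hAB h.1) (by norm_num : 0 < 12)
  refine ⟨μ, hμ, hmax, ?_⟩
  have hρ : ∀ l, ∃ ρ : ℂ, ρ ≠ 0 ∧ max (v (ρ ^ R * ((p : ℂ) ^ f l * (μ ^ 2 * (hg P l).1) ^ R)))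
      (v (ρ ^ R * (hg P l).2 ^ R)) = 1 := by
    intro l
    refine exists_scale V _ _ ?_ hRpos
    rintro ⟨h1, h2⟩
    by_cases hl : P l = 0
    · have h3 : (hg P l).1 = 1 := by simp [hg, hl]
      rw [h3, mul_one] at h1
      exact mul_ne_zero (pow_ne_zero _ hpC) (pow_ne_zero _ (pow_ne_zero _ hμ)) h1
    · have h3 : (hg P l).2 = 1 := by simp [hg, hl]
      rw [h3, one_pow] at h2
      exact one_ne_zero h2
  choose ρ hρ0 hρ using hρ
  have hσ : ∀ y, ∃ σ : ℂ, σ ≠ 0 ∧ max (v (σ ^ D y * ((p : ℂ) ^ ω y * h y ^ D y)))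
      (v (σ ^ D y * 1)) = 1 := by
    intro y
    exact exists_scale V _ _ (fun h => one_ne_zero h.2) (hD y)
  choose σ hσ0 hσ using hσ
  have e1 : 4 * (μ ^ 4 * A) ^ 3 + 27 * (μ ^ 6 * B) ^ 2 = μ ^ 12 * (4 * A ^ 3 + 27 * B ^ 2) := by
    ring
  have e2 : (p : ℂ) ^ e0 * (6912 * (μ ^ 4 * A) ^ 3) =
      μ ^ 12 * ((p : ℂ) ^ e0 * (6912 * A ^ 3)) := by
    ring
  have hone : ∀ {x : V.ValueGroup} {n : ℕ}, 0 < n → x ^ n = 1 → x = 1 := by
    intro x n hn hx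
    exact (pow_left_inj₀ zero_le zero_le hn.ne').1 (by rw [hx, one_pow])
  have key := br (s := s) V hp hpW hp1 hb0 hR hS hD e0 f ω F α hF hcor c hc (μ ^ 4 * A) (μ ^ 6 * B)
    (by rw [e1, e2]; exact hmax)
    (fun l => (ρ l * (μ ^ 2 * (hg P l).1), ρ l * (hg P l).2))
    (by
      intro l
      rw [← hρ l, hv]
      congr 1
      · rw [← map_pow, ← map_pow, ← map_mul]
        congr 1
        ring
      · rw [← map_pow]
        congr 1
        ring)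
    (fun y => (σ y * h y, σ y * 1))
    (by
      intro y
      rw [← hσ y, hv]
      congr 1
      · rw [← map_pow, ← map_pow, ← map_mul]
        congr 1
        ring
      · rw [← map_pow]
        congr 1
        ring)
    (by
      intro J hJ
      have h1 := fun (t : Fin 2) (j : Fin m) => ev_scale (fun x => c (j, t, x)) A B (hg P)
        (fun y => (h y, 1)) μ ρ σ
      have h2 : homV (fun j => ev (fun x => c (j, 0, x)) (μ ^ 4 * A) (μ ^ 6 * B)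
          (fun l => (ρ l * (μ ^ 2 * (hg P l).1), ρ l * (hg P l).2))
          (fun y => (σ y * h y, σ y * 1)))
        (fun j => ev (fun x => c (j, 1, x)) (μ ^ 4 * A) (μ ^ 6 * B)
          (fun l => (ρ l * (μ ^ 2 * (hg P l).1), ρ l * (hg P l).2))
          (fun y => (σ y * h y, σ y * 1))) (rename (Subtype.val : J → Fin m) (F J)) =
        homV (fun j => (μ ^ (12 * S) * ((∏ l, ρ l ^ R) * ∏ y, σ y ^ D y)) *
            ev (fun x => c (j, 0, x)) A B (hg P) (fun y => (h y, 1)))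
          (fun j => (μ ^ (12 * S) * ((∏ l, ρ l ^ R) * ∏ y, σ y ^ D y)) *
            ev (fun x => c (j, 1, x)) A B (hg P) (fun y => (h y, 1)))
          (rename (Subtype.val : J → Fin m) (F J)) := by
        congr 1
        · funext j
          exact h1 0 j
        · funext j
          exact h1 1 j
      rw [h2, Pool.Agent.TH971.SR.homV_scale, hz J hJ, mul_zero])
    (Finset.univ.filter fun l => P l ≠ 0 ∧ v (μ ^ 2 * xx (P l)) ^ R * v (p : ℂ) ^ f l = 1)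
    (by
      rintro l hl ⟨h1, h2⟩
      apply hl
      refine Finset.mem_filter.2 ⟨Finset.mem_univ _, ?_⟩
      by_cases hP : P l = 0
      · have h3 : (hg P l).2 = 0 := by simp [hg, hP]
        change v (ρ l * (hg P l).2) = 1 at h1
        rw [h3, mul_zero, map_zero] at h1
        exact absurd h1 zero_ne_one
      · have h3 : hg P l = (xx (P l), 1) := by simp [hg, hP]
        change v (ρ l * (hg P l).2) = 1 at h1
        change v (ρ l * (μ ^ 2 * (hg P l).1)) ^ R * v (p : ℂ) ^ f l = 1 at h2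
        rw [h3] at h1 h2
        change v (ρ l * 1) = 1 at h1
        change v (ρ l * (μ ^ 2 * xx (P l))) ^ R * v (p : ℂ) ^ f l = 1 at h2
        rw [mul_one] at h1
        rw [map_mul, h1, one_mul] at h2
        exact ⟨hP, h2⟩)
    (Finset.univ.filter fun y => v (h y) ^ D y * v (p : ℂ) ^ ω y = 1)
    (by
      rintro y hy ⟨h1, h2⟩
      apply hy
      refine Finset.mem_filter.2 ⟨Finset.mem_univ _, ?_⟩
      change v (σ y * 1) = 1 at h1
      change v (σ y * h y) ^ D y * v (p : ℂ) ^ ω y = 1 at h2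
      rw [mul_one] at h1
      rw [map_mul, h1, one_mul] at h2
      exact h2)
  refine key.trans ?_
  gcongr
  by_cases hk : v (4 * (μ ^ 4 * A) ^ 3 + 27 * (μ ^ 6 * B) ^ 2) = 1 ∧
      v ((p : ℂ) ^ e0 * (6912 * (μ ^ 4 * A) ^ 3)) = 1
  · have h1 : v (6912 * A ^ 3 / (4 * A ^ 3 + 27 * B ^ 2)) * v (p : ℂ) ^ e0 = 1 := by
      rw [e1, e2] at hk
      have h2 : (6912 * A ^ 3 / (4 * A ^ 3 + 27 * B ^ 2)) * (p : ℂ) ^ e0 =
          (μ ^ 12 * ((p : ℂ) ^ e0 * (6912 * A ^ 3))) / (μ ^ 12 * (4 * A ^ 3 + 27 * B ^ 2)) := by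
        rw [mul_div_mul_left _ _ (pow_ne_zero _ hμ)]
        ring
      rw [← map_pow, ← map_mul, h2, map_div₀, hk.1, hk.2, div_one]
    rw [if_pos hk, if_pos h1]
  · rw [if_neg hk]
    exact Nat.zero_le _

end Pool.Agent.Y645.MX
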