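import Pool.Agent.Y645.MX.Alg
import Pool.Agent.W282.ZP.Mix
import Pool.Agent.W282.ZP.Geo

/-!
The count at one place (helper file for Zilber-Pink for random pull-backs to
`ℰ^q × Y(1)^n × G_m^k`).
-/

set_option autoImplicit false
set_option linter.unusedSectionVars false

open MvPolynomial

namespace Pool.Agent.Y645.MX

open Pool.Agent.W282.ZP Pool.Agent.TH971.SP Pool.Agent.W466.EP Pool.Agent.TH971.RF

variable {m q S R b s d n k : ℕ}

/-- the exponents of the elliptic coordinates -/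
def ff (b e0 R : ℕ) (l : Fin q) : ℕ := b * e0 + R + (l : ℕ) + 1

/-- the exponents of the other coordinates -/
def ey (e : Fin (n + 1) ⊕ Fin k → ℕ) : Fin n ⊕ Fin k → ℕ :=
  Sum.elim (fun i => e (Sum.inl i.succ)) (fun w => e (Sum.inr w))

/-- the exponents of the other coordinates, multiplied by the degrees -/
def om (D : Fin n ⊕ Fin k → ℕ) (e : Fin (n + 1) ⊕ Fin k → ℕ) (y : Fin n ⊕ Fin k) : ℕ :=
  D y * ey e y

/-- the first `j`-invariant -/
noncomputable def x0 (A B : ℂ) : ℂ := 6912 * A ^ 3 / (4 * A ^ 3 + 27 * B ^ 2)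

/-- the `j`-invariants -/
noncomputable def jv (A B : ℂ) (x : Fin n → ℂ) : Fin (n + 1) → ℂ := Fin.cons (x0 A B) x

open Classical in
/-- The count at one place. -/
theorem one_place (V : ValuationSubring ℂ) {p : ℕ} (hp : p.Prime) (hpW : Wb m q b < p)
    (hVp : (p : ℂ) ∈ V.nonunits)
    (harch : ∀ z : ℂ, ∃ M : ℕ, V.valuation z * V.valuation (p : ℂ) ^ M ≤ 1)
    (hb0 : 0 < b) (hR : R = 6 * b) (hS : S = s + q * b) (hq : q ≤ R)
    {D : Fin n ⊕ Fin k → ℕ} (hD : ∀ y, 0 < D y)
    (e : Fin (n + 1) ⊕ Fin k → ℕ) (he0 : ∀ i, 0 < e i)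
    (F : ∀ J : Finset (Fin m), MvPolynomial J ℂ) (α : Fin m → ℤ)
    (hF : ∀ J : Finset (Fin m), J.card = d + 1 → ∀ l, V.valuation ((F J).coeff l) ≤ 1)
    (hcor : ∀ J : Finset (Fin m), J.card = d + 1 → V.valuation
      (eval (fun j : J => ((α j : ℤ) : ℂ)) (F J)) = 1)
    (c : Fin m × Fin 2 × Ex q S R D → ℤ)
    (hc : LC S R b s D p (e (Sum.inl 0)) (ff b (e (Sum.inl 0)) R) (om D e) α c)
    (A B : ℂ) (hAB : 4 * A ^ 3 + 27 * B ^ 2 ≠ 0) (P : Fin q → (crv A B).Point) (x : Fin n → ℂ)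
    (u : Fin k → ℂ)
    (hz : ∀ J : Finset (Fin m), J.card = d + 1 →
      homV (fun j => ev (fun z => c (j, 0, z)) A B (hg P) (fun y => (Sum.elim x u y, 1)))
        (fun j => ev (fun z => c (j, 1, z)) A B (hg P) (fun y => (Sum.elim x u y, 1)))
        (rename (Subtype.val : J → Fin m) (F J)) = 0)
    (E : EndRing A B) (Λ : Submodule E.O (Fin q → E.O))
    (hΛ : ∀ a ∈ Λ, ∃ t : ℕ, 0 < t ∧ t • ∑ l, E.act (a l) (P l) = 0)
    (lam : ℂ) (hlam : lam ^ 12 * (4 * A ^ 3 + 27 * B ^ 2) = 1) (TE : Finset (Fin q))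
    {N1 M' C H : ℕ} (hN1 : 0 < N1)
    (hcν : ∀ a : ℂ, max (V.valuation a)
      (V.valuation (a * ((p : ℂ) ^ e (Sum.inl 0) * x0 A B))) = 1 →
      ∃ cν : ℕ, V.valuation a ^ N1 = V.valuation (p : ℂ) ^ cν ∧ cν ≤ N1 * C)
    (hM' : M'.Prime) (hMgt : 6 * N1 * R + q < M') (hH : 1 + C + e (Sum.inl 0) ≤ H)
    (hTE : ∀ l ∈ TE, V.valuation (lam ^ 2 * xx (P l)) ^ M' *
      V.valuation (p : ℂ) ^ (M' * H + (l : ℕ) + 1) = 1)
    (r : ℕ) (cls : Fin (n + 1) → Option (Fin r)) (N : Fin (n + 1) → Fin (n + 1) → ℕ)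
    (hN : ∀ i i', 0 < N i i') (hconst : ∀ i, cls i = none → V.valuation (jv A B x i) ≤ 1)
    (hrel : ∀ i i' l, cls i = some l → cls i' = some l → Polynomial.eval₂
      (Polynomial.aeval (jv A B x i) : Polynomial ℂ →ₐ[ℂ] ℂ).toRingHom (jv A B x i')
        (Psi (N i i')) = 0)
    (TM : Finset (Fin (n + 1))) (hTM : ∀ i ∈ TM, V.valuation (jv A B x i) = 1)
    (κ : TM → Fin r) (hκ : ∀ t : TM, cls t = some (κ t)) (hκinj : Function.Injective κ)
    (M₂ : Submodule ℤ (Fin k → ℤ)) (hM₂ : ∀ a ∈ M₂, ∃ t : ℕ, 0 < t ∧ (∏ w, u w ^ a w) ^ t = 1)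
    (TT : Finset (Fin k)) (hTT : ∀ w ∈ TT, V.valuation (u w) ^ 2 *
      V.valuation (p : ℂ) ^ e (Sum.inr w) = 1)
    (hcount : d + r + q + k < TM.card + TE.card + TT.card + m + Module.finrank E.O Λ +
      Module.finrank ℤ M₂) :
    (∃ i i', i ≠ i' ∧ IsSquare (N i i' * (e (Sum.inl i) * e (Sum.inl i')))) ∨
    ∃ Y : Finset (Fin k), k < Module.finrank ℤ M₂ + Y.card ∧ ∀ a ∈ M₂, (∀ j, j ∉ Y → a j = 0) →
      ∑ w, a w * (((if w ∈ TT then 1 else 2) * e (Sum.inr w) : ℕ) : ℤ) = 0 := by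
  set v := V.valuation with hv
  have hp1 : v (p : ℂ) < 1 := by rwa [ValuationSubring.mem_nonunits_iff] at hVp
  have hpC : (p : ℂ) ≠ 0 := by exact_mod_cast hp.ne_zero
  have hpv0 : v (p : ℂ) ≠ 0 := (map_ne_zero v).2 hpC
  have hpos : 0 < v (p : ℂ) := zero_lt_iff.2 hpv0
  have hone : ∀ {x : V.ValueGroup} {n : ℕ}, 0 < n → x ^ n = 1 → x = 1 := by
    intro x n hn hx
    exact (pow_left_inj₀ zero_le zero_le hn.ne').1 (by rw [hx, one_pow])
  obtain ⟨μ, hμ, hmax, hm⟩ := br_point (s := s) V hp hpW hp1 hb0 hR hS hD (e (Sum.inl 0))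
    (ff b (e (Sum.inl 0)) R) (om D e) F α hF hcor c hc A B hAB P (Sum.elim x u) hz
  have hΔ : (4 * A ^ 3 + 27 * B ^ 2) * x0 A B = 6912 * A ^ 3 := by
    rw [x0]
    field_simp
  obtain ⟨cν, hcν1, hcν2⟩ := hcν (μ ^ 12 * (4 * A ^ 3 + 27 * B ^ 2)) (by
    rw [← hmax]
    congr 2
    rw [← hΔ]
    ring)
  have hpl : 6912 < p := by
    have := Wb3 m q b
    omega
  have hE := rel_card V hp hpl hVp harch hμ hb0 hR hq hmax P E Λ hΛ (ff b (e (Sum.inl 0)) R)
    (fun l => rfl) lam hlam TE hN1 hcν1 hcν2 hM' hMgt hH hTE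
  -- the other coordinates
  let Ty : Finset (Fin (n + 1) ⊕ Fin k) := Finset.univ.filter fun i =>
    v (Sum.elim (jv A B x) u i) * v (p : ℂ) ^ e i = 1
  have hTyv : ∀ i ∈ Ty, v (Sum.elim (jv A B x) u i) * v (p : ℂ) ^ e i = 1 := fun i hi =>
    (Finset.mem_filter.1 hi).2
  have hcnt : (if v (6912 * A ^ 3 / (4 * A ^ 3 + 27 * B ^ 2)) *
          v (p : ℂ) ^ e (Sum.inl 0) = 1 then 1 else 0) +
        (Finset.univ.filter fun y => v (Sum.elim x u y) ^ D y *
          v (p : ℂ) ^ om D e y = 1).card ≤ Ty.toLeft.card + Ty.toRight.card := by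
    set Q : Finset (Fin n ⊕ Fin k) := Finset.univ.filter fun y => v (Sum.elim x u y) ^ D y *
          v (p : ℂ) ^ om D e y = 1 with hQ
    have hQv : ∀ y ∈ Q, v (Sum.elim x u y) * v (p : ℂ) ^ ey e y = 1 := by
      intro y hy
      have h1 := (Finset.mem_filter.1 hy).2
      refine hone (hD y) ?_
      rw [mul_pow, ← pow_mul, mul_comm (ey e y)]
      exact h1
    rw [← Finset.card_toLeft_add_card_toRight (u := Q)]
    have h1 : Q.toRight.card ≤ Ty.toRight.card := by
      refine Finset.card_le_card fun w hw => ?_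
      rw [Finset.mem_toRight] at hw ⊢
      exact Finset.mem_filter.2 ⟨Finset.mem_univ _, hQv _ hw⟩
    have h2 : (if v (6912 * A ^ 3 / (4 * A ^ 3 + 27 * B ^ 2)) *
          v (p : ℂ) ^ e (Sum.inl 0) = 1 then 1 else 0) + Q.toLeft.card ≤ Ty.toLeft.card := by
      have h3 : (Q.toLeft.image Fin.succ).card = Q.toLeft.card :=
        Finset.card_image_of_injective _ (Fin.succ_injective _)
      have h4 : Q.toLeft.image Fin.succ ⊆ Ty.toLeft := by
        intro i hi
        obtain ⟨i', hi', rfl⟩ := Finset.mem_image.1 hi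
        rw [Finset.mem_toLeft] at hi' ⊢
        exact Finset.mem_filter.2 ⟨Finset.mem_univ _, hQv _ hi'⟩
      by_cases h0 : v (6912 * A ^ 3 / (4 * A ^ 3 + 27 * B ^ 2)) * v (p : ℂ) ^ e (Sum.inl 0) = 1
      · rw [if_pos h0]
        have h5 : (0 : Fin (n + 1)) ∈ Ty.toLeft := by
          rw [Finset.mem_toLeft]
          exact Finset.mem_filter.2 ⟨Finset.mem_univ _, h0⟩
        have h6 : (0 : Fin (n + 1)) ∉ Q.toLeft.image Fin.succ := by
          intro h
          obtain ⟨i', -, h⟩ := Finset.mem_image.1 h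
          exact Fin.succ_ne_zero _ h
        have h7 : insert (0 : Fin (n + 1)) (Q.toLeft.image Fin.succ) ⊆ Ty.toLeft :=
          Finset.insert_subset h5 h4
        have h8 := Finset.card_le_card h7
        rw [Finset.card_insert_of_notMem h6, h3] at h8
        omega
      · rw [if_neg h0, zero_add, ← h3]
        exact Finset.card_le_card h4
    omega
  simp only [← hv] at hm hE
  have hTy1 : ∀ i ∈ Ty, 1 < v (Sum.elim (jv A B x) u i) := by
    intro i hi
    have h1 := hTyv i hi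
    by_contra h2
    push Not at h2
    have h3 : v (p : ℂ) ^ e i < 1 := pow_lt_one₀ zero_le hp1 (he0 i).ne'
    have h4 : v (Sum.elim (jv A B x) u i) * v (p : ℂ) ^ e i < 1 := by
      calc v (Sum.elim (jv A B x) u i) * v (p : ℂ) ^ e i ≤ 1 * v (p : ℂ) ^ e i := by gcongr
        _ = v (p : ℂ) ^ e i := one_mul _
        _ < 1 := h3
    rw [h1] at h4
    exact lt_irrefl _ h4
  by_cases hcase : r < Ty.toLeft.card + TM.card
  · -- the modular part
    left
    let Fr : Finset (Option (Fin r)) := (Finset.univ.filter fun l : Fin r =>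
      l ∉ Finset.univ.image κ).image some
    have hFr : Fr.card + TM.card = r := by
      have h1 : Fr.card = (Finset.univ.filter fun l : Fin r =>
          l ∉ Finset.univ.image κ).card :=
        Finset.card_image_of_injective _ (Option.some_injective _)
      have h2 : (Finset.univ.filter fun l : Fin r => l ∈ Finset.univ.image κ).card =
          TM.card := by
        have h3 : (Finset.univ.filter fun l : Fin r => l ∈ Finset.univ.image κ) =
            Finset.univ.image κ := by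
          ext l; simp
        rw [h3, Finset.card_image_of_injective _ hκinj, Finset.card_univ, Fintype.card_coe]
      have := Finset.card_filter_add_card_filter_not (s := (Finset.univ : Finset (Fin r)))
        (fun l => l ∈ Finset.univ.image κ)
      rw [Finset.card_univ, Fintype.card_fin] at this
      rw [h1]
      omega
    have hmaps : ∀ i ∈ Ty.toLeft, cls i ∈ Fr := by
      intro i hi
      have h1 : 1 < v (jv A B x i) := hTy1 _ (Finset.mem_toLeft.1 hi)
      cases hc : cls i with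
      | none => exact absurd h1 (not_lt.2 (hconst i hc))
      | some l =>
        refine Finset.mem_image_of_mem _ (Finset.mem_filter.2 ⟨Finset.mem_univ _, ?_⟩)
        intro hk
        obtain ⟨t, -, ht⟩ := Finset.mem_image.1 hk
        have h2 := hrel t i l (ht ▸ hκ t) hc
        have h3 := (((Psi_spec (hN t i)).2.2 ℂ V _ _ h2).1) (hTM t t.2).le
        exact absurd h1 (not_lt.2 h3)
    obtain ⟨i, hi, i', hi', hne, hcls⟩ := Finset.exists_ne_map_eq_of_card_lt_of_maps_to
      (s := Ty.toLeft) (t := Fr) (by omega) (f := cls) hmaps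
    refine ⟨i, i', hne, ?_⟩
    obtain ⟨l, -, hk⟩ := Finset.mem_image.1 (hmaps i hi)
    have h1 : 1 < v (jv A B x i) := hTy1 _ (Finset.mem_toLeft.1 hi)
    have h2 := hrel i i' l hk.symm (hcls ▸ hk.symm)
    obtain ⟨a, ha⟩ := (((Psi_spec (hN i i')).2.2 ℂ V _ _ h2).2) h1
    have h3 : v (jv A B x i) * v (p : ℂ) ^ e (Sum.inl i) = 1 := hTyv _ (Finset.mem_toLeft.1 hi)
    have h4 : v (jv A B x i') * v (p : ℂ) ^ e (Sum.inl i') = 1 := hTyv _ (Finset.mem_toLeft.1 hi')
    have h5 : v (p : ℂ) ^ (e (Sum.inl i') * N i i') = v (p : ℂ) ^ (e (Sum.inl i) * a ^ 2) := by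
      have h6 : (v (jv A B x i') * v (p : ℂ) ^ e (Sum.inl i')) ^ N i i' = 1 := by
        rw [h4, one_pow]
      have h7 : (v (jv A B x i) * v (p : ℂ) ^ e (Sum.inl i)) ^ (a ^ 2) = 1 := by
        rw [h3, one_pow]
      rw [mul_pow, ← pow_mul] at h6 h7
      rw [ha] at h6
      have h8 : v (jv A B x i) ^ (a ^ 2) ≠ 0 := pow_ne_zero _ (zero_lt_one.trans h1).ne'
      exact mul_left_cancel₀ h8 (h6.trans h7.symm)
    have h6 := exponent_eq V (v (p : ℂ)) hpos hp1 h5
    refine ⟨e (Sum.inl i) * a, ?_⟩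
    calc N i i' * (e (Sum.inl i) * e (Sum.inl i')) =
          e (Sum.inl i) * (e (Sum.inl i') * N i i') := by ring
      _ = e (Sum.inl i) * (e (Sum.inl i) * a ^ 2) := by rw [h6]
      _ = _ := by ring
  · -- the torus part
    right
    have hdisj : Disjoint TT Ty.toRight := by
      rw [Finset.disjoint_left]
      intro w hw1 hw2
      have h1 := hTT w hw1
      have h2 : v (u w) * v (p : ℂ) ^ e (Sum.inr w) = 1 := hTyv _ (Finset.mem_toRight.1 hw2)
      have h3 : 1 < v (u w) := hTy1 _ (Finset.mem_toRight.1 hw2)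
      have h4 : v (u w) * (v (u w) * v (p : ℂ) ^ e (Sum.inr w)) = 1 := by
        rw [← mul_assoc, ← pow_two]
        exact h1
      rw [h2, mul_one] at h4
      exact h3.ne' h4
    refine ⟨TT ∪ Ty.toRight, ?_, ?_⟩
    · rw [Finset.card_union_of_disjoint hdisj]
      omega
    · intro a ha haY
      obtain ⟨t, ht, hrt⟩ := hM₂ a ha
      obtain ⟨π, hπ⟩ := IsAlgClosed.exists_pow_nat_eq (p : ℂ) (by norm_num : 0 < 2)
      have hπv : v (p : ℂ) = v π ^ 2 := by rw [← hπ, map_pow]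
      have hπ0 : 0 < v π := by
        refine zero_lt_iff.2 fun h0 => ?_
        rw [h0, zero_pow (by norm_num)] at hπv
        exact hpv0 hπv
      have hπ1 : v π < 1 := by
        by_contra hcon
        push Not at hcon
        have h1 := one_le_pow₀ hcon (n := 2)
        rw [← hπv] at h1
        exact absurd hp1 (not_lt.2 h1)
      refine tor_simple (v := v) hπ0 hπ1 u (TT ∪ Ty.toRight)
        (fun w => (if w ∈ TT then 1 else 2) * e (Sum.inr w)) ?_ a haY ?_
      · intro w hw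
        by_cases hwT : w ∈ TT
        · have h1 := hTT w hwT
          rw [hπv] at h1
          refine hone (by norm_num : 0 < 2) ?_
          rw [if_pos hwT, one_mul, mul_pow, ← pow_mul, mul_comm _ 2, pow_mul]
          exact h1
        · rw [if_neg hwT, pow_mul, ← hπv]
          exact hTyv _ (Finset.mem_toRight.1 ((Finset.mem_union.1 hw).resolve_left hwT))
      · have h1 := congrArg v hrt
        rw [map_pow, map_one] at h1
        exact hone ht h1

end Pool.Agent.Y645.MX
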