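import Pool.Agent.Y645.MX.Nrm

/-!
Relations between the points of the elliptic curve at one place (helper file for Zilber-Pink for
random pull-backs to fibre powers of the universal elliptic curve).
-/

set_option autoImplicit false
set_option linter.unusedSectionVars false

open MvPolynomial

namespace Pool.Agent.Y645.MX

open Pool.Agent.W282.ZP Pool.Agent.TH971.SP Pool.Agent.W466.EP Pool.Agent.TH971.RF

/-- the level of a point with a transcendental coordinate -/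
theorem exists_G {N1 M' C cν e0 H : ℕ} (hC : cν ≤ N1 * C) (hH : 1 + C + e0 ≤ H) (l : ℕ) :
    ∃ G : ℕ, G + M' * (cν + e0 * N1) = 6 * N1 * (M' * H + l + 1) ∧ 6 * N1 * M' ≤ G := by
  have h1 : 6 * N1 * M' + M' * (cν + e0 * N1) ≤ 6 * N1 * (M' * H + l + 1) := by
    calc 6 * N1 * M' + M' * (cν + e0 * N1) ≤ 6 * N1 * M' + M' * (N1 * C + e0 * N1) := by gcongr
      _ ≤ 6 * N1 * (M' * (1 + C + e0)) := by
          have : 6 * N1 * (M' * (1 + C + e0)) = 6 * N1 * M' + M' * (N1 * C + e0 * N1) +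
            5 * (M' * (N1 * C + e0 * N1)) := by ring
          rw [this]
          exact Nat.le_add_right _ _
      _ ≤ 6 * N1 * (M' * H + l + 1) := by
          refine Nat.mul_le_mul_left _ ?_
          calc M' * (1 + C + e0) ≤ M' * H := Nat.mul_le_mul_left _ hH
            _ ≤ M' * H + l + 1 := by omega
  obtain ⟨t, ht⟩ := Nat.exists_eq_add_of_le h1
  exact ⟨6 * N1 * M' + t, by rw [ht]; ring, Nat.le_add_right _ _⟩

theorem not_dvd_G {N1 M' cν e0 H R G q : ℕ} (hM' : M'.Prime) (hN1 : 0 < N1) (hR : 0 < R)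
    (hMgt : 6 * N1 * R + q < M') {l : ℕ} (hl : l < q)
    (hG : G + M' * (cν + e0 * N1) = 6 * N1 * (M' * H + l + 1)) : ¬ M' ∣ G * R := by
  intro h
  have hRM : R < M' := by
    calc R ≤ 6 * N1 * R := Nat.le_mul_of_pos_left _ (by positivity)
      _ ≤ 6 * N1 * R + q := Nat.le_add_right _ _
      _ < M' := hMgt
  have hNM : 6 * N1 < M' := by
    calc 6 * N1 ≤ 6 * N1 * R := Nat.le_mul_of_pos_right _ hR
      _ ≤ 6 * N1 * R + q := Nat.le_add_right _ _
      _ < M' := hMgt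
  rcases hM'.dvd_mul.1 h with h1 | h1
  · have h2 : M' ∣ 6 * N1 * (M' * H + l + 1) := by
      rw [← hG]
      exact dvd_add h1 (Dvd.intro _ rfl)
    rcases hM'.dvd_mul.1 h2 with h3 | h3
    · have := Nat.le_of_dvd (by positivity) h3
      omega
    · rw [add_assoc] at h3
      have h4 := (Nat.dvd_add_right (Dvd.intro H rfl)).1 h3
      have := Nat.le_of_dvd (by omega) h4
      omega
  · have := Nat.le_of_dvd hR h1
    omega

theorem G_inj {N1 M' cν e0 H R G G' q : ℕ} (hM' : M'.Prime) (hN1 : 0 < N1) (hR : 0 < R)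
    (hMgt : 6 * N1 * R + q < M') {l l' : ℕ} (hl : l < q) (hl' : l' < q)
    (hG : G + M' * (cν + e0 * N1) = 6 * N1 * (M' * H + l + 1))
    (hG' : G' + M' * (cν + e0 * N1) = 6 * N1 * (M' * H + l' + 1))
    (h : G * R ≡ G' * R [MOD M']) : l = l' := by
  have hRM : R < M' := by
    calc R ≤ 6 * N1 * R := Nat.le_mul_of_pos_left _ (by positivity)
      _ ≤ 6 * N1 * R + q := Nat.le_add_right _ _
      _ < M' := hMgt
  have hNM : 6 * N1 < M' := by
    calc 6 * N1 ≤ 6 * N1 * R := Nat.le_mul_of_pos_right _ hR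
      _ ≤ 6 * N1 * R + q := Nat.le_add_right _ _
      _ < M' := hMgt
  have hc1 : Nat.gcd M' R = 1 := (Nat.Prime.coprime_iff_not_dvd hM').2 fun h1 => by
    have := Nat.le_of_dvd hR h1
    omega
  have hc2 : Nat.gcd M' (6 * N1) = 1 := (Nat.Prime.coprime_iff_not_dvd hM').2 fun h1 => by
    have := Nat.le_of_dvd (by positivity) h1
    omega
  have h1 : G ≡ G' [MOD M'] := Nat.ModEq.cancel_right_of_coprime hc1 h
  have h2 : 6 * N1 * (M' * H + l + 1) ≡ 6 * N1 * (M' * H + l' + 1) [MOD M'] := by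
    rw [← hG, ← hG']
    exact h1.add_right _
  have h3 : M' * H + l + 1 ≡ M' * H + l' + 1 [MOD M'] := Nat.ModEq.cancel_left_of_coprime hc2 h2
  have h4 : M' * H + l ≡ M' * H + l' [MOD M'] := Nat.ModEq.add_right_cancel' 1 h3
  have h5 : l ≡ l' [MOD M'] := Nat.ModEq.add_left_cancel' _ h4
  exact Nat.ModEq.eq_of_lt_of_lt h5 (by omega) (by omega)

open Classical in
/-- The rank of the relations. -/
theorem rel_card (V : ValuationSubring ℂ) {p : ℕ} (hp : p.Prime) (hpl : 6912 < p)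
    (hVp : (p : ℂ) ∈ V.nonunits)
    (harch : ∀ z : ℂ, ∃ M : ℕ, V.valuation z * V.valuation (p : ℂ) ^ M ≤ 1)
    {A B μ : ℂ} (hμ : μ ≠ 0) {e0 b R q : ℕ} (hb : 0 < b) (hR : R = 6 * b) (hq : q ≤ R)
    (hmax : max (V.valuation (μ ^ 12 * (4 * A ^ 3 + 27 * B ^ 2)))
        (V.valuation (μ ^ 12 * ((p : ℂ) ^ e0 * (6912 * A ^ 3)))) = 1)
    (P : Fin q → (crv A B).Point) (E : EndRing A B) (Λ : Submodule E.O (Fin q → E.O))
    (hΛ : ∀ a ∈ Λ, ∃ t : ℕ, 0 < t ∧ t • ∑ l, E.act (a l) (P l) = 0)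
    (f : Fin q → ℕ) (hf : ∀ l, f l = b * e0 + R + (l : ℕ) + 1)
    (lam : ℂ) (hlam : lam ^ 12 * (4 * A ^ 3 + 27 * B ^ 2) = 1) (T : Finset (Fin q))
    {N1 M' C cν H : ℕ} (hN1 : 0 < N1)
    (hcν : V.valuation (μ ^ 12 * (4 * A ^ 3 + 27 * B ^ 2)) ^ N1 = V.valuation (p : ℂ) ^ cν)
    (hC : cν ≤ N1 * C) (hM' : M'.Prime) (hMgt : 6 * N1 * R + q < M') (hH : 1 + C + e0 ≤ H)
    (hT : ∀ l ∈ T, V.valuation (lam ^ 2 * xx (P l)) ^ M' *
      V.valuation (p : ℂ) ^ (M' * H + (l : ℕ) + 1) = 1) :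
    (Finset.univ.filter fun l => P l ≠ 0 ∧
      V.valuation (μ ^ 2 * xx (P l)) ^ R * V.valuation (p : ℂ) ^ f l = 1).card + T.card +
      Module.finrank E.O Λ ≤ q := by
  set v := V.valuation with hv
  set Δ : ℂ := 4 * A ^ 3 + 27 * B ^ 2 with hΔ
  have hp1 : v (p : ℂ) < 1 := by rwa [ValuationSubring.mem_nonunits_iff] at hVp
  have hpC : (p : ℂ) ≠ 0 := by exact_mod_cast hp.ne_zero
  have hpv0 : v (p : ℂ) ≠ 0 := (map_ne_zero v).2 hpC
  have hRpos : 0 < R := by omega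
  have hM0 : 0 < M' := hM'.pos
  set Typ : Finset (Fin q) := Finset.univ.filter fun l => P l ≠ 0 ∧
      v (μ ^ 2 * xx (P l)) ^ R * v (p : ℂ) ^ f l = 1 with hTyp
  have hone : ∀ {x : V.ValueGroup} {n : ℕ}, 0 < n → x ^ n = 1 → x = 1 := by
    intro x n hn hx
    exact (pow_left_inj₀ zero_le zero_le hn.ne').1 (by rw [hx, one_pow])
  -- the scaling
  obtain ⟨π0, hπ0⟩ := IsAlgClosed.exists_pow_nat_eq ((p : ℂ) ^ e0) (by norm_num : 0 < 12)
  have hπ00 : π0 ≠ 0 := by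
    rintro rfl
    rw [zero_pow (by norm_num)] at hπ0
    exact pow_ne_zero _ hpC hπ0.symm
  set z : ℂ := μ * π0 with hzdef
  have hz : z ≠ 0 := mul_ne_zero hμ hπ00
  have hz12 : z ^ 12 = μ ^ 12 * (p : ℂ) ^ e0 := by rw [hzdef, mul_pow, hπ0]
  -- the levels
  set n : ℕ := 6 * N1 * M' with hn
  have hn0 : 0 < n := by positivity
  have hnR : 0 < n * R := Nat.mul_pos hn0 hRpos
  obtain ⟨π, hπ⟩ := IsAlgClosed.exists_pow_nat_eq (p : ℂ) hnR
  have hρR : v (p : ℂ) = v π ^ (n * R) := by rw [← hπ, map_pow]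
  have hρ0 : 0 < v π := by
    refine zero_lt_iff.2 fun h0 => ?_
    rw [h0, zero_pow hnR.ne'] at hρR
    exact hpv0 hρR
  have hρ1 : v π < 1 := by
    by_contra hcon
    push Not at hcon
    have h1 := one_le_pow₀ hcon (n := n * R)
    rw [← hρR] at h1
    exact absurd hp1 (not_lt.2 h1)
  have hG := fun l : Fin q => exists_G (N1 := N1) (M' := M') (C := C) (cν := cν) (e0 := e0)
    (H := H) hC hH (l : ℕ)
  choose G hG1 hG2 using hG
  have hlevT : ∀ l ∈ T, v (z ^ 2 * xx (P l)) * v π ^ (G l * R) = 1 := by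
    intro l hl
    have h1 := hT l hl
    set x := xx (P l) with hx
    have h2 : (z ^ 2 * x) ^ 6 = (μ ^ 12 * Δ) * (p : ℂ) ^ e0 * (lam ^ 2 * x) ^ 6 := by
      calc (z ^ 2 * x) ^ 6 = z ^ 12 * x ^ 6 := by ring
        _ = (lam ^ 12 * Δ) * (μ ^ 12 * (p : ℂ) ^ e0) * x ^ 6 := by rw [hlam, hz12, one_mul]
        _ = _ := by ring
    have h3 : v (z ^ 2 * x) ^ 6 = v (μ ^ 12 * Δ) * v (p : ℂ) ^ e0 * v (lam ^ 2 * x) ^ 6 := by
      rw [← map_pow, h2, map_mul, map_mul, map_pow, map_pow]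
    have h4 : v (z ^ 2 * x) ^ n = v (p : ℂ) ^ (M' * (cν + e0 * N1)) *
        (v (lam ^ 2 * x) ^ M') ^ (6 * N1) := by
      have e1 : v (z ^ 2 * x) ^ n = (v (z ^ 2 * x) ^ 6) ^ (N1 * M') := by
        rw [← pow_mul, hn]
        congr 1
        ring
      rw [e1, h3, mul_pow, mul_pow]
      have e2 : v (μ ^ 12 * Δ) ^ (N1 * M') = v (p : ℂ) ^ (M' * cν) := by
        rw [pow_mul, hcν, ← pow_mul, mul_comm cν]
      rw [e2, ← pow_mul, ← pow_mul, ← pow_mul, ← pow_add]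
      congr 2
      · ring
      · ring
    refine hone hn0 ?_
    have e3 : (v π ^ (G l * R)) ^ n = v (p : ℂ) ^ G l := by
      rw [hρR, ← pow_mul, ← pow_mul]
      congr 1
      ring
    rw [mul_pow, h4, e3]
    calc v (p : ℂ) ^ (M' * (cν + e0 * N1)) * (v (lam ^ 2 * x) ^ M') ^ (6 * N1) * v (p : ℂ) ^ G l
        = v (p : ℂ) ^ (G l + M' * (cν + e0 * N1)) * (v (lam ^ 2 * x) ^ M') ^ (6 * N1) := by
          rw [pow_add]
          ac_rfl
      _ = (v (lam ^ 2 * x) ^ M' * v (p : ℂ) ^ (M' * H + (l : ℕ) + 1)) ^ (6 * N1) := by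
          rw [hG1, mul_pow, ← pow_mul (v (p : ℂ)), mul_comm (M' * H + (l : ℕ) + 1), mul_comm]
      _ = 1 := by rw [h1, one_pow]
  have hlevY : ∀ l ∈ Typ, v (z ^ 2 * xx (P l)) * v π ^ ((R + (l : ℕ) + 1) * n) = 1 := by
    intro l hl
    have h1 := (Finset.mem_filter.1 hl).2.2
    set x := xx (P l) with hx
    have h2 : (z ^ 2 * x) ^ R = (μ ^ 2 * x) ^ R * (p : ℂ) ^ (b * e0) := by
      have e1 : (π0 ^ 2) ^ R = (p : ℂ) ^ (b * e0) := by
        rw [← pow_mul, hR, show 2 * (6 * b) = 12 * b by ring, pow_mul, hπ0, ← pow_mul,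
          mul_comm e0]
      rw [← e1, ← mul_pow, hzdef]
      congr 1
      ring
    refine hone hRpos ?_
    rw [mul_pow, ← map_pow, h2, map_mul, map_pow, map_pow, ← pow_mul, mul_assoc (R + (l : ℕ) + 1),
      mul_comm (R + (l : ℕ) + 1), pow_mul (v π) (n * R), ← hρR, mul_assoc, ← pow_add]
    rw [hf l] at h1
    convert h1 using 3
    ring
  have hdisj : Disjoint T Typ := by
    rw [Finset.disjoint_left]
    intro l hl1 hl2
    have h1 := hlevT l hl1
    have h2 := hlevY l hl2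
    have h3 : v (z ^ 2 * xx (P l)) ≠ 0 := by
      intro h0
      rw [h0, zero_mul] at h1
      exact zero_ne_one h1
    have h4 := mul_left_cancel₀ h3 (h1.trans h2.symm)
    have h5 : G l * R = (R + (l : ℕ) + 1) * n := pow_right_injective₀ hρ0 hρ1.ne h4
    refine not_dvd_G hM' hN1 hRpos hMgt l.2 (hG1 l) ?_
    rw [h5, hn]
    exact Dvd.dvd.mul_left (Dvd.intro_left _ rfl) _
  by_contra hcon
  push Not at hcon
  have hU : ((T ∪ Typ)ᶜ).card < Module.finrank E.O Λ := by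
    have h1 := Finset.card_compl (T ∪ Typ)
    rw [Fintype.card_fin, Finset.card_union_of_disjoint hdisj] at h1
    have h2 : (T ∪ Typ).card ≤ q := by simpa using (T ∪ Typ).card_le_univ
    rw [Finset.card_union_of_disjoint hdisj] at h2
    omega
  obtain ⟨α, hαΛ, hα0, hαU⟩ := exists_relO Λ ((T ∪ Typ)ᶜ) hU
  obtain ⟨t, ht, hrel⟩ := hΛ α hαΛ
  -- the curve
  have hunit : ∀ k : ℤ, k ≠ 0 → k.natAbs < p → v (k : ℂ) = 1 := by
    intro k hk0 hkp
    refine val_int_unit V hp hp1 fun h => ?_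
    have h1 := Nat.le_of_dvd (Int.natAbs_pos.2 hk0) (Int.natCast_dvd.1 h)
    omega
  have hu1 : v (6912 : ℂ) = 1 := by
    have h1 := hunit 6912 (by norm_num) (by
      rw [show (6912 : ℤ).natAbs = 6912 from rfl]
      exact hpl)
    exact_mod_cast h1
  have hu2 : v (27 : ℂ) = 1 := by
    have h1 := hunit 27 (by norm_num) (by
      rw [show (27 : ℤ).natAbs = 27 from rfl]
      omega)
    exact_mod_cast h1
  have hu3 : v (4 : ℂ) = 1 := by
    have h1 := hunit 4 (by norm_num) (by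
      rw [show (4 : ℤ).natAbs = 4 from rfl]
      omega)
    exact_mod_cast h1
  have hroot : ∀ {x : V.ValueGroup} {n : ℕ}, 0 < n → x ^ n ≤ 1 → x ≤ 1 := by
    intro x n hn hx
    by_contra h1
    push Not at h1
    exact absurd (one_lt_pow₀ h1 hn.ne') (not_lt.2 hx)
  have hA3 : v (μ ^ 12 * (p : ℂ) ^ e0 * A ^ 3) ≤ 1 := by
    have h1 : v (μ ^ 12 * ((p : ℂ) ^ e0 * (6912 * A ^ 3))) ≤ 1 := hmax ▸ le_max_right _ _
    have h2 : μ ^ 12 * ((p : ℂ) ^ e0 * (6912 * A ^ 3)) =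
        6912 * (μ ^ 12 * (p : ℂ) ^ e0 * A ^ 3) := by ring
    rwa [h2, map_mul, hu1, one_mul] at h1
  have hzA : v (z ^ 4 * A) ≤ 1 := by
    refine hroot (by norm_num : 0 < 3) ?_
    rw [← map_pow]
    have h1 : (z ^ 4 * A) ^ 3 = μ ^ 12 * (p : ℂ) ^ e0 * A ^ 3 := by
      rw [← hz12]
      ring
    rw [h1]
    exact hA3
  have hzB : v (z ^ 6 * B) ≤ 1 := by
    refine hroot (by norm_num : 0 < 2) ?_
    rw [← map_pow]
    have h1 : 27 * (z ^ 6 * B) ^ 2 = (p : ℂ) ^ e0 * (μ ^ 12 * Δ) -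
        4 * (μ ^ 12 * (p : ℂ) ^ e0 * A ^ 3) := by
      calc 27 * (z ^ 6 * B) ^ 2 = z ^ 12 * (27 * B ^ 2) := by ring
        _ = _ := by
          rw [hz12, hΔ]
          ring
    have h2 : v (27 * (z ^ 6 * B) ^ 2) = v ((z ^ 6 * B) ^ 2) := by rw [map_mul, hu2, one_mul]
    rw [← h2, h1]
    refine (Valuation.map_sub _ _ _).trans (max_le ?_ ?_)
    · rw [map_mul, map_pow]
      exact mul_le_one' (pow_le_one₀ zero_le hp1.le) (hmax ▸ le_max_left _ _)
    · rw [map_mul, hu3, one_mul]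
      exact hA3
  let lv : Fin q → ℕ := fun l => if l ∈ T then G l * R else (R + (l : ℕ) + 1) * n
  refine rel_placeE hp hVp harch hz hzA hzB E hρR hnR hρ0 P (T ∪ Typ) lv ?_ ?_ ?_ α hα0 ?_ ht hrel
  · intro l hl
    rw [xx_scl]
    by_cases hlT : l ∈ T
    · simp only [lv, if_pos hlT]
      exact hlevT l hlT
    · simp only [lv, if_neg hlT]
      exact hlevY l ((Finset.mem_union.1 hl).resolve_left hlT)
  · intro l _
    by_cases hlT : l ∈ T
    · simp only [lv, if_pos hlT]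
      have h1 : n * R ≤ G l * R := Nat.mul_le_mul_right _ (hG2 l)
      omega
    · simp only [lv, if_neg hlT]
      have h1 : n * R < (R + (l : ℕ) + 1) * n := by
        rw [mul_comm n R]
        exact Nat.mul_lt_mul_of_pos_right (by omega) hn0
      omega
  · have hMn : M' ∣ n * R := Dvd.dvd.mul_right (Dvd.intro_left _ rfl) _
    intro l _ l' _ hne hmod
    by_cases hlT : l ∈ T
    · by_cases hlT' : l' ∈ T
      · simp only [lv, if_pos hlT, if_pos hlT'] at hmod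
        exact hne (Fin.ext (G_inj hM' hN1 hRpos hMgt l.2 l'.2 (hG1 l) (hG1 l')
          (hmod.of_dvd hMn)))
      · simp only [lv, if_pos hlT, if_neg hlT'] at hmod
        refine not_dvd_G hM' hN1 hRpos hMgt l.2 (hG1 l) ?_
        have h1 := hmod.of_dvd hMn
        have h2 : (R + (l' : ℕ) + 1) * n ≡ 0 [MOD M'] :=
          (Nat.modEq_zero_iff_dvd).2 (Dvd.dvd.mul_left (Dvd.intro_left _ rfl) _)
        exact (Nat.modEq_zero_iff_dvd).1 (h1.trans h2)
    · by_cases hlT' : l' ∈ T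
      · simp only [lv, if_neg hlT, if_pos hlT'] at hmod
        refine not_dvd_G hM' hN1 hRpos hMgt l'.2 (hG1 l') ?_
        have h1 := hmod.of_dvd hMn
        have h2 : (R + (l : ℕ) + 1) * n ≡ 0 [MOD M'] :=
          (Nat.modEq_zero_iff_dvd).2 (Dvd.dvd.mul_left (Dvd.intro_left _ rfl) _)
        exact (Nat.modEq_zero_iff_dvd).1 (h1.symm.trans h2)
      · simp only [lv, if_neg hlT, if_neg hlT'] at hmod
        rw [mul_comm (R + (l : ℕ) + 1), mul_comm (R + (l' : ℕ) + 1)] at hmod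
        have h1 : R + (l : ℕ) + 1 ≡ R + (l' : ℕ) + 1 [MOD R] :=
          Nat.ModEq.mul_left_cancel' hn0.ne' hmod
        have h2 : R + (l : ℕ) ≡ R + (l' : ℕ) [MOD R] := Nat.ModEq.add_right_cancel' 1 h1
        have h3 : (l : ℕ) ≡ l' [MOD R] := Nat.ModEq.add_left_cancel' _ h2
        exact hne (Fin.ext (Nat.ModEq.eq_of_lt_of_lt h3 (by omega) (by omega)))
  · intro l hl
    refine hαU l ?_
    rwa [Finset.mem_compl]

end Pool.Agent.Y645.MX
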